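import Pool.Agent.MP_f71fe7.Defs

/-!
Border counting (Spencer's bound and its refinements).

For a box `[a0,a1] x [b0,b1]` with `a0,a1 ∈ A`, `b0,b1 ∈ B` count the pairs
(line of D or S, side of the box hit by the line at an integer point). Each side of the box is
covered, a D-line hits at most `2 + [d = b0 - a0] + [d = b1 - a1]` sides, an S-line at most
`2 + [s = a0 + b1] + [s = a1 + b0]` sides.
-/

set_option autoImplicit false

open scoped Pointwise

namespace Pool.Agent.MP_f71fe7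

/-- One side of a box: every element of `X` is covered by a line of `D` or of `S`. -/
theorem Border_side {X D S : Finset ℤ} {f g : ℤ → ℤ} (P Q : ℤ → Prop) [DecidablePred P]
    [DecidablePred Q] (hf : Function.Injective f) (hg : Function.Injective g)
    (h : ∀ y ∈ X, (f y ∈ D ∧ P (f y)) ∨ (g y ∈ S ∧ Q (g y))) :
    X.card ≤ (D.filter P).card + (S.filter Q).card := by
  have h1 : X ⊆ X.filter (fun y => f y ∈ D.filter P) ∪ X.filter (fun y => g y ∈ S.filter Q) := by
    intro y hy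
    simp only [Finset.mem_union, Finset.mem_filter]
    rcases h y hy with h2 | h2
    · left; exact ⟨hy, h2⟩
    · right; exact ⟨hy, h2⟩
  have h2 : (X.filter (fun y => f y ∈ D.filter P)).card ≤ (D.filter P).card := by
    apply Finset.card_le_card_of_injOn f
    · intro y hy
      have hy' := Finset.mem_filter.1 (Finset.mem_coe.1 hy)
      exact Finset.mem_coe.2 hy'.2
    · exact hf.injOn
  have h3 : (X.filter (fun y => g y ∈ S.filter Q)).card ≤ (S.filter Q).card := by
    apply Finset.card_le_card_of_injOn g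
    · intro y hy
      have hy' := Finset.mem_filter.1 (Finset.mem_coe.1 hy)
      exact Finset.mem_coe.2 hy'.2
    · exact hg.injOn
  calc X.card ≤ _ := Finset.card_le_card h1
    _ ≤ _ := Finset.card_union_le _ _
    _ ≤ _ := Nat.add_le_add h2 h3

/-- The left side, with the exceptional rows counted once more. -/
theorem Border_left {A B D S : Finset ℤ} (h : Cov A B D S) {a0 b0 b1 : ℤ} (ha0 : a0 ∈ A) :
    (Exc B D S a0 b0 b1).card + (B.filter (fun b => b0 ≤ b ∧ b ≤ b1)).card
    ≤ (D.filter (fun d => b0 - a0 ≤ d ∧ d ≤ b1 - a0)).card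
      + (S.filter (fun s => a0 + b0 ≤ s ∧ s ≤ a0 + b1)).card := by
  classical
  set P1 : Finset ℤ := (Finset.Icc b0 b1).filter (fun y => y - a0 ∈ D) with hP1
  set P2 : Finset ℤ := (Finset.Icc b0 b1).filter (fun y => a0 + y ∈ S) with hP2
  set B' : Finset ℤ := B.filter (fun b => b0 ≤ b ∧ b ≤ b1) with hB'
  have e1 : (Exc B D S a0 b0 b1) ∪ B' ⊆ P1 ∪ P2 := by
    intro y hy
    simp only [hP1, hP2, hB', Exc, Finset.mem_union, Finset.mem_filter, Finset.mem_Icc] at hy ⊢
    rcases hy with ⟨h1, h2⟩ | ⟨h1, h2⟩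
    · by_cases hB : y ∈ B
      · rcases h a0 ha0 y hB with h3 | h3
        · left; exact ⟨h1, h3⟩
        · right; exact ⟨h1, h3⟩
      · rcases h2 with h2 | h2
        · have h4 : y - a0 ∈ D ∨ a0 + y ∈ S := by
            by_contra h5
            exact h2 ⟨fun h6 => absurd h6 h5, fun h6 => absurd h6 hB⟩
          rcases h4 with h4 | h4
          · left; exact ⟨h1, h4⟩
          · right; exact ⟨h1, h4⟩
        · left; exact ⟨h1, h2.1⟩
    · rcases h a0 ha0 y h1 with h3 | h3
      · left; exact ⟨h2, h3⟩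
      · right; exact ⟨h2, h3⟩
  have e2 : (Exc B D S a0 b0 b1) ∩ B' ⊆ P1 ∩ P2 := by
    intro y hy
    simp only [hP1, hP2, hB', Exc, Finset.mem_inter, Finset.mem_filter, Finset.mem_Icc] at hy ⊢
    obtain ⟨⟨h1, h2⟩, h3, h4⟩ := hy
    rcases h2 with h2 | h2
    · exact absurd ⟨fun _ => h3, fun _ => h a0 ha0 y h3⟩ h2
    · exact ⟨⟨h1, h2.1⟩, h1, h2.2⟩
  have c1 := Finset.card_le_card e1
  have c2 := Finset.card_le_card e2
  have c3 := Finset.card_union_add_card_inter (Exc B D S a0 b0 b1) B'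
  have c4 := Finset.card_union_add_card_inter P1 P2
  have c5 : P1.card ≤ (D.filter (fun d => b0 - a0 ≤ d ∧ d ≤ b1 - a0)).card := by
    apply Finset.card_le_card_of_injOn (fun y => y - a0)
    · intro y hy
      have hy' : y ∈ P1 := hy
      simp only [hP1, Finset.mem_filter, Finset.mem_Icc] at hy'
      simp only [Finset.coe_filter, Set.mem_ofPred_eq]
      refine ⟨hy'.2, ?_, ?_⟩ <;> omega
    · intro y _ z _ hyz
      simpa using hyz
  have c6 : P2.card ≤ (S.filter (fun s => a0 + b0 ≤ s ∧ s ≤ a0 + b1)).card := by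
    apply Finset.card_le_card_of_injOn (fun y => a0 + y)
    · intro y hy
      have hy' : y ∈ P2 := hy
      simp only [hP2, Finset.mem_filter, Finset.mem_Icc] at hy'
      simp only [Finset.coe_filter, Set.mem_ofPred_eq]
      refine ⟨hy'.2, ?_, ?_⟩ <;> omega
    · intro y _ z _ hyz
      simpa using hyz
  omega

theorem Border_column {A B D S : Finset ℤ} (h : Cov A B D S) {a b0 b1 : ℤ} (ha : a ∈ A) :
    (B.filter (fun b => b0 ≤ b ∧ b ≤ b1)).card
    ≤ (D.filter (fun d => b0 - a ≤ d ∧ d ≤ b1 - a)).card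
      + (S.filter (fun s => a + b0 ≤ s ∧ s ≤ a + b1)).card := by
  have := Border_left h (b0 := b0) (b1 := b1) ha
  omega

theorem Border_row {A B D S : Finset ℤ} (h : Cov A B D S) {b a0 a1 : ℤ} (hb : b ∈ B) :
    (A.filter (fun a => a0 ≤ a ∧ a ≤ a1)).card
    ≤ (D.filter (fun d => b - a1 ≤ d ∧ d ≤ b - a0)).card
      + (S.filter (fun s => a0 + b ≤ s ∧ s ≤ a1 + b)).card := by
  apply Border_side (f := fun a => b - a) (g := fun a => a + b)
  · intro x y hxy
    have : b - x = b - y := hxy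
    omega
  · intro x y hxy
    have : x + b = y + b := hxy
    omega
  · intro y hy
    simp only [Finset.mem_filter] at hy
    rcases h y hy.1 b hb with h3 | h3
    · left
      refine ⟨h3, ?_, ?_⟩ <;> omega
    · right
      refine ⟨h3, ?_, ?_⟩ <;> omega

theorem Border_sum_eq_le (D : Finset ℤ) (c : ℤ) : ∑ d ∈ D, (if d = c then 1 else 0) ≤ 1 := by
  rw [Finset.sum_ite_eq']
  split_ifs <;> omega

theorem Border_lines (D : Finset ℤ) {p q x y : ℤ} (hL : p ≤ x) (hL' : x ≤ q)
    (hR : p ≤ y) (hR' : y ≤ q) :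
    (D.filter (fun d => x ≤ d ∧ d ≤ q)).card + (D.filter (fun d => p ≤ d ∧ d ≤ y)).card
      + (D.filter (fun d => p ≤ d ∧ d ≤ x)).card + (D.filter (fun d => y ≤ d ∧ d ≤ q)).card
    ≤ 2 * (D.filter (fun d => p ≤ d ∧ d ≤ q)).card + 2 := by
  have key : ∑ d ∈ D, ((if x ≤ d ∧ d ≤ q then 1 else 0) + (if p ≤ d ∧ d ≤ y then 1 else 0)
      + (if p ≤ d ∧ d ≤ x then 1 else 0) + (if y ≤ d ∧ d ≤ q then 1 else 0))
      ≤ ∑ d ∈ D, (2 * (if p ≤ d ∧ d ≤ q then 1 else 0) + (if d = x then 1 else 0)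
        + (if d = y then 1 else 0)) := by
    apply Finset.sum_le_sum
    intro d _
    by_cases h1 : p ≤ d ∧ d ≤ q
    · obtain ⟨h2, h3⟩ := h1
      simp only [h2, h3, and_self, and_true, true_and, if_true]
      rcases lt_trichotomy d x with h4 | h4 | h4 <;> rcases lt_trichotomy d y with h5 | h5 | h5
      all_goals
        split_ifs <;> omega
    · have n1 : ¬ (x ≤ d ∧ d ≤ q) := by omega
      have n2 : ¬ (p ≤ d ∧ d ≤ y) := by omega
      have n3 : ¬ (p ≤ d ∧ d ≤ x) := by omega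
      have n4 : ¬ (y ≤ d ∧ d ≤ q) := by omega
      simp only [h1, n1, n2, n3, n4, if_false]
      omega
  simp only [Finset.sum_add_distrib, ← Finset.mul_sum] at key
  simp only [Finset.card_filter]
  have e1 := Border_sum_eq_le D x
  have e2 := Border_sum_eq_le D y
  omega

theorem border_exc {A B D S : Finset ℤ} (h : Cov A B D S) {a0 a1 b0 b1 : ℤ}
    (ha0 : a0 ∈ A) (ha1 : a1 ∈ A) (hb0 : b0 ∈ B) (hb1 : b1 ∈ B) (h0 : a0 ≤ a1) (h1 : b0 ≤ b1) :
    (Exc B D S a0 b0 b1).card + 2 * (A.filter (fun a => a0 ≤ a ∧ a ≤ a1)).card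
      + 2 * (B.filter (fun b => b0 ≤ b ∧ b ≤ b1)).card
    ≤ 2 * (D.filter (fun d => b0 - a1 ≤ d ∧ d ≤ b1 - a0)).card
      + 2 * (S.filter (fun s => a0 + b0 ≤ s ∧ s ≤ a1 + b1)).card + 4 := by
  have l1 := Border_left h (b0 := b0) (b1 := b1) ha0
  have l2 := Border_column h (b0 := b0) (b1 := b1) ha1
  have l3 := Border_row h (a0 := a0) (a1 := a1) hb0
  have l4 := Border_row h (a0 := a0) (a1 := a1) hb1
  have d1 := Border_lines D (p := b0 - a1) (q := b1 - a0) (x := b0 - a0) (y := b1 - a1)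
    (by omega) (by omega) (by omega) (by omega)
  have d2 := Border_lines S (p := a0 + b0) (q := a1 + b1) (x := a1 + b0) (y := a0 + b1)
    (by omega) (by omega) (by omega) (by omega)
  omega

/-- Box inequality (no exceptional term), for arbitrary index boxes containing points. -/
theorem border_box {A B D S : Finset ℤ} (h : Cov A B D S) {u v p q : ℤ}
    (hA : (A.filter (fun a => u ≤ a ∧ a ≤ v)).Nonempty)
    (hB : (B.filter (fun b => p ≤ b ∧ b ≤ q)).Nonempty) :
    (A.filter (fun a => u ≤ a ∧ a ≤ v)).card + (B.filter (fun b => p ≤ b ∧ b ≤ q)).card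
    ≤ (D.filter (fun d => p - v ≤ d ∧ d ≤ q - u)).card
      + (S.filter (fun s => u + p ≤ s ∧ s ≤ v + q)).card + 2 := by
  obtain ⟨a0, ha0, ha0'⟩ := Finset.exists_min_image _ (fun a => a) hA
  obtain ⟨a1, ha1, ha1'⟩ := Finset.exists_max_image _ (fun a => a) hA
  obtain ⟨b0, hb0, hb0'⟩ := Finset.exists_min_image _ (fun a => a) hB
  obtain ⟨b1, hb1, hb1'⟩ := Finset.exists_max_image _ (fun a => a) hB
  have k1 := ha0' a1 ha1
  have k2 := hb0' b1 hb1
  rw [Finset.mem_filter] at ha0 ha1 hb0 hb1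
  have key := border_exc h ha0.1 ha1.1 hb0.1 hb1.1 k1 k2
  have c1 : (A.filter (fun a => u ≤ a ∧ a ≤ v)).card
      ≤ (A.filter (fun a => a0 ≤ a ∧ a ≤ a1)).card := by
    apply Finset.card_le_card
    intro a ha
    have h1 := ha0' a ha
    have h2 := ha1' a ha
    rw [Finset.mem_filter] at ha ⊢
    exact ⟨ha.1, h1, h2⟩
  have c2 : (B.filter (fun b => p ≤ b ∧ b ≤ q)).card
      ≤ (B.filter (fun b => b0 ≤ b ∧ b ≤ b1)).card := by
    apply Finset.card_le_card
    intro a ha
    have h1 := hb0' a ha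
    have h2 := hb1' a ha
    rw [Finset.mem_filter] at ha ⊢
    exact ⟨ha.1, h1, h2⟩
  have c3 : (D.filter (fun d => b0 - a1 ≤ d ∧ d ≤ b1 - a0)).card
      ≤ (D.filter (fun d => p - v ≤ d ∧ d ≤ q - u)).card := by
    apply Finset.card_le_card
    intro a ha
    rw [Finset.mem_filter] at ha ⊢
    exact ⟨ha.1, by omega, by omega⟩
  have c4 : (S.filter (fun s => a0 + b0 ≤ s ∧ s ≤ a1 + b1)).card
      ≤ (S.filter (fun s => u + p ≤ s ∧ s ≤ v + q)).card := by
    apply Finset.card_le_card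
    intro a ha
    rw [Finset.mem_filter] at ha ⊢
    exact ⟨ha.1, by omega, by omega⟩
  omega

theorem Border_exists_bounds {A : Finset ℤ} (hA : A.Nonempty) :
    ∃ u ∈ A, ∃ v ∈ A, u ≤ v ∧ ∀ a ∈ A, u ≤ a ∧ a ≤ v := by
  obtain ⟨a0, ha0, ha0'⟩ := Finset.exists_min_image _ (fun a => a) hA
  obtain ⟨a1, ha1, ha1'⟩ := Finset.exists_max_image _ (fun a => a) hA
  exact ⟨a0, ha0, a1, ha1, ha0' a1 ha1, fun a ha => ⟨ha0' a ha, ha1' a ha⟩⟩

/-- Whole sets version. -/
theorem border {A B D S : Finset ℤ} (h : Cov A B D S) (hA : A.Nonempty) (hB : B.Nonempty) :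
    A.card + B.card ≤ D.card + S.card + 2 := by
  obtain ⟨a0, ha0, a1, ha1, ha, ha'⟩ := Border_exists_bounds hA
  obtain ⟨b0, hb0, b1, hb1, hb, hb'⟩ := Border_exists_bounds hB
  have key := border_exc h ha0 ha1 hb0 hb1 ha hb
  rw [Finset.filter_true_of_mem ha', Finset.filter_true_of_mem hb'] at key
  have c1 := Finset.card_filter_le D (fun d => b0 - a1 ≤ d ∧ d ≤ b1 - a0)
  have c2 := Finset.card_filter_le S (fun s => a0 + b0 ≤ s ∧ s ≤ a1 + b1)
  omega

/-- Two end intervals and the middle one. -/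
theorem Border_mid_lines (D : Finset ℤ) {p x y q : ℤ} (hxy : y ≤ x) :
    (D.filter (fun d => x ≤ d ∧ d ≤ q)).card + (D.filter (fun d => p ≤ d ∧ d ≤ y)).card
      + (D.filter (fun d => y < d ∧ d < x)).card
    ≤ D.card + 1 := by
  have key : ∑ d ∈ D, ((if x ≤ d ∧ d ≤ q then 1 else 0) + (if p ≤ d ∧ d ≤ y then 1 else 0)
      + (if y < d ∧ d < x then 1 else 0))
      ≤ ∑ d ∈ D, (1 + (if d = x then 1 else 0)) := by
    apply Finset.sum_le_sum
    intro d _
    rcases lt_trichotomy d x with h4 | h4 | h4 <;> rcases lt_trichotomy d y with h5 | h5 | h5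
    all_goals
      split_ifs <;> omega
  simp only [Finset.sum_add_distrib, Finset.sum_const, smul_eq_mul, mul_one] at key
  simp only [Finset.card_filter]
  have e1 := Border_sum_eq_le D x
  omega

/-- Middle lines: if the box is at least as wide as high, the lines that miss both vertical sides. -/
theorem middle {A B D S : Finset ℤ} (h : Cov A B D S) {a0 a1 b0 b1 : ℤ}
    (ha0 : a0 ∈ A) (ha1 : a1 ∈ A) (h0 : a0 ≤ a1) (h1 : b0 ≤ b1) (hw : b1 - b0 ≤ a1 - a0) :
    (D.filter (fun d => b1 - a1 < d ∧ d < b0 - a0)).card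
      + (S.filter (fun s => a0 + b1 < s ∧ s < a1 + b0)).card
      + 2 * (B.filter (fun b => b0 ≤ b ∧ b ≤ b1)).card
    ≤ D.card + S.card + 2 := by
  have l1 := Border_column h (b0 := b0) (b1 := b1) ha0
  have l2 := Border_column h (b0 := b0) (b1 := b1) ha1
  have d1 := Border_mid_lines D (p := b0 - a1) (x := b0 - a0) (y := b1 - a1) (q := b1 - a0)
    (by omega)
  have d2 := Border_mid_lines S (p := a0 + b0) (x := a1 + b0) (y := a0 + b1) (q := a1 + b1)
    (by omega)
  omega

/-! ### Consequences for `Conf` -/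

theorem Border_nonempty {N : ℤ} {A : Finset ℤ} (hN : 2 ≤ N) (h : N - 1 ≤ (A.card : ℤ)) :
    A.Nonempty := by
  rw [← Finset.card_pos]
  omega

theorem Conf.card_D {N : ℤ} {A B D S : Finset ℤ} (h : Conf N A B D S) (hN : 2 ≤ N) :
    N - 5 ≤ (D.card : ℤ) := by
  have key := border h.cov (Border_nonempty hN h.cA) (Border_nonempty hN h.cB)
  have h1 := h.cA
  have h2 := h.cB
  have h3 := h.cD
  have h4 := h.cS
  omega

theorem Conf.card_S {N : ℤ} {A B D S : Finset ℤ} (h : Conf N A B D S) (hN : 2 ≤ N) :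
    N - 5 ≤ (S.card : ℤ) := by
  have key := border h.cov (Border_nonempty hN h.cA) (Border_nonempty hN h.cB)
  have h1 := h.cA
  have h2 := h.cB
  have h3 := h.cD
  have h4 := h.cS
  omega

theorem Conf.card_A {N : ℤ} {A B D S : Finset ℤ} (h : Conf N A B D S) (hN : 2 ≤ N) :
    (A.card : ℤ) ≤ N + 5 := by
  have key := border h.cov (Border_nonempty hN h.cA) (Border_nonempty hN h.cB)
  have h1 := h.cA
  have h2 := h.cB
  have h3 := h.cD
  have h4 := h.cS
  omega

theorem Conf.card_B {N : ℤ} {A B D S : Finset ℤ} (h : Conf N A B D S) (hN : 2 ≤ N) :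
    (B.card : ℤ) ≤ N + 5 := by
  have key := border h.cov (Border_nonempty hN h.cA) (Border_nonempty hN h.cB)
  have h1 := h.cA
  have h2 := h.cB
  have h3 := h.cD
  have h4 := h.cS
  omega

theorem Border_card_split (A : Finset ℤ) (u v : ℤ) :
    (A.filter (fun a => u ≤ a ∧ a ≤ v)).card + (A.filter (fun a => a < u ∨ v < a)).card
      = A.card := by
  rw [← Finset.card_filter_add_card_filter_not (s := A) (fun a => u ≤ a ∧ a ≤ v)]
  congr 2
  apply Finset.filter_congr
  intro a _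
  omega

/-- Exceptional rows of a column `x`, in a window `[b0,b1]` of rows. -/
theorem Conf.exc_le {N : ℤ} {A B D S : Finset ℤ} (h : Conf N A B D S) {x b0 b1 : ℤ}
    (hx : x ∈ A) (hb0 : b0 ∈ B) (hb1 : b1 ∈ B) (hb : b0 ≤ b1) :
    (Exc B D S x b0 b1).card ≤ 12 + 2 * (A.filter (fun a => a < x)).card
      + 2 * (B.filter (fun b => b < b0 ∨ b1 < b)).card := by
  obtain ⟨a0, ha0, a1, ha1, ha, ha'⟩ := Border_exists_bounds ⟨x, hx⟩
  have key := border_exc h.cov hx ha1 hb0 hb1 (ha' x hx).2 hb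
  have c1 := Finset.card_filter_le D (fun d => b0 - a1 ≤ d ∧ d ≤ b1 - x)
  have c2 := Finset.card_filter_le S (fun s => x + b0 ≤ s ∧ s ≤ a1 + b1)
  have c3 := Border_card_split B b0 b1
  have c4 := Border_card_split A x a1
  have c5 : A.filter (fun a => a < x ∨ a1 < a) = A.filter (fun a => a < x) := by
    apply Finset.filter_congr
    intro a haa
    have := (ha' a haa).2
    omega
  rw [c5] at c4
  have h1 := h.cA
  have h2 := h.cB
  have h3 := h.cD
  have h4 := h.cS
  omega

/-- Lines missing the box `[u,v] x [p,q]`. -/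
theorem Conf.out_le {N : ℤ} {A B D S : Finset ℤ} (h : Conf N A B D S) {u v p q : ℤ}
    (hA : (A.filter (fun a => u ≤ a ∧ a ≤ v)).Nonempty)
    (hB : (B.filter (fun b => p ≤ b ∧ b ≤ q)).Nonempty) :
    (D.filter (fun d => d < p - v ∨ q - u < d)).card
      + (S.filter (fun s => s < u + p ∨ v + q < s)).card
    ≤ 6 + (A.filter (fun a => a < u ∨ v < a)).card + (B.filter (fun b => b < p ∨ q < b)).card := by
  have key := border_box h.cov hA hB
  have c1 := Border_card_split A u v
  have c2 := Border_card_split B p q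
  have c3 := Border_card_split D (p - v) (q - u)
  have c4 := Border_card_split S (u + p) (v + q)
  have h1 := h.cA
  have h2 := h.cB
  have h3 := h.cD
  have h4 := h.cS
  omega

/-- Middle lines for a configuration. -/
theorem Conf.mid_le {N : ℤ} {A B D S : Finset ℤ} (h : Conf N A B D S) {a0 a1 b0 b1 : ℤ}
    (ha0 : a0 ∈ A) (ha1 : a1 ∈ A) (h0 : a0 ≤ a1) (h1 : b0 ≤ b1) (hw : b1 - b0 ≤ a1 - a0) :
    (D.filter (fun d => b1 - a1 < d ∧ d < b0 - a0)).card
      + (S.filter (fun s => a0 + b1 < s ∧ s < a1 + b0)).card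
    ≤ 6 + 2 * (B.filter (fun b => b < b0 ∨ b1 < b)).card := by
  have key := middle h.cov ha0 ha1 h0 h1 hw
  have c2 := Border_card_split B b0 b1
  have g1 := h.cA
  have g2 := h.cB
  have g3 := h.cD
  have g4 := h.cS
  omega

end Pool.Agent.MP_f71fe7
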