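import Pool.Agent.MP_f71fe7.Border

/-!
Independent dominating sets of at most `N + 1` queens on the `2N x 2N` board, as sets of integer
points, and the covering configuration of empty columns, empty rows, differences and sums.
-/

set_option autoImplicit false

open scoped Pointwise

namespace Pool.Agent.MP_f71fe7

structure QC (N : ℤ) (Q : Finset (ℤ × ℤ)) : Prop where
  inb : ∀ p ∈ Q, 0 ≤ p.1 ∧ p.1 < 2 * N ∧ 0 ≤ p.2 ∧ p.2 < 2 * N
  indep : ∀ p ∈ Q, ∀ q ∈ Q, p ≠ q →
    p.1 ≠ q.1 ∧ p.2 ≠ q.2 ∧ p.1 + p.2 ≠ q.1 + q.2 ∧ p.2 - p.1 ≠ q.2 - q.1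
  dom : ∀ x y : ℤ, 0 ≤ x → x < 2 * N → 0 ≤ y → y < 2 * N →
    ∃ q ∈ Q, x = q.1 ∨ y = q.2 ∨ x + y = q.1 + q.2 ∨ y - x = q.2 - q.1
  card : (Q.card : ℤ) ≤ N + 1

/-- Empty columns. -/
noncomputable def eA (N : ℤ) (Q : Finset (ℤ × ℤ)) : Finset ℤ :=
  Finset.Ico 0 (2 * N) \ Q.image Prod.fst

/-- Empty rows. -/
noncomputable def eB (N : ℤ) (Q : Finset (ℤ × ℤ)) : Finset ℤ :=
  Finset.Ico 0 (2 * N) \ Q.image Prod.snd

/-- Occupied difference lines. -/
noncomputable def dD (Q : Finset (ℤ × ℤ)) : Finset ℤ := Q.image (fun p => p.2 - p.1)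

/-- Occupied sum lines. -/
noncomputable def sS (Q : Finset (ℤ × ℤ)) : Finset ℤ := Q.image (fun p => p.1 + p.2)

theorem QC.card_dD {N : ℤ} {Q : Finset (ℤ × ℤ)} (h : QC N Q) : (dD Q).card = Q.card := by
  refine Finset.card_image_of_injOn ?_
  intro p hp q hq hpq
  by_contra hne
  exact (h.indep p hp q hq hne).2.2.2 hpq

theorem QC.card_sS {N : ℤ} {Q : Finset (ℤ × ℤ)} (h : QC N Q) : (sS Q).card = Q.card := by
  refine Finset.card_image_of_injOn ?_
  intro p hp q hq hpq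
  by_contra hne
  exact (h.indep p hp q hq hne).2.2.1 hpq

theorem QC.card_eA {N : ℤ} {Q : Finset (ℤ × ℤ)} (h : QC N Q) (hN : 0 ≤ N) :
    ((eA N Q).card : ℤ) = 2 * N - Q.card := by
  have h1 : (Q.image Prod.fst).card = Q.card := by
    refine Finset.card_image_of_injOn ?_
    intro p hp q hq hpq
    by_contra hne
    exact (h.indep p hp q hq hne).1 hpq
  have h2 : Q.image Prod.fst ⊆ Finset.Ico 0 (2 * N) := by
    intro a ha
    obtain ⟨p, hp, rfl⟩ := Finset.mem_image.1 ha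
    have := h.inb p hp
    exact Finset.mem_Ico.2 ⟨this.1, this.2.1⟩
  have h3 := Finset.card_sdiff_add_card_eq_card h2
  rw [h1, Int.card_Ico] at h3
  show ((Finset.Ico 0 (2 * N) \ Q.image Prod.fst).card : ℤ) = 2 * N - Q.card
  omega

theorem QC.card_eB {N : ℤ} {Q : Finset (ℤ × ℤ)} (h : QC N Q) (hN : 0 ≤ N) :
    ((eB N Q).card : ℤ) = 2 * N - Q.card := by
  have h1 : (Q.image Prod.snd).card = Q.card := by
    refine Finset.card_image_of_injOn ?_
    intro p hp q hq hpq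
    by_contra hne
    exact (h.indep p hp q hq hne).2.1 hpq
  have h2 : Q.image Prod.snd ⊆ Finset.Ico 0 (2 * N) := by
    intro a ha
    obtain ⟨p, hp, rfl⟩ := Finset.mem_image.1 ha
    have := h.inb p hp
    exact Finset.mem_Ico.2 ⟨this.2.2.1, this.2.2.2⟩
  have h3 := Finset.card_sdiff_add_card_eq_card h2
  rw [h1, Int.card_Ico] at h3
  show ((Finset.Ico 0 (2 * N) \ Q.image Prod.snd).card : ℤ) = 2 * N - Q.card
  omega

theorem QC.conf {N : ℤ} {Q : Finset (ℤ × ℤ)} (h : QC N Q) (hN : 0 ≤ N) :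
    Conf N (eA N Q) (eB N Q) (dD Q) (sS Q) := by
  constructor
  · intro a ha b hb
    obtain ⟨ha1, ha2⟩ := Finset.mem_sdiff.1 ha
    obtain ⟨hb1, hb2⟩ := Finset.mem_sdiff.1 hb
    rw [Finset.mem_Ico] at ha1 hb1
    obtain ⟨q, hq, h1 | h1 | h1 | h1⟩ := h.dom a b ha1.1 ha1.2 hb1.1 hb1.2
    · exact absurd (Finset.mem_image.2 ⟨q, hq, h1.symm⟩) ha2
    · exact absurd (Finset.mem_image.2 ⟨q, hq, h1.symm⟩) hb2
    · exact Or.inr (Finset.mem_image.2 ⟨q, hq, h1.symm⟩)
    · exact Or.inl (Finset.mem_image.2 ⟨q, hq, h1.symm⟩)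
  · rw [h.card_eA hN]
    have := h.card
    linarith
  · rw [h.card_eB hN]
    have := h.card
    linarith
  · rw [h.card_dD]
    exact h.card
  · rw [h.card_sS]
    exact h.card
  · intro a ha a' ha'
    have h1 := (Finset.mem_sdiff.1 ha).1
    have h2 := (Finset.mem_sdiff.1 ha').1
    rw [Finset.mem_Ico] at h1 h2
    linarith [h1.1, h2.2]
  · intro a ha a' ha'
    have h1 := (Finset.mem_sdiff.1 ha).1
    have h2 := (Finset.mem_sdiff.1 ha').1
    rw [Finset.mem_Ico] at h1 h2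
    linarith [h1.1, h2.2]

/-- At least `N` queens (Spencer's bound). -/
theorem QC.card_ge {N : ℤ} {Q : Finset (ℤ × ℤ)} (h : QC N Q) (hN : 2 ≤ N) : N ≤ (Q.card : ℤ) := by
  by_contra hcon
  push Not at hcon
  have hA := h.card_eA (by linarith)
  have hB := h.card_eB (by linarith)
  have hAne : (eA N Q).Nonempty := by
    rw [← Finset.card_pos]
    have : (0 : ℤ) < (eA N Q).card := by
      rw [hA]
      linarith
    exact_mod_cast this
  have hBne : (eB N Q).Nonempty := by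
    rw [← Finset.card_pos]
    have : (0 : ℤ) < (eB N Q).card := by
      rw [hB]
      linarith
    exact_mod_cast this
  have h1 := border (h.conf (by linarith)).cov hAne hBne
  rw [h.card_dD, h.card_sS] at h1
  omega

/-- Differences and sums have the same parity at each queen. -/
theorem QC.parity {N : ℤ} {Q : Finset (ℤ × ℤ)} (h : QC N Q) (r : ℤ) :
    (cls (dD Q) 2 r).card = (cls (sS Q) 2 r).card := by
  have h1 : cls (dD Q) 2 r
      = (Q.filter (fun p => (2 : ℤ) ∣ p.2 - p.1 - r)).image (fun p => p.2 - p.1) := by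
    ext d
    simp only [cls, dD, Finset.mem_filter, Finset.mem_image]
    constructor
    · rintro ⟨⟨p, hp, rfl⟩, h2⟩
      exact ⟨p, ⟨hp, h2⟩, rfl⟩
    · rintro ⟨p, ⟨hp, h2⟩, rfl⟩
      exact ⟨⟨p, hp, rfl⟩, h2⟩
  have h2 : cls (sS Q) 2 r
      = (Q.filter (fun p => (2 : ℤ) ∣ p.2 - p.1 - r)).image (fun p => p.1 + p.2) := by
    ext d
    simp only [cls, sS, Finset.mem_filter, Finset.mem_image]
    constructor
    · rintro ⟨⟨p, hp, rfl⟩, h2⟩
      exact ⟨p, ⟨hp, by omega⟩, rfl⟩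
    · rintro ⟨p, ⟨hp, h2⟩, rfl⟩
      exact ⟨⟨p, hp, rfl⟩, by omega⟩
  rw [h1, h2, Finset.card_image_of_injOn, Finset.card_image_of_injOn]
  · intro p hp q hq hpq
    by_contra hne
    exact (h.indep p (Finset.mem_filter.1 hp).1 q (Finset.mem_filter.1 hq).1 hne).2.2.1 hpq
  · intro p hp q hq hpq
    by_contra hne
    exact (h.indep p (Finset.mem_filter.1 hp).1 q (Finset.mem_filter.1 hq).1 hne).2.2.2 hpq

/-- Mirror image of the board. -/
theorem QC.mirror {N : ℤ} {Q : Finset (ℤ × ℤ)} (h : QC N Q) :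
    QC N (Q.image (fun p => (2 * N - 1 - p.1, p.2))) := by
  constructor
  · intro p hp
    obtain ⟨p, hp', rfl⟩ := Finset.mem_image.1 hp
    have := h.inb p hp'
    simp only
    refine ⟨?_, ?_, ?_, ?_⟩ <;> linarith [this.1, this.2.1, this.2.2.1, this.2.2.2]
  · intro p hp q hq hpq
    obtain ⟨p, hp', rfl⟩ := Finset.mem_image.1 hp
    obtain ⟨q, hq', rfl⟩ := Finset.mem_image.1 hq
    have hne : p ≠ q := fun h0 => hpq (by rw [h0])
    obtain ⟨h1, h2, h3, h4⟩ := h.indep p hp' q hq' hne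
    simp only
    refine ⟨fun h0 => h1 (by linarith), h2, fun h0 => h4 (by linarith), fun h0 => h3 (by linarith)⟩
  · intro x y hx1 hx2 hy1 hy2
    obtain ⟨q, hq, h1⟩ := h.dom (2 * N - 1 - x) y (by linarith) (by linarith) hy1 hy2
    refine ⟨_, Finset.mem_image.2 ⟨q, hq, rfl⟩, ?_⟩
    simp only
    rcases h1 with h1 | h1 | h1 | h1
    · left
      linarith
    · right
      left
      exact h1
    · right
      right
      right
      linarith
    · right
      right
      left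
      linarith
  · refine le_trans ?_ h.card
    exact_mod_cast Finset.card_image_le

theorem QC.swap {N : ℤ} {Q : Finset (ℤ × ℤ)} (h : QC N Q) :
    QC N (Q.image (fun p => (p.2, p.1))) := by
  constructor
  · intro p hp
    obtain ⟨p, hp', rfl⟩ := Finset.mem_image.1 hp
    have := h.inb p hp'
    exact ⟨this.2.2.1, this.2.2.2, this.1, this.2.1⟩
  · intro p hp q hq hpq
    obtain ⟨p, hp', rfl⟩ := Finset.mem_image.1 hp
    obtain ⟨q, hq', rfl⟩ := Finset.mem_image.1 hq
    have hne : p ≠ q := fun h0 => hpq (by rw [h0])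
    obtain ⟨h1, h2, h3, h4⟩ := h.indep p hp' q hq' hne
    simp only
    refine ⟨h2, h1, fun h0 => h3 (by linarith), fun h0 => h4 (by linarith)⟩
  · intro x y hx1 hx2 hy1 hy2
    obtain ⟨q, hq, h1⟩ := h.dom y x hy1 hy2 hx1 hx2
    refine ⟨_, Finset.mem_image.2 ⟨q, hq, rfl⟩, ?_⟩
    simp only
    rcases h1 with h1 | h1 | h1 | h1
    · right
      left
      exact h1
    · left
      exact h1
    · right
      right
      left
      linarith
    · right
      right
      right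
      linarith
  · refine le_trans ?_ h.card
    exact_mod_cast Finset.card_image_le

theorem eA_mirror {N : ℤ} {Q : Finset (ℤ × ℤ)} {a : ℤ} :
    a ∈ eA N (Q.image (fun p => (2 * N - 1 - p.1, p.2))) ↔ 2 * N - 1 - a ∈ eA N Q := by
  simp only [eA, Finset.mem_sdiff, Finset.mem_Ico, Finset.mem_image]
  constructor
  · rintro ⟨h1, h2⟩
    refine ⟨⟨by linarith, by linarith⟩, ?_⟩
    rintro ⟨p, hp, h3⟩
    exact h2 ⟨_, ⟨p, hp, rfl⟩, by simp only; linarith⟩
  · rintro ⟨h1, h2⟩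
    refine ⟨⟨by linarith, by linarith⟩, ?_⟩
    rintro ⟨_, ⟨p, hp, rfl⟩, h3⟩
    exact h2 ⟨p, hp, by simp only at h3; linarith⟩

theorem eB_mirror {N : ℤ} {Q : Finset (ℤ × ℤ)} :
    eB N (Q.image (fun p => (2 * N - 1 - p.1, p.2))) = eB N Q := by
  simp only [eB, Finset.image_image]
  rfl

theorem eA_swap {N : ℤ} {Q : Finset (ℤ × ℤ)} :
    eA N (Q.image (fun p => (p.2, p.1))) = eB N Q := by
  simp only [eA, eB, Finset.image_image]
  rfl

theorem eB_swap {N : ℤ} {Q : Finset (ℤ × ℤ)} :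
    eB N (Q.image (fun p => (p.2, p.1))) = eA N Q := by
  simp only [eA, eB, Finset.image_image]
  rfl

end Pool.Agent.MP_f71fe7
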