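import Pool.Agent.MP_f71fe7.ClassesA
import Pool.Agent.MP_f71fe7.Queens

set_option autoImplicit false

open scoped Pointwise

namespace Pool.Agent.MP_f71fe7

/-- D8: if `A` lies in one class modulo `2` then so does `B`. -/
theorem parity_B {N : ℤ} {A B D S : Finset ℤ} (h : Conf N A B D S) (hN : 1000 ≤ N) {r : ℤ}
    (hA : ∀ a ∈ A, (2 : ℤ) ∣ a - r) : ∃ r' : ℤ, ∀ b ∈ B, (2 : ℤ) ∣ b - r' := by
  classical
  by_contra hcon
  push Not at hcon
  have hAne : A.Nonempty := by
    rw [← Finset.card_pos]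
    have := h.cA
    omega
  obtain ⟨b0, hb0, h0⟩ := hcon r
  obtain ⟨b1, hb1, h1⟩ := hcon (r + 1)
  have c0 : Cov A (B.filter (fun b => (2 : ℤ) ∣ b - r)) (D.filter (fun d => (2 : ℤ) ∣ d))
      (S.filter (fun s => (2 : ℤ) ∣ s)) := by
    intro a ha b hb
    rw [Finset.mem_filter] at hb
    have h2 := hA a ha
    rcases h.cov a ha b hb.1 with h3 | h3
    · left
      exact Finset.mem_filter.2 ⟨h3, by omega⟩
    · right
      exact Finset.mem_filter.2 ⟨h3, by omega⟩
  have c1 : Cov A (B.filter (fun b => ¬ (2 : ℤ) ∣ b - r)) (D.filter (fun d => ¬ (2 : ℤ) ∣ d))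
      (S.filter (fun s => ¬ (2 : ℤ) ∣ s)) := by
    intro a ha b hb
    rw [Finset.mem_filter] at hb
    have h2 := hA a ha
    rcases h.cov a ha b hb.1 with h3 | h3
    · left
      exact Finset.mem_filter.2 ⟨h3, by omega⟩
    · right
      exact Finset.mem_filter.2 ⟨h3, by omega⟩
  have e0 := border c0 hAne ⟨b1, Finset.mem_filter.2 ⟨hb1, by omega⟩⟩
  have e1 := border c1 hAne ⟨b0, Finset.mem_filter.2 ⟨hb0, h0⟩⟩
  have sB := Finset.card_filter_add_card_filter_not (s := B) (fun b => (2 : ℤ) ∣ b - r)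
  have sD := Finset.card_filter_add_card_filter_not (s := D) (fun d => (2 : ℤ) ∣ d)
  have sS := Finset.card_filter_add_card_filter_not (s := S) (fun s => (2 : ℤ) ∣ s)
  have g1 := h.cA
  have g2 := h.cB
  have g3 := h.cD
  have g4 := h.cS
  omega

/-- A set of integers of `[0, 2N)` in one residue class modulo `M`. -/
private theorem ClassesC_card_class {N : ℤ} (hN : 1 ≤ N) {M : ℤ} (hM : 0 < M) {U : Finset ℤ}
    (hU : ∀ a ∈ U, 0 ≤ a ∧ a < 2 * N) (hc : ∀ a ∈ U, ∀ b ∈ U, M ∣ a - b) :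
    M * (U.card : ℤ) ≤ 2 * N + M - 1 := by
  have h1 : U.card ≤ (Finset.Icc 0 ((2 * N - 1) / M)).card := by
    refine Finset.card_le_card_of_injOn (fun u => u / M) ?_ ?_
    · intro u hu
      have h2 := hU u hu
      simp only [Finset.coe_Icc, Set.mem_Icc]
      exact ⟨Int.ediv_nonneg h2.1 hM.le, Int.ediv_le_ediv hM (by linarith [h2.2])⟩
    · intro u hu v hv huv
      simp only at huv
      obtain ⟨t, ht⟩ := hc u hu v hv
      have h3 : u = v + M * t := by linarith
      rw [h3, Int.add_mul_ediv_left _ _ hM.ne'] at huv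
      have h4 : t = 0 := by linarith
      rw [h3, h4]
      ring
  rw [Int.card_Icc] at h1
  have h2 : M * ((2 * N - 1) / M) ≤ 2 * N - 1 := Int.mul_ediv_self_le hM.ne'
  have h3 : (0 : ℤ) ≤ (2 * N - 1) / M := Int.ediv_nonneg (by linarith) hM.le
  have h4 : (U.card : ℤ) ≤ (2 * N - 1) / M + 1 := by
    have : ((2 * N - 1) / M + 1 - 0).toNat = ((2 * N - 1) / M + 1).toNat := by simp
    omega
  nlinarith

private theorem ClassesC_eA {N : ℤ} {Q : Finset (ℤ × ℤ)} : ∀ a ∈ eA N Q, 0 ≤ a ∧ a < 2 * N := by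
  intro a ha
  exact Finset.mem_Ico.1 (Finset.mem_sdiff.1 ha).1

/-- the support has at least two elements -/
private theorem ClassesC_two_le {N : ℤ} {Q : Finset (ℤ × ℤ)} (h : QC N Q) (hN : 10000 ≤ N)
    (M : ℕ) (hM : 3 ≤ M) (hM' : M ≤ 4) : 2 ≤ (supp (eA N Q) M).card := by
  by_contra hcon
  have h1 : (supp (eA N Q) M).card ≤ 1 := by omega
  have h2 : ∀ a ∈ eA N Q, ∀ b ∈ eA N Q, (M : ℤ) ∣ a - b := by
    intro a ha b hb
    have h3 := Finset.card_le_one.1 h1 _ (Finset.mem_image_of_mem _ hb) _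
      (Finset.mem_image_of_mem _ ha)
    exact (ZMod.intCast_eq_intCast_iff_dvd_sub b a M).1 h3
  have h3 := ClassesC_card_class (N := N) (by linarith) (M := M) (by omega) ClassesC_eA h2
  have h4 := (h.conf (by linarith)).cA
  have h5 : (3 : ℤ) ≤ M := by exact_mod_cast hM
  have h6 : (M : ℤ) ≤ 4 := by exact_mod_cast hM'
  nlinarith

private theorem ClassesC_lt {A : Finset ℤ} (M : ℕ) [NeZero M] {r : ℤ}
    (hA : ∀ a ∈ A, ¬ ((M : ℤ) ∣ a - r)) : (supp A M).card < M := by
  have h1 : supp A M ⊆ Finset.univ.erase (r : ZMod M) := by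
    intro i hi
    obtain ⟨a, ha, rfl⟩ := Finset.mem_image.1 hi
    refine Finset.mem_erase.2 ⟨?_, Finset.mem_univ _⟩
    intro h0
    exact hA a ha ((ZMod.intCast_eq_intCast_iff_dvd_sub r a M).1 h0.symm)
  have h2 := Finset.card_le_card h1
  rw [Finset.card_erase_of_mem (Finset.mem_univ _), Finset.card_univ, ZMod.card] at h2
  have := NeZero.pos M
  omega

private theorem ClassesC_dec3 : ∀ I J : Finset (ZMod 3), I.card = 2 → J.card = 2 →
    ∃ k0 l0 : ZMod 3, (∀ k, I.image (fun i => i + k) = J → k = k0) ∧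
      (∀ l, I.image (fun i => l - i) = J → l = l0) := by
  decide +kernel

private theorem ClassesC_dec4 : ∀ I J : Finset (ZMod 4), I.card = J.card → 2 ≤ I.card →
    I.card < 4 →
    I.card ≤ (Finset.univ.filter (fun k : ZMod 4 => I.image (fun i => i + k) = J)).card
      + (Finset.univ.filter (fun l : ZMod 4 => I.image (fun i => l - i) = J)).card →
    I.card = 2 ∧ ((∃ i, I = {i, i + 2}) ∨
      ∃ k0 l0 : ZMod 4, (l0 = k0 + 1 ∨ l0 = k0 + 3) ∧
        (∀ k, I.image (fun i => i + k) = J → k = k0) ∧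
        (∀ l, I.image (fun i => l - i) = J → l = l0)) := by
  decide +kernel

/-- All but few queens lie on good lines. -/
private theorem ClassesC_good {N : ℤ} {Q : Finset (ℤ × ℤ)} (h : QC N Q) (P R : ℤ → Prop)
    [DecidablePred P] [DecidablePred R] :
    Q.card ≤ (Q.filter (fun p => ¬ P (p.2 - p.1) ∧ ¬ R (p.1 + p.2))).card
      + (((dD Q).filter P).card + ((sS Q).filter R).card) := by
  classical
  have h1 : (Q.filter (fun p => P (p.2 - p.1))).card ≤ ((dD Q).filter P).card := by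
    refine Finset.card_le_card_of_injOn (fun p => p.2 - p.1) ?_ ?_
    · intro p hp
      have hp' := Finset.mem_filter.1 hp
      exact Finset.mem_filter.2 ⟨Finset.mem_image_of_mem _ hp'.1, hp'.2⟩
    · intro p hp q hq hpq
      by_contra hne
      exact (h.indep p (Finset.mem_filter.1 hp).1 q (Finset.mem_filter.1 hq).1 hne).2.2.2 hpq
  have h2 : (Q.filter (fun p => R (p.1 + p.2))).card ≤ ((sS Q).filter R).card := by
    refine Finset.card_le_card_of_injOn (fun p => p.1 + p.2) ?_ ?_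
    · intro p hp
      have hp' := Finset.mem_filter.1 hp
      exact Finset.mem_filter.2 ⟨Finset.mem_image_of_mem _ hp'.1, hp'.2⟩
    · intro p hp q hq hpq
      by_contra hne
      exact (h.indep p (Finset.mem_filter.1 hp).1 q (Finset.mem_filter.1 hq).1 hne).2.2.1 hpq
  have h3 : Q ⊆ (Q.filter (fun p => ¬ P (p.2 - p.1) ∧ ¬ R (p.1 + p.2))) ∪
      ((Q.filter (fun p => P (p.2 - p.1))) ∪ (Q.filter (fun p => R (p.1 + p.2)))) := by
    intro p hp
    simp only [Finset.mem_union, Finset.mem_filter]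
    by_cases h4 : P (p.2 - p.1)
    · exact Or.inr (Or.inl ⟨hp, h4⟩)
    · by_cases h5 : R (p.1 + p.2)
      · exact Or.inr (Or.inr ⟨hp, h5⟩)
      · exact Or.inl ⟨hp, h4, h5⟩
  have h4 := Finset.card_le_card h3
  have h5 := Finset.card_union_le (Q.filter (fun p => ¬ P (p.2 - p.1) ∧ ¬ R (p.1 + p.2)))
    ((Q.filter (fun p => P (p.2 - p.1))) ∪ (Q.filter (fun p => R (p.1 + p.2))))
  have h6 := Finset.card_union_le (Q.filter (fun p => P (p.2 - p.1)))
    (Q.filter (fun p => R (p.1 + p.2)))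
  omega

/-- D9: modulus `3` is impossible. All but 16 elements of `D` and all but 16 of `S` lie in one class
modulo `3`, so all but 32 queens have their column in one class modulo `3`. -/
theorem not_mod3 {N : ℤ} {Q : Finset (ℤ × ℤ)} (h : QC N Q) (hN : 10000 ≤ N) {r : ℤ} :
    ¬ ∀ a ∈ eA N Q, ¬ ((3 : ℤ) ∣ a - r) := by
  intro hA
  have hc := h.conf (by linarith)
  have h1 := ClassesC_two_le h hN 3 le_rfl (by norm_num)
  have h2 : (supp (eA N Q) 3).card < 3 := ClassesC_lt 3 (r := r) (by exact_mod_cast hA)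
  have h3 : (supp (eA N Q) 3).card = 2 := by omega
  have h4 := supp_card_eq hc 3 (by norm_num; linarith)
  obtain ⟨k0, l0, hk, hl⟩ := ClassesC_dec3 (supp (eA N Q) 3) (supp (eB N Q) 3) h3 (by omega)
  have h5 := small_D hc 3 (by norm_num; linarith)
  rw [h3] at h5
  have h6 := ClassesC_good h
    (fun d : ℤ => (supp (eA N Q) 3).image (fun i => i + (d : ZMod 3)) ≠ supp (eB N Q) 3)
    (fun s : ℤ => (supp (eA N Q) 3).image (fun i => (s : ZMod 3) - i) ≠ supp (eB N Q) 3)
  set G := Q.filter (fun p =>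
    ¬ ((supp (eA N Q) 3).image (fun i => i + ((p.2 - p.1 : ℤ) : ZMod 3)) ≠ supp (eB N Q) 3) ∧
    ¬ ((supp (eA N Q) 3).image (fun i => ((p.1 + p.2 : ℤ) : ZMod 3) - i) ≠ supp (eB N Q) 3))
    with hG
  have h7 : 3 * ((G.image Prod.fst).card : ℤ) ≤ 2 * N + 3 - 1 := by
    refine ClassesC_card_class (by linarith) (by norm_num) ?_ ?_
    · intro a ha
      obtain ⟨p, hp, rfl⟩ := Finset.mem_image.1 ha
      have := h.inb p (Finset.mem_filter.1 hp).1
      exact ⟨this.1, this.2.1⟩
    · intro a ha b hb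
      obtain ⟨p, hp, rfl⟩ := Finset.mem_image.1 ha
      obtain ⟨q, hq, rfl⟩ := Finset.mem_image.1 hb
      obtain ⟨_, p1, p2⟩ := Finset.mem_filter.1 hp
      obtain ⟨_, q1, q2⟩ := Finset.mem_filter.1 hq
      rw [not_not] at p1 p2 q1 q2
      have e1 := (hk _ p1).trans (hk _ q1).symm
      have e2 := (hl _ p2).trans (hl _ q2).symm
      rw [ZMod.intCast_eq_intCast_iff_dvd_sub] at e1 e2
      push_cast at e1 e2
      omega
  have h8 : (G.image Prod.fst).card = G.card := by
    refine Finset.card_image_of_injOn ?_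
    intro p hp q hq hpq
    by_contra hne
    exact (h.indep p (Finset.mem_filter.1 hp).1 q (Finset.mem_filter.1 hq).1 hne).1 hpq
  rw [h8] at h7
  have h9 := h.card_ge (by linarith)
  omega

/-- D10: modulus `4` forces one parity class. With `w = |I| = |J| ∈ {2,3}` (size); `w = 3`
contradicts `supp_le`; `w = 2` with `I = {i, i+1}`: all but 16 elements of `D` are `k` mod `4`, all
but 16 of `S` are `l` mod `4` with `l - k` odd, contradicting `QC.parity`. -/
theorem mod4 {N : ℤ} {Q : Finset (ℤ × ℤ)} (h : QC N Q) (hN : 10000 ≤ N) {r : ℤ}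
    (hA : ∀ a ∈ eA N Q, ¬ ((4 : ℤ) ∣ a - r)) : ∃ r' : ℤ, ∀ a ∈ eA N Q, (2 : ℤ) ∣ a - r' := by
  have hc := h.conf (by linarith)
  have h1 := ClassesC_two_le h hN 4 (by norm_num) le_rfl
  have h2 : (supp (eA N Q) 4).card < 4 := ClassesC_lt 4 (r := r) (by exact_mod_cast hA)
  have h4 := supp_card_eq hc 4 (by norm_num; linarith)
  have h5 := supp_le hc 4 (by norm_num; linarith)
  obtain ⟨h3, h6⟩ := ClassesC_dec4 (supp (eA N Q) 4) (supp (eB N Q) 4) h4 h1 h2 h5
  rcases h6 with ⟨i, hi⟩ | ⟨k0, l0, hkl, hk, hl⟩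
  · obtain ⟨i, rfl⟩ := ZMod.intCast_surjective i
    refine ⟨i, fun a ha => ?_⟩
    have h7 : (a : ZMod 4) ∈ supp (eA N Q) 4 := Finset.mem_image_of_mem _ ha
    rw [hi, Finset.mem_insert, Finset.mem_singleton] at h7
    rcases h7 with h7 | h7
    · rw [eq_comm, ZMod.intCast_eq_intCast_iff_dvd_sub] at h7
      push_cast at h7
      omega
    · have h8 : (a : ZMod 4) = ((i + 2 : ℤ) : ZMod 4) := by
        push_cast
        exact h7
      rw [eq_comm, ZMod.intCast_eq_intCast_iff_dvd_sub] at h8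
      push_cast at h8
      omega
  · exfalso
    have h7 := small_D hc 4 (by norm_num; linarith)
    rw [h3] at h7
    obtain ⟨k, rfl⟩ := ZMod.intCast_surjective k0
    have hD : (dD Q) \ cls (dD Q) 2 k ⊆ (dD Q).filter
        (fun d : ℤ => (supp (eA N Q) 4).image (fun i => i + (d : ZMod 4)) ≠ supp (eB N Q) 4) := by
      intro d hd
      obtain ⟨hd1, hd2⟩ := Finset.mem_sdiff.1 hd
      refine Finset.mem_filter.2 ⟨hd1, fun h0 => hd2 ?_⟩
      have h8 := hk _ h0
      rw [eq_comm, ZMod.intCast_eq_intCast_iff_dvd_sub] at h8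
      push_cast at h8
      exact Finset.mem_filter.2 ⟨hd1, by omega⟩
    have hS : cls (sS Q) 2 k ⊆ (sS Q).filter
        (fun s : ℤ => (supp (eA N Q) 4).image (fun i => (s : ZMod 4) - i) ≠ supp (eB N Q) 4) := by
      intro s hs
      obtain ⟨hs1, hs2⟩ := Finset.mem_filter.1 hs
      refine Finset.mem_filter.2 ⟨hs1, fun h0 => ?_⟩
      have h8 := hl _ h0
      have h9 : (s : ZMod 4) = ((k + 1 : ℤ) : ZMod 4) ∨ (s : ZMod 4) = ((k + 3 : ℤ) : ZMod 4) := by
        push_cast
        rw [h8]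
        exact hkl
      rcases h9 with h9 | h9
      · rw [eq_comm, ZMod.intCast_eq_intCast_iff_dvd_sub] at h9
        push_cast at h9
        omega
      · rw [eq_comm, ZMod.intCast_eq_intCast_iff_dvd_sub] at h9
        push_cast at h9
        omega
    have e1 := Finset.card_le_card hD
    have e2 := Finset.card_le_card hS
    have e3 := h.parity k
    have e4 : ((dD Q) \ cls (dD Q) 2 k).card + (cls (dD Q) 2 k).card = (dD Q).card :=
      Finset.card_sdiff_add_card_eq_card (Finset.filter_subset _ _)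
    have e5 := h.card_dD
    have e6 := h.card_ge (by linarith)
    omega

end Pool.Agent.MP_f71fe7
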