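import Pool.Agent.MP_f71fe7.ClassesA

set_option autoImplicit false

open scoped Pointwise

namespace Pool.Agent.MP_f71fe7

private theorem classesD_sum (U : Finset ℤ) (M : ℕ) [NeZero M] :
    ∑ i : ZMod M, ((zc U M i).card : ℤ) = (U.card : ℤ) := by
  have h : U.card = ∑ i : ZMod M, (zc U M i).card :=
    Finset.card_eq_sum_card_fiberwise (f := fun u : ℤ => (u : ZMod M)) (t := Finset.univ)
      (fun _ _ => Finset.mem_coe.2 (Finset.mem_univ _))
  rw [h]
  push_cast
  rfl

private theorem classesD_sub_right {M : ℕ} [NeZero M] (g : ZMod M → ℤ) (i : ZMod M) :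
    ∑ j : ZMod M, g (j - i) = ∑ j : ZMod M, g j :=
  Equiv.sum_comp (Equiv.subRight i) g

private theorem classesD_sub_left {M : ℕ} [NeZero M] (g : ZMod M → ℤ) (i : ZMod M) :
    ∑ j : ZMod M, g (i - j) = ∑ j : ZMod M, g j :=
  Equiv.sum_comp (Equiv.subLeft i) g

private theorem classesD_add_left {M : ℕ} [NeZero M] (g : ZMod M → ℤ) (i : ZMod M) :
    ∑ j : ZMod M, g (i + j) = ∑ j : ZMod M, g j :=
  Equiv.sum_comp (Equiv.addLeft i) g

private theorem classesD_add_right {M : ℕ} [NeZero M] (g : ZMod M → ℤ) (i : ZMod M) :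
    ∑ j : ZMod M, g (j + i) = ∑ j : ZMod M, g j :=
  Equiv.sum_comp (Equiv.addRight i) g

/-- Numerical part of `sizes_AB`. -/
private theorem classesD_num {ι : Type*} [Fintype ι] [DecidableEq ι] (a : ι → ℤ) (M N A : ℤ)
    (hM : M = Fintype.card ι) (hM1 : 1 ≤ M) (hsum : ∑ i, a i = A) (hA : N - 1 ≤ A)
    (hup : ∀ i, M * a i ≤ N + 3 + 2 * M) (i : ι) : |M * a i - N| ≤ 10 * M ^ 2 := by
  have h1 : ∑ j ∈ Finset.univ.erase i, M * a j ≤ (M - 1) * (N + 3 + 2 * M) := by
    calc ∑ j ∈ Finset.univ.erase i, M * a j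
        ≤ ∑ _j ∈ Finset.univ.erase i, (N + 3 + 2 * M) := Finset.sum_le_sum (fun j _ => hup j)
      _ = (M - 1) * (N + 3 + 2 * M) := by
        rw [Finset.sum_const, nsmul_eq_mul, Finset.card_erase_of_mem (Finset.mem_univ i),
          Finset.card_univ, Nat.cast_sub (Fintype.card_pos_iff.2 ⟨i⟩), ← hM, Nat.cast_one]
  have h2 : M * a i + ∑ j ∈ Finset.univ.erase i, M * a j = M * A := by
    rw [Finset.add_sum_erase Finset.univ (fun j => M * a j) (Finset.mem_univ i), ← Finset.mul_sum,
      hsum]
  have h3 := hup i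
  have h4 : M * (N - 1) ≤ M * A := mul_le_mul_of_nonneg_left hA (by linarith)
  rw [abs_le]
  constructor <;> nlinarith

/-- Numerical part of `sizes_DS`. -/
private theorem classesD_num2 {ι : Type*} [Fintype ι] [DecidableEq ι] (d : ι → ℤ) (M N A : ℤ)
    (hM : M = Fintype.card ι) (hM1 : 1 ≤ M) (hsum : ∑ i, d i = A) (hA : A ≤ N + 1)
    (hlo : ∀ i, N - 5 - 3 * M ≤ M * d i) (i : ι) : |M * d i - N| ≤ 10 * M ^ 2 := by
  have h1 : (M - 1) * (N - 5 - 3 * M) ≤ ∑ j ∈ Finset.univ.erase i, M * d j := by
    calc (M - 1) * (N - 5 - 3 * M) = ∑ _j ∈ Finset.univ.erase i, (N - 5 - 3 * M) := by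
          rw [Finset.sum_const, nsmul_eq_mul, Finset.card_erase_of_mem (Finset.mem_univ i),
            Finset.card_univ, Nat.cast_sub (Fintype.card_pos_iff.2 ⟨i⟩), ← hM, Nat.cast_one]
      _ ≤ ∑ j ∈ Finset.univ.erase i, M * d j := Finset.sum_le_sum (fun j _ => hlo j)
  have h2 : M * d i + ∑ j ∈ Finset.univ.erase i, M * d j = M * A := by
    rw [Finset.add_sum_erase Finset.univ (fun j => M * d j) (Finset.mem_univ i), ← Finset.mul_sum,
      hsum]
  have h3 := hlo i
  have h4 : M * A ≤ M * (N + 1) := mul_le_mul_of_nonneg_left hA (by linarith)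
  rw [abs_le]
  constructor <;> nlinarith

/-- D11: all classes met: sizes of the classes of `A` and `B`. -/
theorem sizes_AB {N : ℤ} {A B D S : Finset ℤ} (h : Conf N A B D S) (M : ℕ) [NeZero M]
    (hN : 100 * (M : ℤ) ^ 2 ≤ N) (hI : supp A M = Finset.univ) (hJ : supp B M = Finset.univ)
    (i : ZMod M) :
    |(M : ℤ) * (zc A M i).card - N| ≤ 10 * (M : ℤ) ^ 2 ∧
    |(M : ℤ) * (zc B M i).card - N| ≤ 10 * (M : ℤ) ^ 2 := by
  have hM1 : (1 : ℤ) ≤ M := by
    have := NeZero.pos M
    exact_mod_cast this
  have hcard : (M : ℤ) = (Fintype.card (ZMod M) : ℤ) := by rw [ZMod.card]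
  have hb : ∀ i j : ZMod M, ((zc A M i).card : ℤ) + (zc B M j).card ≤
      (zc D M (j - i)).card + (zc S M (i + j)).card + 2 := by
    intro i j
    have := class_border h.cov M (i := i) (j := j) (by rw [hI]; exact Finset.mem_univ _)
      (by rw [hJ]; exact Finset.mem_univ _)
    exact_mod_cast this
  have cA := h.cA
  have cB := h.cB
  have cD := h.cD
  have cS := h.cS
  constructor
  · refine classesD_num (fun i => ((zc A M i).card : ℤ)) M N A.card hcard hM1
      (classesD_sum A M) cA ?_ i
    intro i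
    have h1 : ∑ j : ZMod M, (((zc A M i).card : ℤ) + (zc B M j).card) ≤
        ∑ j : ZMod M, (((zc D M (j - i)).card : ℤ) + (zc S M (i + j)).card + 2) :=
      Finset.sum_le_sum (fun j _ => hb i j)
    simp only [Finset.sum_add_distrib, Finset.sum_const, Finset.card_univ, ZMod.card,
      nsmul_eq_mul] at h1
    rw [classesD_sum B M, classesD_sub_right (fun j => ((zc D M j).card : ℤ)),
      classesD_add_left (fun j => ((zc S M j).card : ℤ)), classesD_sum D M,
      classesD_sum S M] at h1
    linarith
  · refine classesD_num (fun i => ((zc B M i).card : ℤ)) M N B.card hcard hM1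
      (classesD_sum B M) cB ?_ i
    intro j
    have h1 : ∑ i : ZMod M, (((zc A M i).card : ℤ) + (zc B M j).card) ≤
        ∑ i : ZMod M, (((zc D M (j - i)).card : ℤ) + (zc S M (i + j)).card + 2) :=
      Finset.sum_le_sum (fun i _ => hb i j)
    simp only [Finset.sum_add_distrib, Finset.sum_const, Finset.card_univ, ZMod.card,
      nsmul_eq_mul] at h1
    rw [classesD_sum A M, classesD_sub_left (fun i => ((zc D M i).card : ℤ)),
      classesD_add_right (fun i => ((zc S M i).card : ℤ)), classesD_sum D M,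
      classesD_sum S M] at h1
    linarith

/-- The equation `2 x = c` has at most two solutions modulo `M`. -/
private theorem classesD_two (M : ℕ) [NeZero M] (c : ZMod M) :
    (Finset.univ.filter (fun i : ZMod M => i + i = c)).card ≤ 2 := by
  classical
  rcases (Finset.univ.filter (fun i : ZMod M => i + i = c)).eq_empty_or_nonempty with h | ⟨x, hx⟩
  · rw [h]; simp
  · rw [Finset.mem_filter] at hx
    have h2 := IsAddCyclic.card_nsmul_eq_zero_le (α := ZMod M) (n := 2) (by norm_num)
    refine le_trans ?_ h2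
    apply Finset.card_le_card_of_injOn (fun i => i - x)
    · intro i hi
      rw [Finset.mem_coe, Finset.mem_filter] at hi ⊢
      refine ⟨Finset.mem_univ _, ?_⟩
      rw [two_nsmul]
      have : i - x + (i - x) = (i + i) - (x + x) := by ring
      rw [this, hi.2, hx.2, sub_self]
    · intro a _ b _ hab
      exact sub_left_injective hab

/-- The sum of the class sizes along a `2`-to-`1` map. -/
private theorem classesD_sum_two (U : Finset ℤ) (M : ℕ) [NeZero M] (r : ℤ)
    (f : ZMod M → ZMod M) (hf2 : ∀ c, (Finset.univ.filter (fun i : ZMod M => f i = c)).card ≤ 2)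
    (hfr : ∀ (i : ZMod M) (u : ℤ), (u : ZMod M) = f i → (2 : ℤ) ∣ u - r) :
    ∑ i : ZMod M, ((zc U M (f i)).card : ℤ) ≤ 2 * (cls U 2 r).card := by
  classical
  have h1 : ∑ i : ZMod M, (zc U M (f i)).card ≤ 2 * (cls U 2 r).card := by
    calc ∑ i : ZMod M, (zc U M (f i)).card
        = ∑ i : ZMod M, ∑ u ∈ U, (if (u : ZMod M) = f i then 1 else 0) := by
          apply Finset.sum_congr rfl
          intro i _
          rw [zc, Finset.card_filter]
      _ = ∑ u ∈ U, ∑ i : ZMod M, (if (u : ZMod M) = f i then 1 else 0) := Finset.sum_comm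
      _ ≤ ∑ u ∈ U, (if (2 : ℤ) ∣ u - r then 2 else 0) := by
          apply Finset.sum_le_sum
          intro u _
          by_cases hu : (2 : ℤ) ∣ u - r
          · rw [if_pos hu, ← Finset.card_filter]
            refine le_trans (le_of_eq ?_) (hf2 (u : ZMod M))
            congr 1
            ext x
            rw [Finset.mem_filter, Finset.mem_filter, eq_comm]
          · rw [if_neg hu]
            apply le_of_eq
            apply Finset.sum_eq_zero
            intro i _
            rw [if_neg]
            intro he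
            exact hu (hfr i u he)
      _ = 2 * (cls U 2 r).card := by
          rw [cls, Finset.card_filter, Finset.mul_sum]
          apply Finset.sum_congr rfl
          intro u _
          split_ifs <;> simp
  exact_mod_cast h1

/-- The classes `2 t + r`, `t < h`, modulo `2 h` are disjoint parts of the parity class of `r`. -/
private theorem classesD_half (U : Finset ℤ) (M h : ℕ) (hM : M = 2 * h) (r : ℤ) :
    ∑ t ∈ Finset.range h, (zc U M (((2 * (t : ℤ) + r : ℤ)) : ZMod M)).card ≤
      (cls U 2 r).card := by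
  classical
  rw [← Finset.card_biUnion]
  · apply Finset.card_le_card
    intro u hu
    rw [Finset.mem_biUnion] at hu
    obtain ⟨t, _, ht⟩ := hu
    rw [zc, Finset.mem_filter, ZMod.intCast_eq_intCast_iff] at ht
    rw [cls, Finset.mem_filter]
    refine ⟨ht.1, ?_⟩
    have h1 := ht.2.symm.dvd
    obtain ⟨k, hk⟩ := h1
    refine ⟨h * k + t, ?_⟩
    rw [hM] at hk
    push_cast at hk
    linarith
  · intro t ht t' ht' hne
    rw [Function.onFun, Finset.disjoint_left]
    intro u hu hu'
    rw [zc, Finset.mem_filter] at hu hu'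
    have h1 := hu.2.symm.trans hu'.2
    rw [ZMod.intCast_eq_intCast_iff] at h1
    obtain ⟨k, hk⟩ := h1.dvd
    rw [Finset.mem_coe, Finset.mem_range] at ht ht'
    rw [hM] at hk
    push_cast at hk
    have h2 : (t' : ℤ) - t = h * k := by linarith
    have h3 : k = 0 := by
      by_contra hk0
      have hh : (0 : ℤ) < h := by
        have : 0 < h := by omega
        exact_mod_cast this
      have ht1 : (t : ℤ) < h := by exact_mod_cast ht
      have ht2 : (t' : ℤ) < h := by exact_mod_cast ht'
      have ht3 : (0 : ℤ) ≤ t := Int.natCast_nonneg t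
      have ht4 : (0 : ℤ) ≤ t' := Int.natCast_nonneg t'
      rcases lt_or_gt_of_ne hk0 with hlt | hgt
      · have : (h : ℤ) * k ≤ h * (-1) := mul_le_mul_of_nonneg_left (by omega) hh.le
        linarith
      · have : (h : ℤ) * 1 ≤ h * k := mul_le_mul_of_nonneg_left (by omega) hh.le
        linarith
    rw [h3, mul_zero] at h2
    apply hne
    have : (t : ℤ) = t' := by linarith
    exact_mod_cast this

/-- D11: all classes met, `M` even, and `D`, `S` have equally many elements of each parity. -/
theorem sizes_DS {N : ℤ} {A B D S : Finset ℤ} (h : Conf N A B D S) (M : ℕ) [NeZero M]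
    (hM : 2 ∣ M) (hN : 100 * (M : ℤ) ^ 2 ≤ N) (hI : supp A M = Finset.univ)
    (hJ : supp B M = Finset.univ) (hpar : ∀ r : ℤ, (cls D 2 r).card = (cls S 2 r).card)
    (i : ZMod M) :
    |(M : ℤ) * (zc D M i).card - N| ≤ 10 * (M : ℤ) ^ 2 ∧
    |(M : ℤ) * (zc S M i).card - N| ≤ 10 * (M : ℤ) ^ 2 := by
  classical
  have hM1 : (1 : ℤ) ≤ M := by
    have := NeZero.pos M
    exact_mod_cast this
  have hcard : (M : ℤ) = (Fintype.card (ZMod M) : ℤ) := by rw [ZMod.card]
  have hb : ∀ i j : ZMod M, ((zc A M i).card : ℤ) + (zc B M j).card ≤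
      (zc D M (j - i)).card + (zc S M (i + j)).card + 2 := by
    intro i j
    have := class_border h.cov M (i := i) (j := j) (by rw [hI]; exact Finset.mem_univ _)
      (by rw [hJ]; exact Finset.mem_univ _)
    exact_mod_cast this
  have cA := h.cA
  have cB := h.cB
  have cD := h.cD
  have cS := h.cS
  -- parity of residues
  have hparity : ∀ (x : ZMod M) (u r : ℤ), (u : ZMod M) = x + x + (r : ZMod M) →
      (2 : ℤ) ∣ u - r := by
    intro x u r hu
    obtain ⟨y, rfl⟩ := ZMod.intCast_surjective x
    have h1 : (u : ZMod M) = ((y + y + r : ℤ) : ZMod M) := by rw [hu]; push_cast; ring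
    rw [ZMod.intCast_eq_intCast_iff] at h1
    have h2 : (M : ℤ) ∣ (y + y + r) - u := h1.dvd
    have h3 : (2 : ℤ) ∣ (M : ℤ) := by exact_mod_cast hM
    obtain ⟨c, hc⟩ := h3.trans h2
    exact ⟨y - c, by linarith⟩
  have hparity' : ∀ (x : ZMod M) (u r : ℤ), (u : ZMod M) = (r : ZMod M) - (x + x) →
      (2 : ℤ) ∣ u - r := by
    intro x u r hu
    apply hparity (-x) u r
    rw [hu]; ring
  -- the two lower bounds in terms of the parity classes
  have hD : ∀ r : ℤ, 2 * (N - 1) - 2 * ((cls S 2 r).card : ℤ) - 2 * M ≤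
      M * ((zc D M (r : ZMod M)).card : ℤ) := by
    intro r
    have h1 : ∑ i : ZMod M, (((zc A M i).card : ℤ) + (zc B M (i + (r : ZMod M))).card) ≤
        ∑ i : ZMod M, (((zc D M (r : ZMod M)).card : ℤ) +
          (zc S M (i + i + (r : ZMod M))).card + 2) := by
      apply Finset.sum_le_sum
      intro i _
      have := hb i (i + (r : ZMod M))
      rw [add_sub_cancel_left, ← add_assoc] at this
      exact this
    simp only [Finset.sum_add_distrib, Finset.sum_const, Finset.card_univ, ZMod.card,
      nsmul_eq_mul] at h1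
    rw [classesD_sum A M, classesD_add_right (fun j => ((zc B M j).card : ℤ)),
      classesD_sum B M] at h1
    have h2 := classesD_sum_two S M r (fun i => i + i + (r : ZMod M)) (by
      intro c
      refine le_trans (le_of_eq ?_) (classesD_two M (c - (r : ZMod M)))
      congr 1
      ext x
      rw [Finset.mem_filter, Finset.mem_filter, eq_sub_iff_add_eq]) (fun i u hu => hparity i u r hu)
    linarith
  have hS : ∀ r : ℤ, 2 * (N - 1) - 2 * ((cls D 2 r).card : ℤ) - 2 * M ≤
      M * ((zc S M (r : ZMod M)).card : ℤ) := by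
    intro r
    have h1 : ∑ i : ZMod M, (((zc A M i).card : ℤ) + (zc B M ((r : ZMod M) - i)).card) ≤
        ∑ i : ZMod M, (((zc D M ((r : ZMod M) - (i + i))).card : ℤ) +
          (zc S M (r : ZMod M)).card + 2) := by
      apply Finset.sum_le_sum
      intro i _
      have := hb i ((r : ZMod M) - i)
      rw [add_sub_cancel, sub_sub] at this
      exact this
    simp only [Finset.sum_add_distrib, Finset.sum_const, Finset.card_univ, ZMod.card,
      nsmul_eq_mul] at h1
    rw [classesD_sum A M, classesD_sub_left (fun j => ((zc B M j).card : ℤ)),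
      classesD_sum B M] at h1
    have h2 := classesD_sum_two D M r (fun i => (r : ZMod M) - (i + i)) (by
      intro c
      refine le_trans (le_of_eq ?_) (classesD_two M ((r : ZMod M) - c))
      congr 1
      ext x
      rw [Finset.mem_filter, Finset.mem_filter]
      constructor
      · rintro ⟨h1, h2⟩
        exact ⟨h1, by rw [← h2]; ring⟩
      · rintro ⟨h1, h2⟩
        exact ⟨h1, by rw [h2]; ring⟩) (fun i u hu => hparity' i u r hu)
    linarith
  obtain ⟨hh, hhM⟩ := hM
  have hhpos : (0 : ℤ) < hh := by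
    have : 0 < hh := by
      rcases Nat.eq_zero_or_pos hh with h0 | h0
      · rw [h0] at hhM
        have := NeZero.pos M
        omega
      · exact h0
    exact_mod_cast this
  have hMh : (M : ℤ) = 2 * hh := by rw [hhM]; push_cast; ring
  -- lower bound for the parity classes
  have hm : ∀ r : ℤ, N - 1 - M ≤ 2 * ((cls S 2 r).card : ℤ) := by
    intro r
    have h1 : ∑ t ∈ Finset.range hh, (2 * (N - 1) - 2 * ((cls S 2 r).card : ℤ) - 2 * M) ≤
        ∑ t ∈ Finset.range hh,
          M * ((zc D M (((2 * (t : ℤ) + r : ℤ)) : ZMod M)).card : ℤ) := by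
      apply Finset.sum_le_sum
      intro t _
      have e : cls S 2 (2 * (t : ℤ) + r) = cls S 2 r := by
        ext u
        rw [cls, cls, Finset.mem_filter, Finset.mem_filter]
        have : u - (2 * (t : ℤ) + r) = u - r - 2 * t := by ring
        rw [this]
        constructor
        · rintro ⟨hu, c, hc⟩
          exact ⟨hu, c + t, by linarith⟩
        · rintro ⟨hu, c, hc⟩
          exact ⟨hu, c - t, by linarith⟩
      have := hD (2 * (t : ℤ) + r)
      rw [e] at this
      exact this
    rw [Finset.sum_const, Finset.card_range, nsmul_eq_mul, ← Finset.mul_sum] at h1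
    have h2 := classesD_half D M hh hhM r
    have h2' : ∑ t ∈ Finset.range hh, ((zc D M (((2 * (t : ℤ) + r : ℤ)) : ZMod M)).card : ℤ) ≤
        (cls D 2 r).card := by exact_mod_cast h2
    have h3 : (M : ℤ) * ∑ t ∈ Finset.range hh,
        ((zc D M (((2 * (t : ℤ) + r : ℤ)) : ZMod M)).card : ℤ) ≤ M * (cls D 2 r).card :=
      mul_le_mul_of_nonneg_left h2' (by linarith)
    rw [hpar r] at h3
    have h4 : (hh : ℤ) * (2 * (N - 1) - 2 * ((cls S 2 r).card : ℤ) - 2 * M) ≤
        hh * (2 * (cls S 2 r).card) := by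
      calc (hh : ℤ) * (2 * (N - 1) - 2 * ((cls S 2 r).card : ℤ) - 2 * M) ≤
          M * (cls S 2 r).card := h1.trans h3
        _ = hh * (2 * (cls S 2 r).card) := by rw [hMh]; ring
    have h5 := le_of_mul_le_mul_left h4 hhpos
    linarith
  -- upper bound
  have hm2 : ∀ r : ℤ, 2 * ((cls S 2 r).card : ℤ) ≤ N + 3 + M := by
    intro r
    have h1 := hm (r + 1)
    have h2 : (cls S 2 r).card + (cls S 2 (r + 1)).card ≤ S.card := by
      rw [← Finset.card_union_of_disjoint]
      · apply Finset.card_le_card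
        intro u hu
        rw [Finset.mem_union, cls, cls, Finset.mem_filter, Finset.mem_filter] at hu
        rcases hu with hu | hu
        · exact hu.1
        · exact hu.1
      · rw [Finset.disjoint_left]
        intro u hu hu'
        rw [cls, Finset.mem_filter] at hu hu'
        obtain ⟨_, c, hc⟩ := hu
        obtain ⟨_, c', hc'⟩ := hu'
        omega
    have h2' : ((cls S 2 r).card : ℤ) + (cls S 2 (r + 1)).card ≤ S.card := by exact_mod_cast h2
    linarith
  have lowD : ∀ k : ZMod M, N - 5 - 3 * M ≤ M * ((zc D M k).card : ℤ) := by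
    intro k
    obtain ⟨r, rfl⟩ := ZMod.intCast_surjective k
    have h1 := hD r
    have h2 := hm2 r
    linarith
  have lowS : ∀ k : ZMod M, N - 5 - 3 * M ≤ M * ((zc S M k).card : ℤ) := by
    intro k
    obtain ⟨r, rfl⟩ := ZMod.intCast_surjective k
    have h1 := hS r
    have h2 := hm2 r
    rw [hpar r] at h1
    linarith
  exact ⟨classesD_num2 (fun i => ((zc D M i).card : ℤ)) M N D.card hcard hM1 (classesD_sum D M)
      cD lowD i,
    classesD_num2 (fun i => ((zc S M i).card : ℤ)) M N S.card hcard hM1 (classesD_sum S M)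
      cS lowS i⟩

end Pool.Agent.MP_f71fe7
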