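import Pool.Agent.MP_f71fe7.ClassesB
import Pool.Agent.MP_f71fe7.ClassesC
import Pool.Agent.MP_f71fe7.ClassesD

set_option autoImplicit false

open scoped Pointwise

namespace Pool.Agent.MP_f71fe7

theorem zc_eq_cls (U : Finset ℤ) (M : ℕ) (r : ℤ) : cls U M r = zc U M (r : ZMod M) := by
  ext u
  simp only [cls, zc, Finset.mem_filter]
  constructor
  · rintro ⟨h1, h2⟩
    refine ⟨h1, ?_⟩
    have := (ZMod.intCast_zmod_eq_zero_iff_dvd (u - r) M).mpr h2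
    push_cast at this
    exact sub_eq_zero.mp this
  · rintro ⟨h1, h2⟩
    refine ⟨h1, ?_⟩
    apply (ZMod.intCast_zmod_eq_zero_iff_dvd (u - r) M).mp
    push_cast
    exact sub_eq_zero.mpr h2

/-- The dichotomy. -/
theorem class_dichotomy {N : ℤ} {Q : Finset (ℤ × ℤ)} (h : QC N Q) (M : ℕ) (hM0 : 0 < M)
    (hM : 2 ∣ M) (hN : 10000 * (M : ℤ) ^ 3 ≤ N) :
    (∃ r r' : ℤ, (∀ a ∈ eA N Q, (2 : ℤ) ∣ a - r) ∧ (∀ b ∈ eB N Q, (2 : ℤ) ∣ b - r')) ∨
    (∀ r : ℤ, |(M : ℤ) * (cls (eA N Q) M r).card - N| ≤ 10 * (M : ℤ) ^ 2 ∧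
      |(M : ℤ) * (cls (eB N Q) M r).card - N| ≤ 10 * (M : ℤ) ^ 2 ∧
      |(M : ℤ) * (cls (dD Q) M r).card - N| ≤ 10 * (M : ℤ) ^ 2 ∧
      |(M : ℤ) * (cls (sS Q) M r).card - N| ≤ 10 * (M : ℤ) ^ 2) := by
  have : NeZero M := ⟨hM0.ne'⟩
  have hMpos : (1 : ℤ) ≤ M := by exact_mod_cast hM0
  have hM23 : (M : ℤ) ^ 2 ≤ (M : ℤ) ^ 3 := pow_le_pow_right₀ hMpos (by norm_num)
  have hM03 : (1 : ℤ) ≤ (M : ℤ) ^ 3 := one_le_pow₀ hMpos
  have hN1 : 10000 ≤ N := by linarith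
  have hN0 : 0 ≤ N := by linarith
  have hc := h.conf hN0
  have hA : ∀ a ∈ eA N Q, 0 ≤ a ∧ a < 2 * N := by
    intro a ha
    simp only [eA, Finset.mem_sdiff, Finset.mem_Ico] at ha
    exact ha.1
  have hpc : ∀ r : ℤ, (∀ a ∈ eA N Q, (2 : ℤ) ∣ a - r) → (∃ r r' : ℤ,
      (∀ a ∈ eA N Q, (2 : ℤ) ∣ a - r) ∧ (∀ b ∈ eB N Q, (2 : ℤ) ∣ b - r')) := by
    intro r hr
    obtain ⟨r', hr'⟩ := parity_B hc (by linarith) hr
    exact ⟨r, r', hr, hr'⟩
  rcases full_or_missing hc hA M (by linarith) with hfull | ⟨g, hg2, hg4, r, hr⟩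
  · right
    have hJ : supp (eB N Q) M = Finset.univ := by
      have := supp_card_eq hc M (by linarith)
      rw [hfull] at this
      exact (Finset.card_eq_iff_eq_univ _).mp this.symm
    intro r
    rw [zc_eq_cls, zc_eq_cls, zc_eq_cls, zc_eq_cls]
    obtain ⟨h1, h2⟩ := sizes_AB hc M (by linarith) hfull hJ (r : ZMod M)
    obtain ⟨h3, h4⟩ := sizes_DS hc M hM (by linarith) hfull hJ (fun r => h.parity r) (r : ZMod M)
    exact ⟨h1, h2, h3, h4⟩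
  · left
    interval_cases g
    · refine hpc (r + 1) ?_
      intro a ha
      have := hr a ha
      norm_num at this
      omega
    · exact absurd (fun a ha => by exact_mod_cast hr a ha) (not_mod3 h hN1 (r := r))
    · obtain ⟨r', hr'⟩ := mod4 h hN1 (r := r) (fun a ha => by exact_mod_cast hr a ha)
      exact hpc r' hr'

end Pool.Agent.MP_f71fe7
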