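import Pool.Agent.MP_f71fe7.Border

/-!
Residue classes modulo `M` of an extremal configuration.

Write `A_i`, `B_j`, `D_k`, `S_l` for the residue classes modulo `M`, `I`, `J` for the sets of
classes met by `A`, `B`. The border inequality for `(A_i, B_j, D_{j-i}, S_{i+j})` reads
`|A_i| + |B_j| ≤ |D_{j-i}| + |S_{i+j}| + 2` for `(i,j) ∈ I x J`.
-/

set_option autoImplicit false

open scoped Pointwise

namespace Pool.Agent.MP_f71fe7

/-- Elements of `U` in the residue class `i : ZMod M`. -/
def zc (U : Finset ℤ) (M : ℕ) (i : ZMod M) : Finset ℤ := U.filter (fun u : ℤ => (u : ZMod M) = i)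

/-- Residue classes met by `U`. -/
def supp (U : Finset ℤ) (M : ℕ) : Finset (ZMod M) := U.image (fun u : ℤ => (u : ZMod M))

theorem class_border {A B D S : Finset ℤ} (h : Cov A B D S) (M : ℕ) {i j : ZMod M}
    (hi : i ∈ supp A M) (hj : j ∈ supp B M) :
    (zc A M i).card + (zc B M j).card ≤ (zc D M (j - i)).card + (zc S M (i + j)).card + 2 := by
  apply border
  · intro a ha b hb
    simp only [zc, Finset.mem_filter] at ha hb ⊢
    rcases h a ha.1 b hb.1 with h1 | h1
    · left
      exact ⟨h1, by push_cast; rw [ha.2, hb.2]⟩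
    · right
      exact ⟨h1, by push_cast; rw [ha.2, hb.2]⟩
  · simp only [supp, Finset.mem_image] at hi
    obtain ⟨a, ha, hai⟩ := hi
    exact ⟨a, Finset.mem_filter.2 ⟨ha, hai⟩⟩
  · simp only [supp, Finset.mem_image] at hj
    obtain ⟨b, hb, hbj⟩ := hj
    exact ⟨b, Finset.mem_filter.2 ⟨hb, hbj⟩⟩

section

variable {M : ℕ}

/-- Number of `i ∈ I` with `i + k ∈ J`. -/
def ClassesA_r (I J : Finset (ZMod M)) (k : ZMod M) : ℕ := (I.filter (fun i => i + k ∈ J)).card

/-- Number of `i ∈ I` with `l - i ∈ J`. -/
def ClassesA_r' (I J : Finset (ZMod M)) (l : ZMod M) : ℕ := (I.filter (fun i => l - i ∈ J)).card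

theorem ClassesA_r_le_left (I J : Finset (ZMod M)) (k : ZMod M) : ClassesA_r I J k ≤ I.card :=
  Finset.card_filter_le _ _

theorem ClassesA_r'_le_left (I J : Finset (ZMod M)) (k : ZMod M) : ClassesA_r' I J k ≤ I.card :=
  Finset.card_filter_le _ _

theorem ClassesA_r_le_right (I J : Finset (ZMod M)) (k : ZMod M) : ClassesA_r I J k ≤ J.card := by
  apply Finset.card_le_card_of_injOn (fun i => i + k)
  · intro i hi
    exact (Finset.mem_filter.1 (Finset.mem_coe.1 hi)).2
  · intro i _ j _ hij
    exact add_right_cancel hij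

theorem ClassesA_r'_le_right (I J : Finset (ZMod M)) (k : ZMod M) :
    ClassesA_r' I J k ≤ J.card := by
  apply Finset.card_le_card_of_injOn (fun i => k - i)
  · intro i hi
    exact (Finset.mem_filter.1 (Finset.mem_coe.1 hi)).2
  · intro i _ j _ hij
    exact sub_right_injective hij

theorem ClassesA_r_lt (I J : Finset (ZMod M)) (hIJ : I.card = J.card) (k : ZMod M)
    (hk : I.image (fun i => i + k) ≠ J) : ClassesA_r I J k + 1 ≤ I.card := by
  by_contra hc
  push Not at hc
  have h1 : ClassesA_r I J k = I.card := le_antisymm (ClassesA_r_le_left I J k) (by omega)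
  have h2 : I.filter (fun i => i + k ∈ J) = I :=
    Finset.eq_of_subset_of_card_le (Finset.filter_subset _ _) h1.ge
  apply hk
  apply Finset.eq_of_subset_of_card_le
  · intro x hx
    obtain ⟨i, hi, rfl⟩ := Finset.mem_image.1 hx
    rw [← h2] at hi
    exact (Finset.mem_filter.1 hi).2
  · rw [Finset.card_image_of_injective _ (add_left_injective k), hIJ]

theorem ClassesA_r'_lt (I J : Finset (ZMod M)) (hIJ : I.card = J.card) (k : ZMod M)
    (hk : I.image (fun i => k - i) ≠ J) : ClassesA_r' I J k + 1 ≤ I.card := by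
  by_contra hc
  push Not at hc
  have h1 : ClassesA_r' I J k = I.card := le_antisymm (ClassesA_r'_le_left I J k) (by omega)
  have h2 : I.filter (fun i => k - i ∈ J) = I :=
    Finset.eq_of_subset_of_card_le (Finset.filter_subset _ _) h1.ge
  apply hk
  apply Finset.eq_of_subset_of_card_le
  · intro x hx
    obtain ⟨i, hi, rfl⟩ := Finset.mem_image.1 hx
    rw [← h2] at hi
    exact (Finset.mem_filter.1 hi).2
  · rw [Finset.card_image_of_injective _ sub_right_injective, hIJ]

end

theorem ClassesA_sum_supp (U : Finset ℤ) (M : ℕ) :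
    ∑ i ∈ supp U M, (zc U M i).card = U.card :=
  (Finset.card_eq_sum_card_image (fun u : ℤ => (u : ZMod M)) U).symm

theorem ClassesA_sum_D (D : Finset ℤ) (M : ℕ) (I J : Finset (ZMod M)) :
    ∑ i ∈ I, ∑ j ∈ J, (zc D M (j - i)).card = ∑ d ∈ D, ClassesA_r I J (d : ZMod M) := by
  have h1 : ∀ i ∈ I, ∑ j ∈ J, (zc D M (j - i)).card =
      (D.filter (fun d : ℤ => i + (d : ZMod M) ∈ J)).card := by
    intro i _
    have h2 := Finset.card_eq_sum_card_fiberwise (s := D.filter (fun d : ℤ => i + (d : ZMod M) ∈ J))
      (t := J) (f := fun d : ℤ => i + (d : ZMod M))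
      (fun d hd => (Finset.mem_filter.1 (Finset.mem_coe.1 hd)).2)
    rw [h2]
    refine Finset.sum_congr rfl fun j hj => ?_
    congr 1
    ext d
    simp only [zc, Finset.mem_filter]
    constructor
    · rintro ⟨h3, h4⟩
      refine ⟨⟨h3, ?_⟩, ?_⟩
      · rw [h4, add_sub_cancel]; exact hj
      · rw [h4, add_sub_cancel]
    · rintro ⟨⟨h3, _⟩, h5⟩
      exact ⟨h3, by rw [← h5, add_sub_cancel_left]⟩
  rw [Finset.sum_congr rfl h1]
  unfold ClassesA_r
  exact Finset.sum_card_bipartiteAbove_eq_sum_card_bipartiteBelow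
    (fun (i : ZMod M) (d : ℤ) => i + (d : ZMod M) ∈ J)

theorem ClassesA_sum_S (S : Finset ℤ) (M : ℕ) (I J : Finset (ZMod M)) :
    ∑ i ∈ I, ∑ j ∈ J, (zc S M (i + j)).card = ∑ s ∈ S, ClassesA_r' I J (s : ZMod M) := by
  have h1 : ∀ i ∈ I, ∑ j ∈ J, (zc S M (i + j)).card =
      (S.filter (fun s : ℤ => (s : ZMod M) - i ∈ J)).card := by
    intro i _
    have h2 := Finset.card_eq_sum_card_fiberwise (s := S.filter (fun s : ℤ => (s : ZMod M) - i ∈ J))
      (t := J) (f := fun s : ℤ => (s : ZMod M) - i)
      (fun d hd => (Finset.mem_filter.1 (Finset.mem_coe.1 hd)).2)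
    rw [h2]
    refine Finset.sum_congr rfl fun j hj => ?_
    congr 1
    ext d
    simp only [zc, Finset.mem_filter]
    constructor
    · rintro ⟨h3, h4⟩
      refine ⟨⟨h3, ?_⟩, ?_⟩
      · rw [h4, add_sub_cancel_left]; exact hj
      · rw [h4, add_sub_cancel_left]
    · rintro ⟨⟨h3, _⟩, h5⟩
      exact ⟨h3, by rw [← h5, add_sub_cancel]⟩
  rw [Finset.sum_congr rfl h1]
  unfold ClassesA_r'
  exact Finset.sum_card_bipartiteAbove_eq_sum_card_bipartiteBelow
    (fun (i : ZMod M) (s : ℤ) => (s : ZMod M) - i ∈ J)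

/-- The sum of `class_border` over `I x J`. -/
theorem ClassesA_master {A B D S : Finset ℤ} (h : Cov A B D S) (M : ℕ) :
    (supp B M).card * A.card + (supp A M).card * B.card ≤
      ∑ d ∈ D, ClassesA_r (supp A M) (supp B M) (d : ZMod M)
      + ∑ s ∈ S, ClassesA_r' (supp A M) (supp B M) (s : ZMod M)
      + 2 * ((supp A M).card * (supp B M).card) := by
  have h1 : ∑ i ∈ supp A M, ∑ j ∈ supp B M, ((zc A M i).card + (zc B M j).card) ≤
      ∑ i ∈ supp A M, ∑ j ∈ supp B M,
        ((zc D M (j - i)).card + (zc S M (i + j)).card + 2) :=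
    Finset.sum_le_sum fun i hi => Finset.sum_le_sum fun j hj => class_border h M hi hj
  simp only [Finset.sum_add_distrib, Finset.sum_const, smul_eq_mul] at h1
  rw [ClassesA_sum_D, ClassesA_sum_S, ← Finset.mul_sum, ClassesA_sum_supp,
    ClassesA_sum_supp] at h1
  calc _ ≤ _ := h1
    _ = _ := by ring

theorem ClassesA_supp_le (U : Finset ℤ) (M : ℕ) [NeZero M] : (supp U M).card ≤ M := by
  have := Finset.card_le_univ (supp U M)
  rwa [ZMod.card] at this

/-- D1: the two supports have the same size. -/
theorem supp_card_eq {N : ℤ} {A B D S : Finset ℤ} (h : Conf N A B D S) (M : ℕ) [NeZero M]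
    (hN : 100 * (M : ℤ) ^ 2 ≤ N) : (supp A M).card = (supp B M).card := by
  have hm := ClassesA_master h.cov M
  have hM : 1 ≤ (M : ℤ) := by exact_mod_cast NeZero.one_le
  have hI : ((supp A M).card : ℤ) ≤ M := by exact_mod_cast ClassesA_supp_le A M
  have hJ : ((supp B M).card : ℤ) ≤ M := by exact_mod_cast ClassesA_supp_le B M
  have hD1 := Finset.sum_le_card_nsmul D
    (fun d => ClassesA_r (supp A M) (supp B M) (d : ZMod M)) _
    (fun d _ => ClassesA_r_le_left (supp A M) (supp B M) (d : ZMod M))
  have hD2 := Finset.sum_le_card_nsmul D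
    (fun d => ClassesA_r (supp A M) (supp B M) (d : ZMod M)) _
    (fun d _ => ClassesA_r_le_right (supp A M) (supp B M) (d : ZMod M))
  have hS1 := Finset.sum_le_card_nsmul S
    (fun d => ClassesA_r' (supp A M) (supp B M) (d : ZMod M)) _
    (fun d _ => ClassesA_r'_le_left (supp A M) (supp B M) (d : ZMod M))
  have hS2 := Finset.sum_le_card_nsmul S
    (fun d => ClassesA_r' (supp A M) (supp B M) (d : ZMod M)) _
    (fun d _ => ClassesA_r'_le_right (supp A M) (supp B M) (d : ZMod M))
  simp only [smul_eq_mul] at hD1 hD2 hS1 hS2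
  zify at hm hD1 hD2 hS1 hS2
  have cA := h.cA
  have cB := h.cB
  have cD := h.cD
  have cS := h.cS
  set I : ℤ := ((supp A M).card : ℤ) with hIdef
  set J : ℤ := ((supp B M).card : ℤ) with hJdef
  have hI0 : 0 ≤ I := by positivity
  have hJ0 : 0 ≤ J := by positivity
  have hIJ : I * J ≤ (M : ℤ) ^ 2 := by nlinarith
  have hl : (J + I) * (N - 1) ≤ J * (A.card : ℤ) + I * (B.card : ℤ) := by nlinarith
  have hNpos : 0 ≤ N - 1 := by nlinarith
  rcases lt_trichotomy I J with hlt | heq | hgt
  · exfalso
    have e1 : ((D.card : ℤ) * I + (S.card : ℤ) * I) ≤ I * (2 * N + 2) := by nlinarith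
    have e2 : (J - I) * (N - 1) ≤ 4 * I + 2 * (I * J) := by nlinarith
    have e3 : N - 1 ≤ (J - I) * (N - 1) := by nlinarith
    nlinarith
  · have : ((supp A M).card : ℤ) = ((supp B M).card : ℤ) := heq
    exact_mod_cast this
  · exfalso
    have e1 : ((D.card : ℤ) * J + (S.card : ℤ) * J) ≤ J * (2 * N + 2) := by nlinarith
    have e2 : (I - J) * (N - 1) ≤ 4 * J + 2 * (I * J) := by nlinarith
    have e3 : N - 1 ≤ (I - J) * (N - 1) := by nlinarith
    nlinarith

/-- D2/D3: for a residue `k` with `I + k ≠ J` the class `D_k` is small, and the total number of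
elements of `D` in such classes is small. -/
theorem small_D {N : ℤ} {A B D S : Finset ℤ} (h : Conf N A B D S) (M : ℕ) [NeZero M]
    (hN : 100 * (M : ℤ) ^ 2 ≤ N) :
    (D.filter (fun d : ℤ => (supp A M).image (fun i => i + (d : ZMod M)) ≠ supp B M)).card
      + (S.filter (fun s : ℤ => (supp A M).image (fun i => (s : ZMod M) - i) ≠ supp B M)).card
      ≤ 4 * (supp A M).card + 2 * (supp A M).card ^ 2 := by
  have hIJ := supp_card_eq h M hN
  have hm := ClassesA_master h.cov M
  rw [← hIJ] at hm
  have hD : ∑ d ∈ D, ClassesA_r (supp A M) (supp B M) (d : ZMod M)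
      + (D.filter (fun d : ℤ => (supp A M).image (fun i => i + (d : ZMod M)) ≠ supp B M)).card
      ≤ D.card * (supp A M).card := by
    rw [Finset.card_filter, ← Finset.sum_add_distrib]
    have := Finset.sum_le_card_nsmul D (fun d : ℤ => ClassesA_r (supp A M) (supp B M) (d : ZMod M) +
      (if (supp A M).image (fun i => i + (d : ZMod M)) ≠ supp B M then 1 else 0))
      (supp A M).card (by
        intro d _
        split_ifs with hd
        · exact ClassesA_r_lt _ _ hIJ _ hd
        · exact ClassesA_r_le_left _ _ _)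
    simpa only [smul_eq_mul] using this
  have hS : ∑ d ∈ S, ClassesA_r' (supp A M) (supp B M) (d : ZMod M)
      + (S.filter (fun s : ℤ => (supp A M).image (fun i => (s : ZMod M) - i) ≠ supp B M)).card
      ≤ S.card * (supp A M).card := by
    rw [Finset.card_filter, ← Finset.sum_add_distrib]
    have := Finset.sum_le_card_nsmul S (fun d : ℤ => ClassesA_r' (supp A M) (supp B M) (d : ZMod M) +
      (if (supp A M).image (fun i => (d : ZMod M) - i) ≠ supp B M then 1 else 0))
      (supp A M).card (by
        intro d _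
        split_ifs with hd
        · exact ClassesA_r'_lt _ _ hIJ _ hd
        · exact ClassesA_r'_le_left _ _ _)
    simpa only [smul_eq_mul] using this
  have cA := h.cA
  have cB := h.cB
  have cD := h.cD
  have cS := h.cS
  zify at hm hD hS ⊢
  have hI0 : (0 : ℤ) ≤ ((supp A M).card : ℤ) := by positivity
  nlinarith

/-- D4: number of good residues bounds the support. Here `K = {k : I + k = J}`,
`K' = {l : l - I = J}`. -/
theorem supp_le {N : ℤ} {A B D S : Finset ℤ} (h : Conf N A B D S) (M : ℕ) [NeZero M]
    (hN : 100 * (M : ℤ) ^ 3 ≤ N) :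
    (supp A M).card ≤
      (Finset.univ.filter (fun k : ZMod M => (supp A M).image (fun i => i + k) = supp B M)).card
      + (Finset.univ.filter (fun l : ZMod M => (supp A M).image (fun i => l - i) = supp B M)).card
      := by
  by_contra hc
  push Not at hc
  have hM : 1 ≤ (M : ℤ) := by exact_mod_cast NeZero.one_le
  have hN2 : 100 * (M : ℤ) ^ 2 ≤ N := by nlinarith [sq_nonneg (M : ℤ)]
  have hIJ := supp_card_eq h M hN2
  have hsm := small_D h M hN2
  have hI := ClassesA_supp_le A M
  have key : ∀ i ∈ supp A M, (zc A M i).card ≤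
      4 * (supp A M).card + 2 * (supp A M).card ^ 2 + 2 := by
    intro i hi
    -- a class `j ∈ J` with `j - i ∉ K` and `i + j ∉ K'`
    have hex : ∃ j ∈ supp B M, (supp A M).image (fun x => x + (j - i)) ≠ supp B M ∧
        (supp A M).image (fun x => (i + j) - x) ≠ supp B M := by
      by_contra hno
      push Not at hno
      have hsub : supp B M ⊆
          ((Finset.univ.filter (fun k : ZMod M =>
            (supp A M).image (fun i => i + k) = supp B M)).image (fun k => i + k)) ∪
          ((Finset.univ.filter (fun l : ZMod M =>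
            (supp A M).image (fun i => l - i) = supp B M)).image (fun l => l - i)) := by
        intro j hj
        rw [Finset.mem_union]
        by_cases hk : (supp A M).image (fun x => x + (j - i)) = supp B M
        · left
          refine Finset.mem_image.2 ⟨j - i, Finset.mem_filter.2 ⟨Finset.mem_univ _, hk⟩, ?_⟩
          rw [add_sub_cancel]
        · right
          refine Finset.mem_image.2 ⟨i + j, Finset.mem_filter.2 ⟨Finset.mem_univ _, hno j hj hk⟩, ?_⟩
          rw [add_sub_cancel_left]
      have h3 := (Finset.card_le_card hsub).trans (Finset.card_union_le _ _)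
      have h4 := Finset.card_image_le (s := Finset.univ.filter (fun k : ZMod M =>
            (supp A M).image (fun i => i + k) = supp B M)) (f := fun k => i + k)
      have h5 := Finset.card_image_le (s := Finset.univ.filter (fun l : ZMod M =>
            (supp A M).image (fun i => l - i) = supp B M)) (f := fun l => l - i)
      omega
    obtain ⟨j, hj, hj1, hj2⟩ := hex
    have hb := class_border h.cov M hi hj
    have hDle : (zc D M (j - i)).card ≤
        (D.filter (fun d : ℤ => (supp A M).image (fun i => i + (d : ZMod M)) ≠ supp B M)).card := by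
      apply Finset.card_le_card
      intro d hd
      simp only [zc, Finset.mem_filter] at hd ⊢
      refine ⟨hd.1, ?_⟩
      rw [hd.2]
      exact hj1
    have hSle : (zc S M (i + j)).card ≤
        (S.filter (fun s : ℤ => (supp A M).image (fun i => (s : ZMod M) - i) ≠ supp B M)).card := by
      apply Finset.card_le_card
      intro d hd
      simp only [zc, Finset.mem_filter] at hd ⊢
      refine ⟨hd.1, ?_⟩
      rw [hd.2]
      exact hj2
    omega
  have hsum : A.card ≤ (supp A M).card *
      (4 * (supp A M).card + 2 * (supp A M).card ^ 2 + 2) := by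
    rw [← ClassesA_sum_supp A M]
    have := Finset.sum_le_card_nsmul (supp A M) (fun i => (zc A M i).card) _ key
    simpa only [smul_eq_mul] using this
  have hle : (supp A M).card * (4 * (supp A M).card + 2 * (supp A M).card ^ 2 + 2) ≤
      M * (4 * M + 2 * M ^ 2 + 2) := by gcongr
  have hfin := hsum.trans hle
  have cA := h.cA
  zify at hfin
  have e1 : (M : ℤ) * M ≤ M * M * M := by nlinarith [mul_self_nonneg (M : ℤ)]
  have e2 : (M : ℤ) ≤ M * M := by nlinarith
  nlinarith

end Pool.Agent.MP_f71fe7
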