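import Pool.Agent.MP_f71fe7.ClassesA

set_option autoImplicit false

open scoped Pointwise

namespace Pool.Agent.MP_f71fe7

/-- The stabiliser of a finite set of residues. -/
private def classesB_stab {M : ℕ} (I : Finset (ZMod M)) : AddSubgroup (ZMod M) where
  carrier := {p | ∀ i, i ∈ I ↔ i + p ∈ I}
  zero_mem' := by
    intro i
    rw [add_zero]
  add_mem' := by
    intro p q hp hq i
    rw [hp i, hq (i + p), add_assoc]
  neg_mem' := by
    intro p hp i
    have := hp (i + -p)
    rw [neg_add_cancel_right] at this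
    exact this.symm

private theorem classesB_natCard {M : ℕ} [NeZero M] (P : AddSubgroup (ZMod M))
    [DecidablePred (fun p : ZMod M => p ∈ P)] :
    Nat.card P = (Finset.univ.filter (fun p : ZMod M => p ∈ P)).card := by
  rw [Nat.card_eq_fintype_card, Fintype.card_subtype]

private theorem classesB_K_card {M : ℕ} [NeZero M] (I J : Finset (ZMod M)) :
    (Finset.univ.filter (fun k : ZMod M => I.image (fun i => i + k) = J)).card ≤
      Nat.card (classesB_stab I) := by
  classical
  rcases (Finset.univ.filter (fun k : ZMod M => I.image (fun i => i + k) = J)).eq_empty_or_nonempty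
    with h | ⟨k₀, hk₀⟩
  · rw [h, Finset.card_empty]
    exact Nat.zero_le _
  · have hmem : ∀ k : ZMod M, I.image (fun i => i + k) = J → ∀ y, y ∈ J ↔ y - k ∈ I := by
      intro k hk y
      rw [← hk, Finset.mem_image]
      constructor
      · rintro ⟨i, hi, rfl⟩
        simpa using hi
      · intro hy
        exact ⟨y - k, hy, by ring⟩
    rw [classesB_natCard]
    apply Finset.card_le_card_of_injOn (fun k => k - k₀)
    · intro k hk
      rw [Finset.mem_coe, Finset.mem_filter] at hk ⊢
      rw [Finset.mem_filter] at hk₀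
      refine ⟨Finset.mem_univ _, ?_⟩
      intro i
      have h1 := hmem k hk.2 (i + k)
      have h2 := hmem k₀ hk₀.2 (i + k)
      rw [add_sub_cancel_right] at h1
      have e : i + (k - k₀) = i + k - k₀ := by ring
      rw [e, ← h2, h1]
    · intro a _ b _ hab
      exact sub_left_injective hab

private theorem classesB_K'_card {M : ℕ} [NeZero M] (I J : Finset (ZMod M)) :
    (Finset.univ.filter (fun l : ZMod M => I.image (fun i => l - i) = J)).card ≤
      Nat.card (classesB_stab I) := by
  classical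
  rcases (Finset.univ.filter (fun l : ZMod M => I.image (fun i => l - i) = J)).eq_empty_or_nonempty
    with h | ⟨k₀, hk₀⟩
  · rw [h, Finset.card_empty]
    exact Nat.zero_le _
  · have hmem : ∀ l : ZMod M, I.image (fun i => l - i) = J → ∀ y, y ∈ J ↔ l - y ∈ I := by
      intro l hl y
      rw [← hl, Finset.mem_image]
      constructor
      · rintro ⟨i, hi, rfl⟩
        simpa using hi
      · intro hy
        exact ⟨l - y, hy, by ring⟩
    rw [classesB_natCard]
    apply Finset.card_le_card_of_injOn (fun l => l - k₀)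
    · intro l hl
      rw [Finset.mem_coe, Finset.mem_filter] at hl ⊢
      rw [Finset.mem_filter] at hk₀
      refine ⟨Finset.mem_univ _, ?_⟩
      intro i
      have h1 := hmem l hl.2 (k₀ - i)
      have h2 := hmem k₀ hk₀.2 (k₀ - i)
      rw [sub_sub_cancel] at h2
      have e : i + (l - k₀) = l - (k₀ - i) := by ring
      rw [e, ← h1, h2]
    · intro a _ b _ hab
      exact sub_left_injective hab

private theorem classesB_count (A : Finset ℤ) (M : ℕ) (hM : 0 < M) (N : ℤ) (hNpos : 0 < N)
    (hA : ∀ a ∈ A, 0 ≤ a ∧ a < 2 * N) (i : ZMod M) :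
    (M : ℤ) * ((zc A M i).card : ℤ) ≤ 2 * N + M := by
  have hM' : (0 : ℤ) < M := by exact_mod_cast hM
  have h1 : (zc A M i).card ≤ (Finset.Icc (0 : ℤ) ((2 * N) / M)).card := by
    apply Finset.card_le_card_of_injOn (fun a => a / (M : ℤ))
    · intro a ha
      rw [Finset.mem_coe, zc, Finset.mem_filter] at ha
      have := hA a ha.1
      rw [Finset.mem_coe, Finset.mem_Icc]
      exact ⟨Int.ediv_nonneg this.1 hM'.le, Int.ediv_le_ediv hM' this.2.le⟩
    · intro a ha b hb hab
      rw [Finset.mem_coe, zc, Finset.mem_filter] at ha hb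
      have h2 : (a : ZMod M) = (b : ZMod M) := ha.2.trans hb.2.symm
      rw [ZMod.intCast_eq_intCast_iff] at h2
      have h3 : a % (M : ℤ) = b % (M : ℤ) := h2
      have h4 : a / (M : ℤ) = b / (M : ℤ) := hab
      rw [← Int.mul_ediv_add_emod a M, ← Int.mul_ediv_add_emod b M, h3, h4]
  have h2 : (0 : ℤ) ≤ (2 * N) / M := Int.ediv_nonneg (by linarith) hM'.le
  rw [Int.card_Icc] at h1
  have h3 : ((zc A M i).card : ℤ) ≤ (2 * N) / M + 1 := by
    have : ((zc A M i).card : ℤ) ≤ (((2 * N) / M + 1 - 0).toNat : ℤ) := by exact_mod_cast h1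
    rw [Int.toNat_of_nonneg (by linarith)] at this
    linarith
  have h4 : (M : ℤ) * ((2 * N) / M) ≤ 2 * N := Int.mul_ediv_self_le (ne_of_gt hM')
  nlinarith

/-- D5/D6: the support of `A` is invariant under translation by some `g ∈ {1,2,3,4}`. The stabiliser
`P` of `I` has `|K| = |K'| = |P|`, so `|I| ≤ 2 |P|`; as `|A| ≤ |I| (2N/M + 1)`, the index of `P` is at
most `4`; take `g` the index of `P`. -/
theorem supp_invariant {N : ℤ} {A B D S : Finset ℤ} (h : Conf N A B D S)
    (hA : ∀ a ∈ A, 0 ≤ a ∧ a < 2 * N) (M : ℕ) [NeZero M] (hN : 100 * (M : ℤ) ^ 3 ≤ N) :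
    ∃ g : ℕ, 1 ≤ g ∧ g ≤ 4 ∧ ∀ i : ZMod M, i ∈ supp A M → i + (g : ZMod M) ∈ supp A M := by
  classical
  have hM0 : 0 < M := NeZero.pos M
  have hMpos : (1 : ℤ) ≤ M := by exact_mod_cast hM0
  have hM3 : (M : ℤ) ≤ (M : ℤ) ^ 3 := by nlinarith [mul_le_mul hMpos hMpos (by norm_num) (by linarith)]
  have hNM : 100 * (M : ℤ) ≤ N := by linarith
  have hNpos : 0 < N := by linarith
  set P := classesB_stab (supp A M) with hP
  have hle : (supp A M).card ≤ 2 * Nat.card P := by
    have h1 := supp_le h M hN
    have h2 := classesB_K_card (supp A M) (supp B M)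
    have h3 := classesB_K'_card (supp A M) (supp B M)
    rw [← hP] at h2 h3
    omega
  have hcard : (A.card : ℤ) = ∑ i ∈ supp A M, ((zc A M i).card : ℤ) := by
    have := Finset.card_eq_sum_card_image (fun u : ℤ => (u : ZMod M)) A
    rw [this]
    push_cast
    rfl
  have hcount : (M : ℤ) * (A.card : ℤ) ≤ ((supp A M).card : ℤ) * (2 * N + M) := by
    rw [hcard, Finset.mul_sum]
    calc ∑ i ∈ supp A M, (M : ℤ) * ((zc A M i).card : ℤ)
        ≤ ∑ _i ∈ supp A M, (2 * N + M : ℤ) :=
          Finset.sum_le_sum (fun i _ => classesB_count A M hM0 N hNpos hA i)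
      _ = ((supp A M).card : ℤ) * (2 * N + M) := by
          rw [Finset.sum_const, nsmul_eq_mul]
  have hidx : Nat.card P * P.index = M := by
    rw [AddSubgroup.card_mul_index, Nat.card_zmod]
  have hidx1 : 1 ≤ P.index := by
    rcases Nat.eq_zero_or_pos P.index with h0 | h0
    · rw [h0, mul_zero] at hidx
      omega
    · exact h0
  refine ⟨P.index, hidx1, ?_, ?_⟩
  · by_contra hgt
    push Not at hgt
    have h5 : 5 * Nat.card P ≤ M := by
      calc 5 * Nat.card P = Nat.card P * 5 := by ring
        _ ≤ Nat.card P * P.index := Nat.mul_le_mul_left _ hgt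
        _ = M := hidx
    have h6 : 5 * (supp A M).card ≤ 2 * M := by omega
    have h6' : 5 * ((supp A M).card : ℤ) ≤ 2 * M := by exact_mod_cast h6
    have h7 := h.cA
    have h8 : (M : ℤ) * (N - 1) ≤ ((supp A M).card : ℤ) * (2 * N + M) :=
      (mul_le_mul_of_nonneg_left h7 (by linarith)).trans hcount
    have h9 : 5 * ((M : ℤ) * (N - 1)) ≤ 2 * M * (2 * N + M) := by
      calc 5 * ((M : ℤ) * (N - 1)) ≤ 5 * (((supp A M).card : ℤ) * (2 * N + M)) := by linarith
        _ = (5 * ((supp A M).card : ℤ)) * (2 * N + M) := by ring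
        _ ≤ 2 * M * (2 * N + M) := mul_le_mul_of_nonneg_right h6' (by linarith)
    have h10 : (M : ℤ) * (5 * (N - 1)) ≤ M * (2 * (2 * N + M)) := by linarith
    have h11 := le_of_mul_le_mul_left h10 (by linarith : (0 : ℤ) < M)
    linarith
  · intro i hi
    have hg : (P.index : ZMod M) ∈ P := by
      have := AddSubgroup.nsmul_index_mem P (1 : ZMod M)
      rwa [nsmul_eq_mul, mul_one] at this
    exact (hg i).1 hi

/-- D7: either all classes modulo `M` are met by `A`, or `A` misses a class modulo `2`, `3` or `4`. -/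
theorem full_or_missing {N : ℤ} {A B D S : Finset ℤ} (h : Conf N A B D S)
    (hA : ∀ a ∈ A, 0 ≤ a ∧ a < 2 * N) (M : ℕ) [NeZero M] (hN : 100 * (M : ℤ) ^ 3 ≤ N) :
    supp A M = Finset.univ ∨
      ∃ g : ℕ, 2 ≤ g ∧ g ≤ 4 ∧ ∃ r : ℤ, ∀ a ∈ A, ¬ ((g : ℤ) ∣ a - r) := by
  classical
  obtain ⟨g, hg1, hg4, hg⟩ := supp_invariant h hA M hN
  by_cases hu : supp A M = Finset.univ
  · exact Or.inl hu
  right
  have hMpos : (1 : ℤ) ≤ M := by
    have := NeZero.pos M
    exact_mod_cast this
  have hN100 : 100 ≤ N := by nlinarith [pow_le_pow_left₀ (by norm_num : (0 : ℤ) ≤ 1) hMpos 3]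
  have hAne : A.Nonempty := by
    rw [← Finset.card_pos]
    have := h.cA
    omega
  obtain ⟨i, hi⟩ : ∃ i, i ∉ supp A M := by
    by_contra hcon
    push Not at hcon
    exact hu (Finset.eq_univ_iff_forall.2 hcon)
  -- invariance in both directions
  have himg : (supp A M).image (fun i => i + (g : ZMod M)) = supp A M := by
    apply Finset.eq_of_subset_of_card_le
    · intro x hx
      rw [Finset.mem_image] at hx
      obtain ⟨y, hy, rfl⟩ := hx
      exact hg y hy
    · rw [Finset.card_image_of_injective _ (add_left_injective _)]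
  have hback : ∀ j : ZMod M, j + (g : ZMod M) ∈ supp A M → j ∈ supp A M := by
    intro j hj
    rw [← himg, Finset.mem_image] at hj
    obtain ⟨y, hy, hyj⟩ := hj
    rw [← add_right_cancel hyj]
    exact hy
  have hnat : ∀ (t : ℕ) (j : ZMod M), (j + (t : ZMod M) * g ∈ supp A M ↔ j ∈ supp A M) := by
    intro t
    induction t with
    | zero => intro j; simp
    | succ t ih =>
      intro j
      have e : j + ((t + 1 : ℕ) : ZMod M) * g = (j + g) + (t : ZMod M) * g := by
        push_cast; ring
      rw [e, ih]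
      exact ⟨hback j, hg j⟩
  have hint : ∀ (t : ℤ) (j : ZMod M), (j + (t : ZMod M) * g ∈ supp A M ↔ j ∈ supp A M) := by
    intro t j
    obtain ⟨m, rfl | rfl⟩ := t.eq_nat_or_neg
    · have := hnat m j
      simpa using this
    · have := hnat m (j + ((-(m : ℤ) : ℤ) : ZMod M) * g)
      rw [← this]
      have e : j + ((-(m : ℤ) : ℤ) : ZMod M) * g + (m : ZMod M) * g = j := by
        push_cast; ring
      rw [e]
  obtain ⟨r, hr⟩ := ZMod.intCast_surjective i
  have key : ∀ a ∈ A, ¬ ((g : ℤ) ∣ a - r) := by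
    rintro a ha ⟨t, ht⟩
    have ha' : (a : ZMod M) ∈ supp A M := Finset.mem_image_of_mem _ ha
    have e : (a : ZMod M) = i + (t : ZMod M) * g := by
      have : a = r + t * g := by linarith
      rw [this, ← hr]
      push_cast
      ring
    rw [e, hint] at ha'
    exact hi ha'
  refine ⟨g, ?_, hg4, r, key⟩
  by_contra hlt
  have hg' : g = 1 := by omega
  obtain ⟨a, ha⟩ := hAne
  apply key a ha
  rw [hg']
  simp

end Pool.Agent.MP_f71fe7
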