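import Pool.Agent.MP_f71fe7.CornerA

set_option autoImplicit false

open scoped Pointwise Classical

namespace Pool.Agent.MP_f71fe7

/-- Basic estimates for the error terms. -/
theorem CornerC_est {N M : ℤ} {n : ℕ} (hM : 0 < M) (hn : (n : ℤ) ≤ (200 * M) ^ 2000)
    (big : (200 * M) ^ 5000 ≤ N) :
    10 ^ 11 * ((n : ℤ) + 1) * M ^ 2 ≤ Zc M n ∧ 10 ^ 12 * M * Zc M n ≤ N := by
  have h1 := Yc_ge hM n
  have h2 := Zc_ge hM n
  have h3 := Zc_le hM n hn big
  have hM1 : (1 : ℤ) ≤ M := hM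
  have hn0 : (0 : ℤ) ≤ n := Int.natCast_nonneg _
  have hM2 : M ^ 2 ≤ M ^ 5 := pow_le_pow_right₀ hM1 (by norm_num)
  have hM3 : M ≤ M ^ 3 := by
    calc M = M ^ 1 := (pow_one M).symm
      _ ≤ M ^ 3 := pow_le_pow_right₀ hM1 (by norm_num)
  have hM5 : 0 ≤ M ^ 5 := by positivity
  have hM20 : 0 ≤ M ^ 2 := by positivity
  have h4 : 10 ^ 11 * ((n : ℤ) + 1) * M ^ 2 ≤ Zc M n := by
    calc 10 ^ 11 * ((n : ℤ) + 1) * M ^ 2 ≤ 10 ^ 11 * ((n : ℤ) + 1) * M ^ 5 :=
          mul_le_mul_of_nonneg_left hM2 (by positivity)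
      _ = 10 ^ 11 * M ^ 5 * ((n : ℤ) + 1) := by ring
      _ ≤ 10 ^ 11 * M ^ 5 * Yc M n := mul_le_mul_of_nonneg_left h1 (by positivity)
      _ ≤ Zc M n := h2
  refine ⟨h4, le_trans ?_ h3⟩
  have h5 : 0 ≤ Zc M n := le_trans (by positivity) h4
  have h6 : M * Zc M n ≤ M ^ 3 * Zc M n := mul_le_mul_of_nonneg_right hM3 h5
  calc 10 ^ 12 * M * Zc M n = 10 ^ 12 * (M * Zc M n) := by ring
    _ ≤ 10 ^ 12 * (M ^ 3 * Zc M n) := mul_le_mul_of_nonneg_left h6 (by norm_num)
    _ = 10 ^ 12 * M ^ 3 * Zc M n := by ring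

/-- Case alpha: the box is much wider than high. Then `D` has at most `6 + 2n` elements in
`(b1 - a1, y - x)` by `Conf.mid_le`, so `nDn ≤ 7 + 2n` for all classes. -/
theorem Corner.alpha {N M R x y a1 b1 : ℤ} {n : ℕ} {A B D S : Finset ℤ}
    (h : Corner N M R x y a1 b1 n A B D S) (hR : R + M ≤ 8 * M)
    (hw : Zc M n ≤ (a1 - x) - (b1 - y)) : Conc N D := by
  obtain ⟨hZ1, hZ2⟩ := CornerC_est h.M0 h.nG h.big
  have hM := h.M0
  have hM1 : (1 : ℤ) ≤ M := hM
  have hn0 : (0 : ℤ) ≤ n := Int.natCast_nonneg _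
  have hMM : M ≤ M ^ 2 := by nlinarith
  have hnM : 0 ≤ (n : ℤ) * M := mul_nonneg hn0 hM.le
  have hnMM : (n : ℤ) * M ≤ n * M ^ 2 := mul_le_mul_of_nonneg_left hMM hn0
  have hM20 : 0 < M ^ 2 := by positivity
  have hnM2 : 0 ≤ (n : ℤ) * M ^ 2 := by positivity
  have hZ0 : 0 ≤ Zc M n := le_trans (by positivity) hZ1
  have hZ3 : (8 + 2 * (n : ℤ)) * M ≤ Zc M n := by nlinarith
  -- few elements in the middle
  have hmid := h.conf.mid_le h.hx h.ha1 (h.mA x h.hx) (h.mB y h.hy) (by linarith)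
  have hBn : (B.filter (fun b => b < y ∨ b1 < b)).card ≤ n := by
    refine le_trans (Finset.card_le_card ?_) h.dy
    intro b hb
    rw [Finset.mem_filter] at hb ⊢
    rcases hb.2 with h1 | h1
    · exact ⟨hb.1, h1⟩
    · exact absurd h1 (not_lt.2 (h.mB b hb.1))
  have hDn : ∀ k : ℤ, (nDn D M (y - x) k : ℤ) ≤ 7 + 2 * n := by
    intro k
    by_contra hcon
    push Not at hcon
    have hcon' : 8 + 2 * (n : ℤ) ≤ nDn D M (y - x) k := by linarith
    obtain ⟨c, hc⟩ : ∃ c, c = y - x := ⟨_, rfl⟩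
    obtain ⟨k', hk'⟩ : ∃ k', k' = c - (c - k) % M := ⟨_, rfl⟩
    have e0 := Int.emod_nonneg (c - k) hM.ne'
    have e1 := Int.emod_lt_of_pos (c - k) hM
    have e2 : k' - k = M * ((c - k) / M) := by
      have := Int.emod_add_mul_ediv (c - k) M
      rw [hk']
      linarith
    let f : ℕ → ℤ := fun j => k' - ((j : ℤ) + 1) * M
    have hinj : Function.Injective f := by
      intro i j hij
      have h1 : ((i : ℤ) + 1) * M = ((j : ℤ) + 1) * M := by
        have : k' - ((i : ℤ) + 1) * M = k' - ((j : ℤ) + 1) * M := hij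
        linarith
      have h2 := mul_right_cancel₀ hM.ne' h1
      have h3 : (i : ℤ) = j := by linarith
      exact_mod_cast h3
    have hsub : (Finset.range (7 + 2 * n)).image f ⊆
        D.filter (fun d => b1 - a1 < d ∧ d < y - x) := by
      intro d hd
      obtain ⟨j, hj, rfl⟩ := Finset.mem_image.1 hd
      rw [Finset.mem_range] at hj
      have hj' : (j : ℤ) + 1 ≤ 7 + 2 * n := by exact_mod_cast hj
      have hj1 : ((j : ℤ) + 1) * M ≤ (7 + 2 * (n : ℤ)) * M :=
        mul_le_mul_of_nonneg_right hj' hM.le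
      have hj2 : M ≤ ((j : ℤ) + 1) * M := by
        have : (0 : ℤ) ≤ j * M := mul_nonneg (Int.natCast_nonneg _) hM.le
        linarith
      have hj3 : (8 + 2 * (n : ℤ)) * M ≤ nDn D M (y - x) k * M :=
        mul_le_mul_of_nonneg_right hcon' hM.le
      show k' - ((j : ℤ) + 1) * M ∈ _
      have hdn : Dn D M (y - x) (k' - ((j : ℤ) + 1) * M) := by
        refine dn_of_lt hM (k := k) ?_ ?_ ?_
        · refine ⟨(c - k) / M - (j + 1), ?_⟩
          linear_combination e2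
        · rw [← hc]
          linarith
        · rw [← hc]
          rw [← hc] at hj3
          linarith
      have hD := hdn.2 0 le_rfl (by rw [← hc]; linarith)
      rw [zero_mul, add_zero] at hD
      rw [Finset.mem_filter]
      refine ⟨hD, ?_, ?_⟩
      · linarith
      · linarith
    have hcard := Finset.card_le_card hsub
    rw [Finset.card_image_of_injective _ hinj, Finset.card_range] at hcard
    omega
  refine h.conc_of_bounds hR (P := (N + 3 * 10 ^ 6 * n * M ^ 2) / M) (P' := 7 + 2 * n) ?_ hDn ?_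
  · intro k
    have hs := h.sum_size hR k
    rw [abs_le] at hs
    refine Int.le_ediv_of_mul_le hM ?_
    have h0 : (0 : ℤ) ≤ M * (nDn D M (y - x) k : ℤ) := mul_nonneg hM.le (Int.natCast_nonneg _)
    linarith [hs.1, hs.2]
  · have h1 := Int.ediv_mul_le (N + 3 * 10 ^ 6 * n * M ^ 2) hM.ne'
    nlinarith

end Pool.Agent.MP_f71fe7
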