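import Pool.Agent.MP_f71fe7.CornerE

set_option autoImplicit false

open scoped Pointwise Classical

namespace Pool.Agent.MP_f71fe7

/-- Basic estimates for the error terms. -/
theorem CornerF_est {N M : ℤ} {n : ℕ} (hM : 0 < M) (hn : (n : ℤ) ≤ (200 * M) ^ 2000)
    (big : (200 * M) ^ 5000 ≤ N) :
    10 ^ 11 * ((n : ℤ) + 1) * M ^ 2 ≤ Zc M n ∧ 10 ^ 12 * M * Zc M n ≤ N := by
  have h1 := Yc_ge hM n
  have h2 := Zc_ge hM n
  have h3 := Zc_le hM n hn big
  have hM1 : (1 : ℤ) ≤ M := hM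
  have hn0 : (0 : ℤ) ≤ n := Int.natCast_nonneg _
  have hM2 : M ^ 2 ≤ M ^ 5 := pow_le_pow_right₀ hM1 (by norm_num)
  have hM3 : M ≤ M ^ 3 := by
    calc M = M ^ 1 := (pow_one M).symm
      _ ≤ M ^ 3 := pow_le_pow_right₀ hM1 (by norm_num)
  have hM5 : 0 ≤ M ^ 5 := by positivity
  have hM20 : 0 ≤ M ^ 2 := by positivity
  have h4 : 10 ^ 11 * ((n : ℤ) + 1) * M ^ 2 ≤ Zc M n := by
    calc 10 ^ 11 * ((n : ℤ) + 1) * M ^ 2 ≤ 10 ^ 11 * ((n : ℤ) + 1) * M ^ 5 :=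
          mul_le_mul_of_nonneg_left hM2 (by positivity)
      _ = 10 ^ 11 * M ^ 5 * ((n : ℤ) + 1) := by ring
      _ ≤ 10 ^ 11 * M ^ 5 * Yc M n := mul_le_mul_of_nonneg_left h1 (by positivity)
      _ ≤ Zc M n := h2
  refine ⟨h4, le_trans ?_ h3⟩
  have h5 : 0 ≤ Zc M n := le_trans (by positivity) h4
  have h6 : M * Zc M n ≤ M ^ 3 * Zc M n := mul_le_mul_of_nonneg_right hM3 h5
  calc 10 ^ 12 * M * Zc M n = 10 ^ 12 * (M * Zc M n) := by ring
    _ ≤ 10 ^ 12 * (M ^ 3 * Zc M n) := mul_le_mul_of_nonneg_left h6 (by norm_num)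
    _ = 10 ^ 12 * M ^ 3 * Zc M n := by ring

/-- Pure arithmetic of the last step. -/
theorem CornerF_arith {N M Z e u d u0 d0 : ℤ} (hM : 0 < M) (hu : 0 ≤ u) (hd : 0 ≤ d)
    (hu0 : 0 ≤ u0) (hd0 : 0 ≤ d0) (he : 2 * e ≤ M * Z) (hN : 10 * (M * Z) ≤ N) (hZ : 0 ≤ Z)
    (h1 : |M * (u + d) - N| ≤ e) (h2 : |M * (u0 + d0) - N| ≤ e)
    (h3 : Z ≤ u → |d - d0| ≤ Z) (h4 : Z ≤ d → |u - u0| ≤ Z) :
    u ≤ u0 + 2 * Z ∧ d ≤ d0 + 2 * Z := by
  rw [abs_le] at h1 h2
  by_cases hcase : Z ≤ u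
  · have h5 := h3 hcase
    rw [abs_le] at h5
    refine ⟨?_, by linarith [h5.2]⟩
    by_contra hcon
    push Not at hcon
    have h6 : M * (u0 + 2 * Z) < M * u := mul_lt_mul_of_pos_left hcon hM
    have h7 : M * (d0 - d) ≤ M * Z := mul_le_mul_of_nonneg_left (by linarith [h5.1]) hM.le
    nlinarith [h1.1, h1.2, h2.1, h2.2]
  · push Not at hcase
    refine ⟨by linarith, ?_⟩
    have hdZ : Z ≤ d := by
      by_contra hcon
      push Not at hcon
      have h6 : M * d < M * Z := mul_lt_mul_of_pos_left hcon hM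
      have h7 : M * u < M * Z := mul_lt_mul_of_pos_left hcase hM
      nlinarith [h1.1, h1.2]
    have h5 := h4 hdZ
    rw [abs_le] at h5
    by_contra hcon
    push Not at hcon
    have h6 : M * (d0 + 2 * Z) < M * d := mul_lt_mul_of_pos_left hcon hM
    have h7 : M * (u0 - u) ≤ M * Z := mul_le_mul_of_nonneg_left (by linarith [h5.1]) hM.le
    nlinarith [h1.1, h1.2, h2.1, h2.2]

/-- Case beta: from `beta_claim` for the corner and for its transpose. -/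
theorem Corner.beta {N M R x y a1 b1 : ℤ} {n : ℕ} {A B D S : Finset ℤ}
    (h : Corner N M R x y a1 b1 n A B D S) (hR : R + 2 * M ≤ 8 * M)
    (hw : N + Zc M n ≤ a1 - x)
    (hh : N + Zc M n ≤ b1 - y) : Conc N D := by
  obtain ⟨hZ1, hZ2⟩ := CornerF_est h.M0 h.nG h.big
  have hM := h.M0
  have hM1 : (1 : ℤ) ≤ M := hM
  have hn0 : (0 : ℤ) ≤ n := Int.natCast_nonneg _
  have hM20 : 0 < M ^ 2 := by positivity
  have hnM2 : 0 ≤ (n : ℤ) * M ^ 2 := by positivity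
  have hZ0 : 0 ≤ Zc M n := le_trans (by positivity) hZ1
  have hZM : Zc M n ≤ M * Zc M n := le_mul_of_one_le_left hZ0 hM1
  have hR' : R + M ≤ 8 * M := by linarith
  have ht := h.transpose hR'
  have key : ∀ k : ℤ, (nUp D M (y - x) k : ℤ) ≤ nUp D M (y - x) (y - x) + 2 * Zc M n ∧
      (nDn D M (y - x) k : ℤ) ≤ nDn D M (y - x) (y - x) + 2 * Zc M n := by
    intro k
    refine CornerF_arith hM (Int.natCast_nonneg _) (Int.natCast_nonneg _) (Int.natCast_nonneg _)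
      (Int.natCast_nonneg _) (e := 3 * 10 ^ 6 * n * M ^ 2) ?_ ?_ hZ0 (h.sum_size hR' k)
      (h.sum_size hR' (y - x)) (fun hk => h.beta_claim hR' hw hk) ?_
    · nlinarith
    · nlinarith
    · intro hk
      have e1 : nUp (-D) M (x - y) (-k) = nDn D M (y - x) k := by
        rw [nDn_eq, neg_sub]
      have e2 : ∀ j : ℤ, nDn (-D) M (x - y) (-j) = nUp D M (y - x) j := by
        intro j
        rw [nDn_eq, neg_sub, neg_neg, neg_neg]
      have h1 := ht.beta_claim (by linarith) hh (k := -k) (by rw [e1]; exact hk)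
      have e3 : nDn (-D) M (x - y) (x - y) = nUp D M (y - x) (y - x) := by
        rw [← e2 (y - x), neg_sub]
      rw [e2, e3] at h1
      exact h1
  refine h.conc_of_bounds hR' (P := nUp D M (y - x) (y - x) + 2 * Zc M n)
    (P' := nDn D M (y - x) (y - x) + 2 * Zc M n) (fun k => (key k).1) (fun k => (key k).2) ?_
  have hs := h.sum_size hR' (y - x)
  rw [abs_le] at hs
  nlinarith [hs.2]

end Pool.Agent.MP_f71fe7
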