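import Pool.Agent.MP_f71fe7.CornerA

set_option autoImplicit false

open scoped Pointwise Classical

namespace Pool.Agent.MP_f71fe7

/-- few integers between the corner and the maximum are missing -/
private theorem CornerG_miss {N Z x a1 : ℤ} {n : ℕ} {A : Finset ℤ} (hx : x ∈ A)
    (mA : ∀ a ∈ A, a ≤ a1) (cA : N - 1 ≤ (A.card : ℤ))
    (dx : (A.filter (fun a => a < x)).card ≤ n) (hw : a1 - x ≤ N + 3 * Z) :
    (((Finset.Icc x a1).filter (fun a => a ∉ A)).card : ℤ) ≤ 3 * Z + 2 + n ∧
      N - 2 - n ≤ a1 - x := by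
  have hxa : x ≤ a1 := mA x hx
  have h1 : ((Finset.Icc x a1).card : ℤ) = a1 - x + 1 := by
    rw [Int.card_Icc, Int.toNat_of_nonneg (by linarith)]
    ring
  have h2 : A.card ≤ (A.filter (fun a => a < x)).card +
      ((Finset.Icc x a1).filter (fun a => a ∈ A)).card := by
    rw [← Finset.card_filter_add_card_filter_not (s := A) (fun a => a < x)]
    refine Nat.add_le_add_left (Finset.card_le_card ?_) _
    intro a ha
    rw [Finset.mem_filter] at ha ⊢
    rw [Finset.mem_Icc]
    exact ⟨⟨not_lt.1 ha.2, mA a ha.1⟩, ha.1⟩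
  have h3 := Finset.card_filter_add_card_filter_not (s := Finset.Icc x a1) (fun a => a ∈ A)
  have h4 : ((A.filter (fun a => a < x)).card : ℤ) ≤ n := by exact_mod_cast dx
  have h5 : (A.card : ℤ) ≤ ((A.filter (fun a => a < x)).card : ℤ) +
      ((Finset.Icc x a1).filter (fun a => a ∈ A)).card := by exact_mod_cast h2
  have h6 : (((Finset.Icc x a1).filter (fun a => a ∈ A)).card : ℤ) +
      ((Finset.Icc x a1).filter (fun a => ¬ a ∈ A)).card = (Finset.Icc x a1).card := by
    exact_mod_cast h3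
  have h7 : (0 : ℤ) ≤ ((Finset.Icc x a1).filter (fun a => ¬ a ∈ A)).card :=
    Int.natCast_nonneg _
  constructor <;> linarith

/-- number of elements of a given parity -/
private theorem CornerG_parity {N M : ℤ} {S : Finset ℤ} (hM : 0 < M) (hM2 : 2 ∣ M)
    (szS : ∀ r : ℤ, |M * ((cls S M r).card : ℤ) - N| ≤ 10 * M ^ 2) (d : ℤ) :
    2 * ((S.filter (fun s => 2 ∣ s - d)).card : ℤ) ≤ N + 10 * M ^ 2 := by
  obtain ⟨m, rfl⟩ := hM2
  have hm : 0 < m := by linarith
  obtain ⟨k, rfl⟩ : ∃ k : ℕ, m = k := ⟨m.toNat, (Int.toNat_of_nonneg hm.le).symm⟩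
  have h1 : (S.filter (fun s => 2 ∣ s - d)).card ≤
      ∑ i ∈ Finset.range k, (cls S (2 * (k : ℤ)) (d + 2 * i)).card := by
    refine le_trans (Finset.card_le_card ?_) (Finset.card_biUnion_le (s := Finset.range k)
      (t := fun i => cls S (2 * (k : ℤ)) (d + 2 * (i : ℤ))))
    intro s hs
    rw [Finset.mem_filter] at hs
    obtain ⟨t, ht⟩ := hs.2
    rw [Finset.mem_biUnion]
    refine ⟨(t % k).toNat, ?_, ?_⟩
    · rw [Finset.mem_range]
      have h2 : t % (k : ℤ) < k := Int.emod_lt_of_pos _ hm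
      have h3 : 0 ≤ t % (k : ℤ) := Int.emod_nonneg _ hm.ne'
      omega
    · rw [cls, Finset.mem_filter]
      refine ⟨hs.1, ?_⟩
      have h3 : 0 ≤ t % (k : ℤ) := Int.emod_nonneg _ hm.ne'
      rw [Int.toNat_of_nonneg h3]
      refine ⟨t / k, ?_⟩
      have h4 := Int.emod_add_mul_ediv t (k : ℤ)
      have h5 : s = d + 2 * t := by linarith
      rw [h5]
      linear_combination (-2) * h4
  have h2 : (2 * (k : ℤ)) * ∑ i ∈ Finset.range k, ((cls S (2 * (k : ℤ)) (d + 2 * i)).card : ℤ) ≤
      k * (N + 10 * (2 * (k : ℤ)) ^ 2) := by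
    rw [Finset.mul_sum]
    have h3 : ∀ i ∈ Finset.range k,
        (2 * (k : ℤ)) * ((cls S (2 * (k : ℤ)) (d + 2 * i)).card : ℤ) ≤
          N + 10 * (2 * (k : ℤ)) ^ 2 := by
      intro i _
      have := (abs_le.1 (szS (d + 2 * i))).2
      linarith
    refine (Finset.sum_le_sum h3).trans ?_
    rw [Finset.sum_const, Finset.card_range, nsmul_eq_mul]
  have h3 : ((S.filter (fun s => 2 ∣ s - d)).card : ℤ) ≤
      ∑ i ∈ Finset.range k, ((cls S (2 * (k : ℤ)) (d + 2 * i)).card : ℤ) := by
    exact_mod_cast h1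
  have h4 : (k : ℤ) * (2 * ((S.filter (fun s => 2 ∣ s - d)).card : ℤ)) ≤
      k * (N + 10 * (2 * (k : ℤ)) ^ 2) := by
    have : (2 * (k : ℤ)) * ((S.filter (fun s => 2 ∣ s - d)).card : ℤ) ≤ _ :=
      mul_le_mul_of_nonneg_left h3 (by linarith)
    linarith
  exact le_of_mul_le_mul_left h4 hm

/-- Case gamma: both sides about `N`. If `d = y - x + δ ∉ D` then all sums `2 a + d` with
`a ∈ A`, `a + d ∈ B` in the box are in `S` and have the parity of `d`; there are at least
`N - |δ| - small` of them, but `S` has at most `N/2 + small` elements of each parity (`szS`, `M`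
even). So `D` contains all `d` with `|δ| < N/2 - small`. -/
theorem Corner.gamma {N M R x y a1 b1 : ℤ} {n : ℕ} {A B D S : Finset ℤ}
    (h : Corner N M R x y a1 b1 n A B D S)
    (hw : a1 - x ≤ N + 3 * Zc M n)
    (hh : b1 - y ≤ N + 3 * Zc M n) : Conc N D := by
  have hM := h.M0
  have hZY := Zc_ge hM n
  have hYn := Yc_ge hM n
  have hZN := Zc_le hM n h.nG h.big
  set Z := Zc M n with hZ
  have hM1 : 1 ≤ M := hM
  have hnZ : (n : ℤ) + 1 ≤ Z := by
    have h1 : 1 ≤ M ^ 5 := one_le_pow₀ hM1
    have h2 : (0 : ℤ) ≤ Yc M n := by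
      have : (0 : ℤ) ≤ n := Int.natCast_nonneg n
      linarith
    have h3 : Yc M n ≤ 10 ^ 11 * M ^ 5 * Yc M n := by
      have : (1 : ℤ) ≤ 10 ^ 11 * M ^ 5 := by linarith
      nlinarith
    linarith
  have hn0 : (0 : ℤ) ≤ n := Int.natCast_nonneg n
  obtain ⟨missA, hW⟩ := CornerG_miss h.hx h.mA h.conf.cA h.dx hw
  obtain ⟨missB, hH⟩ := CornerG_miss h.hy h.mB h.conf.cB h.dy hh
  set X : ℤ := 10 + 6 * n + 12 * Z + 10 * M ^ 2 with hX
  -- all `d` close to `y - x` are in `D`
  have key : ∀ d : ℤ, 2 * |d - (y - x)| < N - X → d ∈ D := by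
    intro d hd
    by_contra hdD
    set δ := d - (y - x) with hδ
    have habs := le_abs_self δ
    have habs' := neg_le_abs δ
    -- the range of `a`
    set I := Finset.Icc (x + max 0 (-δ)) (x + min (a1 - x) (b1 - y - δ)) with hI
    have hIc : N - 1 - n - |δ| ≤ (I.card : ℤ) := by
      rw [hI, Int.card_Icc]
      have h1 : max 0 (-δ) ≤ |δ| + 0 ∧ min (a1 - x) (b1 - y - δ) - max 0 (-δ) ≥ N - 2 - n - |δ| := by
        refine ⟨by rw [add_zero]; exact max_le (abs_nonneg _) habs', ?_⟩
        rcases le_total 0 δ with h0 | h0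
        · rw [max_eq_left (by linarith), abs_of_nonneg h0, ge_iff_le, sub_zero]
          exact le_min (by linarith) (by linarith)
        · rw [max_eq_right (by linarith), abs_of_nonpos h0, ge_iff_le]
          have : N - 2 - ↑n - -δ + -δ ≤ min (a1 - x) (b1 - y - δ) :=
            le_min (by linarith) (by linarith)
          linarith
      have h2 := Int.self_le_toNat
        (x + min (a1 - x) (b1 - y - δ) + 1 - (x + max 0 (-δ)))
      linarith [h1.2]
    have hIx : ∀ a ∈ I, a ∈ Finset.Icc x a1 ∧ a + d ∈ Finset.Icc y b1 := by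
      intro a ha
      rw [hI, Finset.mem_Icc] at ha
      have h1 := le_max_left 0 (-δ)
      have h2 := le_max_right 0 (-δ)
      have h3 := min_le_left (a1 - x) (b1 - y - δ)
      have h4 := min_le_right (a1 - x) (b1 - y - δ)
      rw [Finset.mem_Icc, Finset.mem_Icc]
      refine ⟨⟨by linarith, by linarith⟩, ⟨by linarith, by linarith⟩⟩
    -- the bad `a`
    have hbad1 : (I.filter (fun a => a ∉ A)).card ≤
        ((Finset.Icc x a1).filter (fun a => a ∉ A)).card := by
      refine Finset.card_le_card fun a ha => ?_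
      rw [Finset.mem_filter] at ha ⊢
      exact ⟨(hIx a ha.1).1, ha.2⟩
    have hbad2 : (I.filter (fun a => a + d ∉ B)).card ≤
        ((Finset.Icc y b1).filter (fun b => b ∉ B)).card := by
      refine Finset.card_le_card_of_injOn (fun a => a + d) ?_ ?_
      · intro a ha
        rw [Finset.mem_coe, Finset.mem_filter] at ha
        rw [Finset.mem_coe, Finset.mem_filter]
        exact ⟨(hIx a ha.1).2, ha.2⟩
      · intro a _ b _ hab
        exact add_right_cancel hab
    have hcov : I.card ≤ (I.filter (fun a => a ∉ A)).card + (I.filter (fun a => a + d ∉ B)).card +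
        (I.filter (fun a => a ∈ A ∧ a + d ∈ B)).card := by
      have h1 : I ⊆ (I.filter (fun a => a ∉ A) ∪ I.filter (fun a => a + d ∉ B)) ∪
          I.filter (fun a => a ∈ A ∧ a + d ∈ B) := by
        intro a ha
        simp only [Finset.mem_union, Finset.mem_filter]
        tauto
      refine (Finset.card_le_card h1).trans ((Finset.card_union_le _ _).trans ?_)
      exact Nat.add_le_add_right (Finset.card_union_le _ _) _
    have hgood : (I.filter (fun a => a ∈ A ∧ a + d ∈ B)).card ≤
        (S.filter (fun s => 2 ∣ s - d)).card := by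
      refine Finset.card_le_card_of_injOn (fun a => 2 * a + d) ?_ ?_
      · intro a ha
        rw [Finset.mem_coe, Finset.mem_filter] at ha
        rw [Finset.mem_coe, Finset.mem_filter]
        refine ⟨?_, ⟨a, by ring⟩⟩
        rcases h.conf.cov a ha.2.1 (a + d) ha.2.2 with h1 | h1
        · exact absurd (by simpa using h1) hdD
        · have e : 2 * a + d = a + (a + d) := by ring
          simp only [e]
          exact h1
      · intro a _ b _ hab
        simp only at hab
        linarith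
    have hpar := CornerG_parity hM h.M2 h.szS d
    have e1 : ((I.filter (fun a => a ∉ A)).card : ℤ) ≤ 3 * Z + 2 + n :=
      le_trans (by exact_mod_cast hbad1) missA
    have e2 : ((I.filter (fun a => a + d ∉ B)).card : ℤ) ≤ 3 * Z + 2 + n :=
      le_trans (by exact_mod_cast hbad2) missB
    have e3 : (I.card : ℤ) ≤ ((I.filter (fun a => a ∉ A)).card : ℤ) +
        (I.filter (fun a => a + d ∉ B)).card +
        (I.filter (fun a => a ∈ A ∧ a + d ∈ B)).card := by exact_mod_cast hcov
    have e4 : ((I.filter (fun a => a ∈ A ∧ a + d ∈ B)).card : ℤ) ≤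
        (S.filter (fun s => 2 ∣ s - d)).card := by exact_mod_cast hgood
    linarith
  -- number of the `d` close to `y - x`
  set T := N - X with hT
  set k := (T - 1) / 2 with hk
  set J := Finset.Icc ((y - x) - k) ((y - x) + k) with hJ
  have hXN : 1000 * (X + 2) ≤ N := by
    have h1 : (1 : ℤ) ≤ Z := by linarith
    have h2 : M ^ 2 ≤ M ^ 3 := pow_le_pow_right₀ hM1 (by norm_num)
    have h3 : (1 : ℤ) ≤ M ^ 3 := one_le_pow₀ hM1
    have h4 : M ^ 3 ≤ M ^ 3 * Z := by nlinarith
    have h5 : Z ≤ M ^ 3 * Z := by nlinarith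
    rw [hX]
    nlinarith
  have hJc : T - 1 ≤ (J.card : ℤ) := by
    rw [hJ, Int.card_Icc]
    have h1 := Int.self_le_toNat ((y - x) + k + 1 - ((y - x) - k))
    have h2 : T - 1 ≤ 2 * k + 1 := by omega
    linarith
  have hJD : J ⊆ D.filter (fun d => 2 * |d - (y - x)| < T) := by
    intro d hd
    rw [hJ, Finset.mem_Icc] at hd
    have h1 : |d - (y - x)| ≤ k := abs_le.2 ⟨by linarith, by linarith⟩
    have h2 : 2 * |d - (y - x)| < T := by omega
    rw [Finset.mem_filter]
    exact ⟨key d h2, h2⟩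
  have hsub : D.filter (fun d => 1001 * N < 1000 * |2 * d - 2 * (y - x)|) ⊆
      D.filter (fun d => ¬ 2 * |d - (y - x)| < T) := by
    intro d hd
    rw [Finset.mem_filter] at hd ⊢
    refine ⟨hd.1, ?_⟩
    have h1 : |2 * d - 2 * (y - x)| = 2 * |d - (y - x)| := by
      rw [← mul_sub, abs_mul]
      norm_num
    rw [h1] at hd
    have hM20 : 0 ≤ M ^ 2 := sq_nonneg M
    have h2 : 0 ≤ X := by rw [hX]; linarith
    have h3 : 0 ≤ N := by linarith
    have := hd.2
    rw [hT]
    intro h4
    linarith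
  have c1 := Finset.card_filter_add_card_filter_not (s := D) (fun d => 2 * |d - (y - x)| < T)
  have c2 := Finset.card_le_card hJD
  have c3 := Finset.card_le_card hsub
  have cD := h.conf.cD
  refine ⟨2 * (y - x), ?_⟩
  have c1' : ((D.filter (fun d => 2 * |d - (y - x)| < T)).card : ℤ) +
      (D.filter (fun d => ¬ 2 * |d - (y - x)| < T)).card = D.card := by exact_mod_cast c1
  have c2' : (J.card : ℤ) ≤ (D.filter (fun d => 2 * |d - (y - x)| < T)).card := by
    exact_mod_cast c2
  have c3' : ((D.filter (fun d => 1001 * N < 1000 * |2 * d - 2 * (y - x)|)).card : ℤ) ≤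
      (D.filter (fun d => ¬ 2 * |d - (y - x)| < T)).card := by exact_mod_cast c3
  have hfin : ((D.filter (fun d => 1001 * N < 1000 * |2 * d - 2 * (y - x)|)).card : ℤ) ≤ X + 2 := by
    linarith
  linarith

end Pool.Agent.MP_f71fe7
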