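import Pool.Agent.MP_f71fe7.CornerB
import Pool.Agent.MP_f71fe7.CornerC
import Pool.Agent.MP_f71fe7.CornerF
import Pool.Agent.MP_f71fe7.CornerG

set_option autoImplicit false

open scoped Pointwise Classical

namespace Pool.Agent.MP_f71fe7

theorem Corner.conc {N M R x y a1 b1 : ℤ} {n : ℕ} {A B D S : Finset ℤ}
    (h : Corner N M R x y a1 b1 n A B D S) (hR : R + 2 * M ≤ 8 * M) : Conc N D := by
  have hM := h.M0
  have hZ0 : 0 < Zc M n := by unfold Zc; positivity
  have hT := h.transpose (by linarith)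
  by_cases h1 : Zc M n ≤ (a1 - x) - (b1 - y)
  · exact h.alpha (by linarith) h1
  by_cases h2 : Zc M n ≤ (b1 - y) - (a1 - x)
  · exact (hT.alpha (by linarith) h2).neg
  push Not at h1 h2
  by_cases h3 : N + 3 * Zc M n < a1 - x
  · exact h.beta hR (by linarith) (by linarith)
  by_cases h4 : N + 3 * Zc M n < b1 - y
  · exact h.beta hR (by linarith) (by linarith)
  push Not at h3 h4
  exact h.gamma h3 h4

/-- Main theorem of this file. -/
theorem conc_main {N M : ℤ} {A B D S : Finset ℤ} (h : Conf N A B D S) (hM0 : 0 < M)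
    (hM2 : 2 ∣ M) (big : (200 * M) ^ 5000 ≤ N)
    (npA : NP A M 1000 (6 * M)) (npB : NP B M 1000 (6 * M)) (npD : NP D M 1000 (6 * M))
    (npS : NP S M 1000 (6 * M))
    (szA : ∀ r : ℤ, |M * ((cls A M r).card : ℤ) - N| ≤ 10 * M ^ 2)
    (szB : ∀ r : ℤ, |M * ((cls B M r).card : ℤ) - N| ≤ 10 * M ^ 2)
    (szD : ∀ r : ℤ, |M * ((cls D M r).card : ℤ) - N| ≤ 10 * M ^ 2)
    (szS : ∀ r : ℤ, |M * ((cls S M r).card : ℤ) - N| ≤ 10 * M ^ 2) : Conc N D := by
  obtain ⟨x, y, a1, b1, n, hcor⟩ := exists_corner h hM0 hM2 (by linarith : 0 ≤ 6 * M)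
    (by linarith) big npA npB npD npS szA szB szD szS
  exact hcor.conc (by linarith)

end Pool.Agent.MP_f71fe7
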