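import Pool.Agent.MP_f71fe7.SideB

/-!
Concentration of `D` when all residue classes modulo `M` are met.

`G = 200 M`. All error terms are at most powers of `G`, and `N ≥ G ^ 5000`.
-/

set_option autoImplicit false

open scoped Pointwise Classical

namespace Pool.Agent.MP_f71fe7

/-- Size of the usable windows. -/
def Yc (M : ℤ) (n : ℕ) : ℤ := (n + 1) * (200 * M) ^ 1000

/-- Basic error term. -/
def Zc (M : ℤ) (n : ℕ) : ℤ := (n + 1) * (200 * M) ^ 1005

theorem Yc_ge {M : ℤ} (hM : 0 < M) (n : ℕ) : (n : ℤ) + 1 ≤ Yc M n := by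
  unfold Yc
  have h1 : (1 : ℤ) ≤ (200 * M) ^ 1000 := one_le_pow₀ (by omega)
  have h2 : (0 : ℤ) ≤ (n : ℤ) + 1 := by positivity
  calc (n : ℤ) + 1 = ((n : ℤ) + 1) * 1 := by ring
    _ ≤ ((n : ℤ) + 1) * (200 * M) ^ 1000 := mul_le_mul_of_nonneg_left h1 h2

theorem Zc_ge {M : ℤ} (hM : 0 < M) (n : ℕ) : 10 ^ 11 * M ^ 5 * Yc M n ≤ Zc M n := by
  unfold Yc Zc
  have h3 : (200 * M) ^ 1005 = (200 * M) ^ 1000 * (200 * M) ^ 5 := by
    rw [← pow_add]
  rw [h3]
  generalize hG : (200 * M) ^ 1000 = G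
  have h1 : (0 : ℤ) ≤ G := by rw [← hG]; positivity
  have h2 : (0 : ℤ) ≤ (n : ℤ) + 1 := by positivity
  have h4 : (10 : ℤ) ^ 11 * M ^ 5 ≤ (200 * M) ^ 5 := by
    rw [mul_pow]
    have : (0 : ℤ) ≤ M ^ 5 := by positivity
    nlinarith
  calc 10 ^ 11 * M ^ 5 * (((n : ℤ) + 1) * G) = (((n : ℤ) + 1) * G) * (10 ^ 11 * M ^ 5) := by ring
    _ ≤ (((n : ℤ) + 1) * G) * (200 * M) ^ 5 := mul_le_mul_of_nonneg_left h4 (mul_nonneg h2 h1)
    _ = ((n : ℤ) + 1) * (G * (200 * M) ^ 5) := by ring

theorem Zc_le {M N : ℤ} (hM : 0 < M) (n : ℕ) (hn : (n : ℤ) ≤ (200 * M) ^ 2000)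
    (big : (200 * M) ^ 5000 ≤ N) : 10 ^ 12 * M ^ 3 * Zc M n ≤ N := by
  unfold Zc
  have hG1 : (1 : ℤ) ≤ 200 * M := by omega
  have h1 : (n : ℤ) + 1 ≤ 2 * (200 * M) ^ 2000 := by
    have : (1 : ℤ) ≤ (200 * M) ^ 2000 := one_le_pow₀ hG1
    linarith
  have h2 : (10 : ℤ) ^ 12 * M ^ 3 * 2 ≤ (200 * M) ^ 6 := by
    rw [mul_pow]
    have h3 : (0 : ℤ) ≤ M ^ 3 := by positivity
    have h4 : M ^ 3 ≤ M ^ 6 := pow_le_pow_right₀ (by omega) (by norm_num)
    nlinarith
  have h5 : (0 : ℤ) ≤ (200 * M) ^ 1005 := by positivity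
  have h6 : (0 : ℤ) ≤ (200 * M) ^ 2000 := by positivity
  have h7 : (0 : ℤ) ≤ 10 ^ 12 * M ^ 3 := by positivity
  calc 10 ^ 12 * M ^ 3 * (((n : ℤ) + 1) * (200 * M) ^ 1005)
      ≤ 10 ^ 12 * M ^ 3 * ((2 * (200 * M) ^ 2000) * (200 * M) ^ 1005) :=
        mul_le_mul_of_nonneg_left (mul_le_mul_of_nonneg_right h1 h5) h7
    _ = (10 ^ 12 * M ^ 3 * 2) * ((200 * M) ^ 2000 * (200 * M) ^ 1005) := by ring
    _ ≤ (200 * M) ^ 6 * ((200 * M) ^ 2000 * (200 * M) ^ 1005) :=
        mul_le_mul_of_nonneg_right h2 (mul_nonneg h6 h5)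
    _ = (200 * M) ^ 3011 := by rw [← pow_add, ← pow_add]
    _ ≤ (200 * M) ^ 5000 := pow_le_pow_right₀ hG1 (by norm_num)
    _ ≤ N := big

/-- Almost all of `D` lies in an interval of length `1.001 N`. -/
def Conc (N : ℤ) (D : Finset ℤ) : Prop :=
  ∃ c : ℤ, 1000 * ((D.filter (fun d => 1001 * N < 1000 * |2 * d - c|)).card : ℤ) ≤ N

theorem Conc.neg {N : ℤ} {D : Finset ℤ} (h : Conc N (-D)) : Conc N D := by
  obtain ⟨c, hc⟩ := h
  refine ⟨-c, ?_⟩
  have e : (D.filter (fun d => 1001 * N < 1000 * |2 * d - -c|)).card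
      = ((-D).filter (fun d => 1001 * N < 1000 * |2 * d - c|)).card := by
    apply Finset.card_bij (fun a _ => -a)
    · intro a ha
      simp only [Finset.mem_filter, Finset.mem_neg', neg_neg] at ha ⊢
      refine ⟨ha.1, ?_⟩
      have : |2 * -a - c| = |2 * a - -c| := by
        rw [← abs_neg]
        congr 1
        ring
      rw [this]
      exact ha.2
    · intro a _ b _ hab
      exact neg_injective hab
    · intro b hb
      simp only [Finset.mem_filter, Finset.mem_neg'] at hb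
      refine ⟨-b, ?_, by simp⟩
      simp only [Finset.mem_filter]
      refine ⟨hb.1, ?_⟩
      have : |2 * -b - -c| = |2 * b - c| := by
        rw [← abs_neg]
        congr 1
        ring
      rw [this]
      exact hb.2
  rw [e]
  exact hc

/-- Data of a corner `(x,y)` of the reduced box `[x,a1] x [y,b1]`. -/
structure Corner (N M R x y a1 b1 : ℤ) (n : ℕ) (A B D S : Finset ℤ) : Prop where
  conf : Conf N A B D S
  M0 : 0 < M
  M2 : 2 ∣ M
  R0 : 0 ≤ R
  R8 : R ≤ 8 * M
  big : (200 * M) ^ 5000 ≤ N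
  npA : NP A M 1000 R
  npB : NP B M 1000 R
  npD : NP D M 1000 R
  npS : NP S M 1000 R
  szA : ∀ r : ℤ, |M * ((cls A M r).card : ℤ) - N| ≤ 10 * M ^ 2
  szB : ∀ r : ℤ, |M * ((cls B M r).card : ℤ) - N| ≤ 10 * M ^ 2
  szD : ∀ r : ℤ, |M * ((cls D M r).card : ℤ) - N| ≤ 10 * M ^ 2
  szS : ∀ r : ℤ, |M * ((cls S M r).card : ℤ) - N| ≤ 10 * M ^ 2
  hx : x ∈ A
  hy : y ∈ B
  ha1 : a1 ∈ A
  hb1 : b1 ∈ B
  mA : ∀ a ∈ A, a ≤ a1
  mB : ∀ b ∈ B, b ≤ b1
  n1 : 1 ≤ n
  nG : (n : ℤ) ≤ (200 * M) ^ 2000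
  dx : (A.filter (fun a => a < x)).card ≤ n
  dy : (B.filter (fun b => b < y)).card ≤ n
  rx : ∀ t : ℤ, 0 ≤ t → t ≤ 100 * n → x + t * M ∈ A
  ry : ∀ t : ℤ, 0 ≤ t → t ≤ 100 * n → y + t * M ∈ B

/-- The corner data are symmetric (the radius grows by `M` because of `-D`). -/
theorem Corner.transpose {N M R x y a1 b1 : ℤ} {n : ℕ} {A B D S : Finset ℤ}
    (h : Corner N M R x y a1 b1 n A B D S) (hR : R + M ≤ 8 * M) :
    Corner N M (R + M) y x b1 a1 n B A (-D) S := by
  have hM := h.M0
  exact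
    { conf := h.conf.transpose
      M0 := h.M0
      M2 := h.M2
      R0 := by have := h.R0; linarith
      R8 := hR
      big := h.big
      npA := h.npB.mono le_rfl (by linarith)
      npB := h.npA.mono le_rfl (by linarith)
      npD := h.npD.neg hM.le
      npS := h.npS.mono le_rfl (by linarith)
      szA := h.szB
      szB := h.szA
      szD := by
        intro r
        rw [card_cls_neg]
        exact h.szD (-r)
      szS := h.szS
      hx := h.hy
      hy := h.hx
      ha1 := h.hb1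
      hb1 := h.ha1
      mA := h.mB
      mB := h.mA
      n1 := h.n1
      nG := h.nG
      dx := h.dy
      dy := h.dx
      rx := h.ry
      ry := h.rx }

/-- Number of elements of `D` in the class of `k` reached upward from `c`. -/
noncomputable def nUp (D : Finset ℤ) (M c k : ℤ) : ℕ :=
  (D.filter (fun d => M ∣ d - k ∧ Up D M c d)).card

/-- Number of elements of `D` in the class of `k` reached downward from `c`. -/
noncomputable def nDn (D : Finset ℤ) (M c k : ℤ) : ℕ :=
  (D.filter (fun d => M ∣ d - k ∧ Dn D M c d)).card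

theorem CornerA_dn_iff {D : Finset ℤ} {M c d : ℤ} : Dn D M c d ↔ Up (-D) M (-c) (-d) := by
  unfold Dn Up
  constructor
  · rintro ⟨h1, h2⟩
    refine ⟨by linarith, fun t ht h3 => ?_⟩
    rw [Finset.mem_neg']
    have e : -(-d - t * M) = d + t * M := by ring
    rw [e]
    exact h2 t ht (by linarith)
  · rintro ⟨h1, h2⟩
    refine ⟨by linarith, fun t ht h3 => ?_⟩
    have := h2 t ht (by linarith)
    rw [Finset.mem_neg'] at this
    have e : -(-d - t * M) = d + t * M := by ring
    rwa [e] at this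

theorem nDn_eq {D : Finset ℤ} {M c k : ℤ} : nDn D M c k = nUp (-D) M (-c) (-k) := by
  unfold nDn nUp
  apply Finset.card_bij (fun a _ => -a)
  · intro a ha
    simp only [Finset.mem_filter, Finset.mem_neg', neg_neg] at ha ⊢
    refine ⟨ha.1, ?_, CornerA_dn_iff.mp ha.2.2⟩
    have : -a - -k = -(a - k) := by ring
    rw [this, dvd_neg]
    exact ha.2.1
  · intro a _ b _ hab
    exact neg_injective hab
  · intro b hb
    simp only [Finset.mem_filter, Finset.mem_neg'] at hb
    refine ⟨-b, ?_, by simp⟩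
    simp only [Finset.mem_filter]
    refine ⟨hb.1, ?_, ?_⟩
    · have : -b - k = -(b - -k) := by ring
      rw [this, dvd_neg]
      exact hb.2.1
    · rw [CornerA_dn_iff, neg_neg]
      exact hb.2.2

/-- Going down keeps `Up`. -/
theorem CornerA_up_down {D : Finset ℤ} {M c d : ℤ} (h : Up D M c d) {s : ℤ} (hs : 0 ≤ s)
    (hc : c ≤ d - s * M) : Up D M c (d - s * M) := by
  refine ⟨hc, fun t ht h3 => ?_⟩
  have e : d - s * M - t * M = d - (s + t) * M := by ring
  rw [e] at h3 ⊢
  exact h.2 (s + t) (by linarith) h3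

/-- An element reached upward is within `nUp` steps. -/
theorem Up.lt {D : Finset ℤ} {M c d : ℤ} (hM : 0 < M) (h : Up D M c d) :
    d < c + nUp D M c d * M := by
  have hq0 : 0 ≤ (d - c) / M := Int.ediv_nonneg (by have := h.1; linarith) hM.le
  have hq1 : (d - c) / M * M ≤ d - c := Int.ediv_mul_le _ hM.ne'
  have hq2 : d - c < ((d - c) / M + 1) * M := Int.lt_ediv_add_one_mul_self _ hM
  have key : ((d - c) / M).toNat + 1 ≤ nUp D M c d := by
    unfold nUp
    have : (Finset.image (fun t : ℕ => d - (t : ℤ) * M)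
        (Finset.range (((d - c) / M).toNat + 1))).card = ((d - c) / M).toNat + 1 := by
      rw [Finset.card_image_of_injective, Finset.card_range]
      intro s t hst
      have h1 : (s : ℤ) * M = (t : ℤ) * M := by
        have : d - (s : ℤ) * M = d - (t : ℤ) * M := hst
        linarith
      exact_mod_cast mul_right_cancel₀ hM.ne' h1
    rw [← this]
    apply Finset.card_le_card
    intro e he
    rw [Finset.mem_image] at he
    obtain ⟨t, ht, rfl⟩ := he
    rw [Finset.mem_range] at ht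
    have ht0 : (0 : ℤ) ≤ t := by positivity
    have ht1 : (t : ℤ) ≤ (d - c) / M := by omega
    have ht2 : (t : ℤ) * M ≤ (d - c) / M * M := mul_le_mul_of_nonneg_right ht1 hM.le
    have hc : c ≤ d - (t : ℤ) * M := by linarith
    rw [Finset.mem_filter]
    refine ⟨h.2 t ht0 hc, ?_, CornerA_up_down h ht0 hc⟩
    exact ⟨-t, by ring⟩
  have key2 : (d - c) / M + 1 ≤ (nUp D M c d : ℤ) := by omega
  have key3 : ((d - c) / M + 1) * M ≤ (nUp D M c d : ℤ) * M :=
    mul_le_mul_of_nonneg_right key2 hM.le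
  linarith

theorem Dn.lt {D : Finset ℤ} {M c d : ℤ} (hM : 0 < M) (h : Dn D M c d) :
    c - nDn D M c d * M < d := by
  have := Up.lt hM (CornerA_dn_iff.mp h)
  rw [nDn_eq]
  linarith

/-- Conversely, an element `d ≡ k`, `c ≤ d < c + nUp M`, is reached upward. -/
theorem up_of_lt {D : Finset ℤ} {M c k d : ℤ} (hM : 0 < M) (hk : M ∣ d - k) (h0 : c ≤ d)
    (h1 : d < c + nUp D M c k * M) : Up D M c d := by
  by_contra hn
  have hq0 : 0 ≤ (d - c) / M := Int.ediv_nonneg (by linarith) hM.le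
  have hq1 : (d - c) / M * M ≤ d - c := Int.ediv_mul_le _ hM.ne'
  have key : nUp D M c k ≤ ((d - c) / M).toNat := by
    unfold nUp
    have h2 : D.filter (fun e => M ∣ e - k ∧ Up D M c e)
        ⊆ (Finset.range (((d - c) / M).toNat)).image (fun t : ℕ => d - ((t : ℤ) + 1) * M) := by
      intro e he
      rw [Finset.mem_filter] at he
      obtain ⟨heD, hek, heU⟩ := he
      have hde : M ∣ d - e := by
        have : d - e = (d - k) - (e - k) := by ring
        rw [this]
        exact dvd_sub hk hek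
      obtain ⟨s, hs⟩ := hde
      have hs1 : 0 < s := by
        by_contra hs0
        push Not at hs0
        apply hn
        have e1 : d = e - (-s) * M := by
          have : d - e = M * s := hs
          linarith [this]
        rw [e1]
        exact CornerA_up_down heU (by linarith) (by rw [← e1]; exact h0)
      have hs2 : s ≤ (d - c) / M := by
        rw [Int.le_ediv_iff_mul_le hM]
        have := heU.1
        linarith
      rw [Finset.mem_image]
      refine ⟨(s - 1).toNat, ?_, ?_⟩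
      · rw [Finset.mem_range]
        omega
      · have : (((s - 1).toNat : ℕ) : ℤ) = s - 1 := Int.toNat_of_nonneg (by omega)
        simp only [this]
        linarith
    exact (Finset.card_le_card h2).trans (Finset.card_image_le.trans (by rw [Finset.card_range]))
  have key2 : (nUp D M c k : ℤ) ≤ (d - c) / M := by omega
  have key3 : (nUp D M c k : ℤ) * M ≤ (d - c) / M * M := mul_le_mul_of_nonneg_right key2 hM.le
  linarith

theorem dn_of_lt {D : Finset ℤ} {M c k d : ℤ} (hM : 0 < M) (hk : M ∣ d - k) (h0 : d ≤ c)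
    (h1 : c - nDn D M c k * M < d) : Dn D M c d := by
  rw [CornerA_dn_iff]
  rw [nDn_eq] at h1
  apply up_of_lt hM (k := -k) _ (by linarith) (by linarith)
  have : -d - -k = -(d - k) := by ring
  rw [this, dvd_neg]
  exact hk

/-- Exceptional rows of the column `x` of a corner. -/
theorem Corner.excx {N M R x y a1 b1 : ℤ} {n : ℕ} {A B D S : Finset ℤ}
    (h : Corner N M R x y a1 b1 n A B D S) (hyb : y ≤ b1) :
    (Exc B D S x y b1).card ≤ 12 + 4 * n := by
  have h1 := h.conf.exc_le h.hx h.hy h.hb1 hyb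
  have h2 := h.dx
  have h3 : (B.filter (fun b => b < y ∨ b1 < b)).card ≤ n := by
    refine (Finset.card_le_card ?_).trans h.dy
    intro b hb
    rw [Finset.mem_filter] at hb ⊢
    refine ⟨hb.1, ?_⟩
    rcases hb.2 with h4 | h4
    · exact h4
    · exact absurd (h.mB b hb.1) (by linarith)
  omega

/-- All but few elements of `D` are reached from `c = y - x`, upward or downward. -/
theorem Corner.decomp {N M R x y a1 b1 : ℤ} {n : ℕ} {A B D S : Finset ℤ}
    (h : Corner N M R x y a1 b1 n A B D S) (hR : R + M ≤ 8 * M) :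
    ((D.filter (fun d => ¬ Up D M (y - x) d ∧ ¬ Dn D M (y - x) d)).card : ℤ)
      ≤ 2 * 10 ^ 6 * n * M := by
  have hM := h.M0
  have hn := h.n1
  have ht := h.transpose hR
  have h1 := few_D h.conf.cov (x := x) (b0 := y) (b1 := b1) (M := M) (lam := 100 * n) (R := R)
    (E := 12 + 4 * n) hM h.rx (h.excx (h.mB y h.hy)) (by push_cast; omega) (by omega) h.R0
    (by linarith) h.npD
  have h2 := few_D ht.conf.cov (x := y) (b0 := x) (b1 := a1) (M := M) (lam := 100 * n) (R := R + M)
    (E := 12 + 4 * n) hM h.ry (ht.excx (h.mA x h.hx)) (by push_cast; omega) (by omega) ht.R0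
    hR ht.npD
  have h3 := h.conf.out_le (u := x) (v := a1) (p := y) (q := b1)
    ⟨x, by rw [Finset.mem_filter]; exact ⟨h.hx, le_rfl, h.mA x h.hx⟩⟩
    ⟨y, by rw [Finset.mem_filter]; exact ⟨h.hy, le_rfl, h.mB y h.hy⟩⟩
  have h4 : (A.filter (fun a => a < x ∨ a1 < a)).card ≤ n := by
    refine (Finset.card_le_card ?_).trans h.dx
    intro b hb
    rw [Finset.mem_filter] at hb ⊢
    refine ⟨hb.1, ?_⟩
    rcases hb.2 with h5 | h5
    · exact h5
    · exact absurd (h.mA b hb.1) (by linarith)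
  have h5 : (B.filter (fun b => b < y ∨ b1 < b)).card ≤ n := by
    refine (Finset.card_le_card ?_).trans h.dy
    intro b hb
    rw [Finset.mem_filter] at hb ⊢
    refine ⟨hb.1, ?_⟩
    rcases hb.2 with h5 | h5
    · exact h5
    · exact absurd (h.mB b hb.1) (by linarith)
  have h6 : (D.filter (fun d => ¬ Up D M (y - x) d ∧ ¬ Dn D M (y - x) d)).card
      ≤ (D.filter (fun d => y - x ≤ d ∧ d ≤ b1 - x ∧ ¬ Up D M (y - x) d)).card
      + ((-D).filter (fun d => x - y ≤ d ∧ d ≤ a1 - y ∧ ¬ Up (-D) M (x - y) d)).card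
      + (D.filter (fun d => d < y - a1 ∨ b1 - x < d)).card := by
    have e : ((-D).filter (fun d => x - y ≤ d ∧ d ≤ a1 - y ∧ ¬ Up (-D) M (x - y) d)).card
        = (D.filter (fun d => y - a1 ≤ d ∧ d ≤ y - x ∧ ¬ Dn D M (y - x) d)).card := by
      symm
      apply Finset.card_bij (fun a _ => -a)
      · intro a ha
        simp only [Finset.mem_filter, Finset.mem_neg', neg_neg] at ha ⊢
        refine ⟨ha.1, by linarith [ha.2.2.1], by linarith [ha.2.1], ?_⟩
        have := ha.2.2.2
        rw [CornerA_dn_iff] at this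
        have e2 : -(y - x) = x - y := by ring
        rwa [e2] at this
      · intro a _ b _ hab
        exact neg_injective hab
      · intro b hb
        simp only [Finset.mem_filter, Finset.mem_neg'] at hb
        refine ⟨-b, ?_, by simp⟩
        simp only [Finset.mem_filter]
        refine ⟨hb.1, by linarith [hb.2.2.1], by linarith [hb.2.1], ?_⟩
        rw [CornerA_dn_iff, neg_neg]
        have e2 : -(y - x) = x - y := by ring
        rw [e2]
        exact hb.2.2.2
    rw [e]
    refine (Finset.card_le_card (t := (D.filter (fun d => y - x ≤ d ∧ d ≤ b1 - x ∧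
      ¬ Up D M (y - x) d)) ∪ (D.filter (fun d => y - a1 ≤ d ∧ d ≤ y - x ∧ ¬ Dn D M (y - x) d))
      ∪ (D.filter (fun d => d < y - a1 ∨ b1 - x < d))) ?_).trans
      ((Finset.card_union_le _ _).trans (Nat.add_le_add_right (Finset.card_union_le _ _) _))
    intro d hd
    rw [Finset.mem_filter] at hd
    simp only [Finset.mem_union, Finset.mem_filter]
    by_cases c1 : d < y - a1 ∨ b1 - x < d
    · right; exact ⟨hd.1, c1⟩
    · push Not at c1
      left
      rcases le_total (y - x) d with c2 | c2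
      · left; exact ⟨hd.1, c2, c1.2, hd.2.1⟩
      · right; exact ⟨hd.1, c1.1, c2, hd.2.2⟩
  have h7 : (D.filter (fun d => d < y - a1 ∨ b1 - x < d)).card ≤ 6 + 2 * n := by omega
  have h8 : ((D.filter (fun d => ¬ Up D M (y - x) d ∧ ¬ Dn D M (y - x) d)).card : ℤ)
      ≤ 40000 * ((12 + 4 * n : ℕ) : ℤ) * M + 40000 * ((12 + 4 * n : ℕ) : ℤ) * M
        + (6 + 2 * (n : ℤ)) := by
    zify at h6 h7
    linarith
  have hn' : (1 : ℤ) ≤ n := by exact_mod_cast hn
  have hnM : (1 : ℤ) ≤ n * M := by nlinarith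
  push_cast at h8
  nlinarith

/-- Sizes: `nUp + nDn` is about `N / M` for every class. -/
theorem Corner.sum_size {N M R x y a1 b1 : ℤ} {n : ℕ} {A B D S : Finset ℤ}
    (h : Corner N M R x y a1 b1 n A B D S) (hR : R + M ≤ 8 * M) (k : ℤ) :
    |M * ((nUp D M (y - x) k : ℤ) + nDn D M (y - x) k) - N| ≤ 3 * 10 ^ 6 * n * M ^ 2 := by
  have hM := h.M0
  have hn := h.n1
  have h1 := h.decomp hR
  have h2 := h.szD k
  -- the class is covered by the reached elements and the others
  have h3 : (cls D M k).card ≤ nUp D M (y - x) k + nDn D M (y - x) k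
      + (D.filter (fun d => ¬ Up D M (y - x) d ∧ ¬ Dn D M (y - x) d)).card := by
    unfold nUp nDn cls
    refine (Finset.card_le_card (t := (D.filter (fun d => M ∣ d - k ∧ Up D M (y - x) d))
      ∪ (D.filter (fun d => M ∣ d - k ∧ Dn D M (y - x) d))
      ∪ (D.filter (fun d => ¬ Up D M (y - x) d ∧ ¬ Dn D M (y - x) d))) ?_).trans
      ((Finset.card_union_le _ _).trans (Nat.add_le_add_right (Finset.card_union_le _ _) _))
    intro d hd
    rw [Finset.mem_filter] at hd
    simp only [Finset.mem_union, Finset.mem_filter]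
    by_cases c1 : Up D M (y - x) d
    · left; left; exact ⟨hd.1, hd.2, c1⟩
    · by_cases c2 : Dn D M (y - x) d
      · left; right; exact ⟨hd.1, hd.2, c2⟩
      · right; exact ⟨hd.1, c1, c2⟩
  have h4 : nUp D M (y - x) k + nDn D M (y - x) k ≤ (cls D M k).card + 1 := by
    unfold nUp nDn
    rw [← Finset.card_union_add_card_inter]
    apply Nat.add_le_add
    · apply Finset.card_le_card
      intro d hd
      simp only [Finset.mem_union, Finset.mem_filter, cls] at hd ⊢
      rcases hd with hd | hd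
      · exact ⟨hd.1, hd.2.1⟩
      · exact ⟨hd.1, hd.2.1⟩
    · rw [Finset.card_le_one]
      intro a ha b hb
      simp only [Finset.mem_inter, Finset.mem_filter] at ha hb
      have a1 := ha.1.2.2.1
      have a2 := ha.2.2.2.1
      have b1 := hb.1.2.2.1
      have b2 := hb.2.2.2.1
      linarith
  have hn' : (1 : ℤ) ≤ n := by exact_mod_cast hn
  have hM1 : (1 : ℤ) ≤ M := hM
  zify at h3 h4
  generalize (nUp D M (y - x) k : ℤ) = p at *
  generalize (nDn D M (y - x) k : ℤ) = q at *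
  generalize ((cls D M k).card : ℤ) = w at *
  generalize ((D.filter (fun d => ¬ Up D M (y - x) d ∧ ¬ Dn D M (y - x) d)).card : ℤ) = v at *
  rw [abs_le] at h2 ⊢
  have e1 : M * w ≤ M * (p + q + v) := mul_le_mul_of_nonneg_left h3 hM.le
  have e2 : M * (p + q) ≤ M * (w + 1) := mul_le_mul_of_nonneg_left h4 hM.le
  have e3 : M * v ≤ M * (2 * 10 ^ 6 * n * M) := mul_le_mul_of_nonneg_left h1 hM.le
  have e4 : M ^ 2 ≤ n * M ^ 2 := by nlinarith [sq_nonneg M]
  have e5 : M ≤ M ^ 2 := by nlinarith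
  have e6 : M * (2 * 10 ^ 6 * n * M) = 2 * 10 ^ 6 * (n * M ^ 2) := by ring
  constructor
  · nlinarith
  · nlinarith

/-- Concentration from bounds. -/
theorem Corner.conc_of_bounds {N M R x y a1 b1 : ℤ} {n : ℕ} {A B D S : Finset ℤ}
    (h : Corner N M R x y a1 b1 n A B D S) (hR : R + M ≤ 8 * M) {P P' : ℤ}
    (hP : ∀ k : ℤ, (nUp D M (y - x) k : ℤ) ≤ P) (hP' : ∀ k : ℤ, (nDn D M (y - x) k : ℤ) ≤ P')
    (hPP : 1000 * ((P + P') * M) ≤ 1001 * N) : Conc N D := by
  have hM := h.M0
  have hn := h.n1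
  have h1 := h.decomp hR
  have hP0 : 0 ≤ P := le_trans (by positivity) (hP 0)
  have hP0' : 0 ≤ P' := le_trans (by positivity) (hP' 0)
  refine ⟨2 * (y - x) + (P - P') * M, ?_⟩
  have h2 : (D.filter (fun d => 1001 * N < 1000 * |2 * d - (2 * (y - x) + (P - P') * M)|)).card
      ≤ (D.filter (fun d => ¬ Up D M (y - x) d ∧ ¬ Dn D M (y - x) d)).card := by
    apply Finset.card_le_card
    intro d hd
    rw [Finset.mem_filter] at hd ⊢
    refine ⟨hd.1, ?_, ?_⟩
    · intro hU
      have u1 := hU.1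
      have u2 := hU.lt hM
      have u3 : (nUp D M (y - x) d : ℤ) * M ≤ P * M := mul_le_mul_of_nonneg_right (hP d) hM.le
      have u4 : |2 * d - (2 * (y - x) + (P - P') * M)| ≤ (P + P') * M := by
        rw [abs_le]
        have u5 : 0 ≤ P * M := mul_nonneg hP0 hM.le
        have u6 : 0 ≤ P' * M := mul_nonneg hP0' hM.le
        constructor
        · nlinarith
        · nlinarith
      linarith [hd.2]
    · intro hU
      have u1 := hU.1
      have u2 := hU.lt hM
      have u3 : (nDn D M (y - x) d : ℤ) * M ≤ P' * M := mul_le_mul_of_nonneg_right (hP' d) hM.le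
      have u4 : |2 * d - (2 * (y - x) + (P - P') * M)| ≤ (P + P') * M := by
        rw [abs_le]
        have u5 : 0 ≤ P * M := mul_nonneg hP0 hM.le
        have u6 : 0 ≤ P' * M := mul_nonneg hP0' hM.le
        constructor
        · nlinarith
        · nlinarith
      linarith [hd.2]
  have h3 : 1000 * ((2 : ℤ) * 10 ^ 6 * n * M) ≤ N := by
    have hG1 : (1 : ℤ) ≤ 200 * M := by omega
    have hnG := h.nG
    have hbig := h.big
    have c1 : (2 : ℤ) * 10 ^ 9 * M ≤ (200 * M) ^ 5 := by
      rw [mul_pow]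
      have : M ≤ M ^ 5 := by
        calc M = M ^ 1 := (pow_one M).symm
          _ ≤ M ^ 5 := pow_le_pow_right₀ (by omega) (by norm_num)
      nlinarith
    have c2 : (0 : ℤ) ≤ (200 * M) ^ 2000 := by positivity
    have c3 : (0 : ℤ) ≤ 2 * 10 ^ 9 * M := by positivity
    calc 1000 * ((2 : ℤ) * 10 ^ 6 * n * M) = 2 * 10 ^ 9 * M * n := by ring
      _ ≤ 2 * 10 ^ 9 * M * (200 * M) ^ 2000 := mul_le_mul_of_nonneg_left hnG c3
      _ ≤ (200 * M) ^ 5 * (200 * M) ^ 2000 := mul_le_mul_of_nonneg_right c1 c2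
      _ = (200 * M) ^ 2005 := by rw [← pow_add]
      _ ≤ (200 * M) ^ 5000 := pow_le_pow_right₀ hG1 (by norm_num)
      _ ≤ N := hbig
  have h4 : ((D.filter (fun d => 1001 * N
      < 1000 * |2 * d - (2 * (y - x) + (P - P') * M)|)).card : ℤ)
      ≤ 2 * 10 ^ 6 * n * M := le_trans (by exact_mod_cast h2) h1
  linarith

end Pool.Agent.MP_f71fe7
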