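import Pool.Agent.MP_f71fe7.CornerA

set_option autoImplicit false

open scoped Pointwise Classical

namespace Pool.Agent.MP_f71fe7

/-- The element of rank `k` of a finite set of integers. -/
theorem CornerB_exists_rank (A : Finset ℤ) (k : ℕ) (hk : k < A.card) :
    ∃ u ∈ A, (A.filter (fun a => a < u)).card = k := by
  induction hc : A.card generalizing A k with
  | zero => omega
  | succ c ih =>
    have hne : A.Nonempty := by
      rw [← Finset.card_pos]; omega
    set m := A.max' hne with hm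
    have hmA : m ∈ A := A.max'_mem hne
    have hmax : ∀ a ∈ A, a ≤ m := fun a ha => A.le_max' a ha
    have hcard : (A.erase m).card = c := by
      rw [Finset.card_erase_of_mem hmA, hc]; rfl
    by_cases hkc : k = c
    · refine ⟨m, hmA, ?_⟩
      have : A.filter (fun a => a < m) = A.erase m := by
        ext a
        simp only [Finset.mem_filter, Finset.mem_erase]
        constructor
        · rintro ⟨h1, h2⟩; exact ⟨ne_of_lt h2, h1⟩
        · rintro ⟨h1, h2⟩; exact ⟨h2, lt_of_le_of_ne (hmax a h2) h1⟩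
      rw [this, hcard, hkc]
    · obtain ⟨u, hu, hu2⟩ := ih (A.erase m) k (by omega) hcard
      refine ⟨u, Finset.mem_of_mem_erase hu, ?_⟩
      rw [← hu2]
      congr 1
      ext a
      simp only [Finset.mem_filter, Finset.mem_erase]
      constructor
      · rintro ⟨h1, h2⟩
        have h3 : u ≤ m := hmax u (Finset.mem_of_mem_erase hu)
        exact ⟨⟨by intro h4; rw [h4] at h2; exact absurd h2 (not_lt.mpr h3), h1⟩, h2⟩
      · rintro ⟨⟨_, h1⟩, h2⟩; exact ⟨h1, h2⟩

/-- Counting elements between two elements of given rank. -/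
theorem CornerB_rank_diff {A : Finset ℤ} {u v : ℤ} {p q : ℕ}
    (hu : (A.filter (fun a => a < u)).card = p) (hv : (A.filter (fun a => a < v)).card = q)
    (hpq : p < q) : (q : ℤ) - p ≤ v - u := by
  have hlt : u < v := by
    by_contra hcon
    push Not at hcon
    have : (A.filter (fun a => a < v)).card ≤ (A.filter (fun a => a < u)).card := by
      apply Finset.card_le_card
      intro a ha
      simp only [Finset.mem_filter] at ha ⊢
      exact ⟨ha.1, lt_of_lt_of_le ha.2 hcon⟩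
    omega
  have hsub : A.filter (fun a => a < v) ⊆ A.filter (fun a => a < u) ∪ Finset.Ico u v := by
    intro a ha
    simp only [Finset.mem_filter, Finset.mem_union, Finset.mem_Ico] at ha ⊢
    rcases lt_or_ge a u with h | h
    · exact Or.inl ⟨ha.1, h⟩
    · exact Or.inr ⟨h, ha.2⟩
  have h1 := Finset.card_le_card hsub
  have h2 := Finset.card_union_le (A.filter (fun a => a < u)) (Finset.Ico u v)
  rw [Int.card_Ico] at h2
  have h3 : ((v - u).toNat : ℤ) = v - u := Int.toNat_of_nonneg (by linarith)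
  have h4 : (q : ℤ) ≤ p + (v - u).toNat := by
    rw [← hu, ← hv]
    exact_mod_cast h1.trans h2
  linarith

/-- A centre kills at most one index. -/
theorem CornerB_kill {A : Finset ℤ} {M R z u v : ℤ} {p q : ℕ} (hM : 0 < M) (hR8 : R ≤ 8 * M)
    (hp : 1 ≤ p) (hq : 200 * M * p ≤ q)
    (hu : (A.filter (fun a => a < u)).card = p) (hv : (A.filter (fun a => a < v)).card = q)
    (h1 : z ≤ u + 100 * p * M + R) (h2 : v - R ≤ z) : False := by
  have hp' : (1 : ℤ) ≤ p := by exact_mod_cast hp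
  have hMp : M ≤ M * p := by nlinarith
  have hlt : (p : ℤ) < q := by nlinarith
  have hlt' : p < q := by exact_mod_cast hlt
  have h3 := CornerB_rank_diff hu hv hlt'
  nlinarith

/-- Periodicity along an arithmetic progression avoiding the centres. -/
theorem CornerB_run {A : Finset ℤ} {M R u : ℤ} {F : Finset ℤ} {L : ℤ} (hM : 0 < M)
    (hF : ∀ y : ℤ, (∀ c ∈ F, R < |y - c|) → (y ∈ A ↔ y + M ∈ A)) (hu : u ∈ A)
    (hz : ∀ z ∈ F, z < u - R ∨ u + L * M + R < z) (t : ℤ) (h0 : 0 ≤ t) (h1 : t ≤ L) :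
    u + t * M ∈ A := by
  obtain ⟨k, rfl⟩ := Int.eq_ofNat_of_zero_le h0
  induction k with
  | zero => simpa using hu
  | succ k ih =>
    have hk : ((k : ℕ) : ℤ) ≤ L := by
      push_cast at h1; linarith
    have h2 := ih (by positivity) hk
    have h3 := hF (u + (k : ℤ) * M) (by
      intro c hc
      have hkM : 0 ≤ (k : ℤ) * M := by positivity
      have hkL : (k : ℤ) * M ≤ L * M := mul_le_mul_of_nonneg_right hk hM.le
      rcases hz c hc with h | h
      · rw [lt_abs]; left; linarith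
      · rw [lt_abs]; right; linarith)
    rw [h3] at h2
    have e : u + ((k + 1 : ℕ) : ℤ) * M = u + (k : ℤ) * M + M := by push_cast; ring
    rw [e]
    exact h2

/-- Existence of a corner. For `s = 0..2000` let `u_s` be the element of `A` with exactly `G^s`
elements below it, `w_s` the same for `B`. A centre of `A` can lie in
`[u_s - R, u_s + 100 G^s M + R]` for at most one `s` (the elements of `A` in `[u_s, u_(s+1))` number
`(G-1) G^s > 100 G^s M + 2R`), same for `B`; `2000` centres, `2001` values of `s`. -/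
theorem exists_corner {N M R : ℤ} {A B D S : Finset ℤ} (h : Conf N A B D S) (hM0 : 0 < M)
    (hM2 : 2 ∣ M) (hR0 : 0 ≤ R) (hR8 : R ≤ 8 * M) (big : (200 * M) ^ 5000 ≤ N)
    (npA : NP A M 1000 R) (npB : NP B M 1000 R) (npD : NP D M 1000 R) (npS : NP S M 1000 R)
    (szA : ∀ r : ℤ, |M * ((cls A M r).card : ℤ) - N| ≤ 10 * M ^ 2)
    (szB : ∀ r : ℤ, |M * ((cls B M r).card : ℤ) - N| ≤ 10 * M ^ 2)
    (szD : ∀ r : ℤ, |M * ((cls D M r).card : ℤ) - N| ≤ 10 * M ^ 2)
    (szS : ∀ r : ℤ, |M * ((cls S M r).card : ℤ) - N| ≤ 10 * M ^ 2) :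
    ∃ (x y a1 b1 : ℤ) (n : ℕ), Corner N M R x y a1 b1 n A B D S := by
  obtain ⟨FA, hFA, hFA2⟩ := npA
  obtain ⟨FB, hFB, hFB2⟩ := npB
  obtain ⟨G, hG⟩ : ∃ G : ℕ, (G : ℤ) = 200 * M :=
    ⟨(200 * M).toNat, Int.toNat_of_nonneg (by linarith)⟩
  have hG1 : 200 ≤ G := by
    have : (200 : ℤ) ≤ G := by rw [hG]; linarith
    exact_mod_cast this
  have hpos : ∀ s : ℕ, 1 ≤ G ^ s := fun s => Nat.one_le_pow _ _ (by omega)
  have hle : ∀ s : ℕ, s ≤ 2000 → G ^ s ≤ G ^ 2000 := fun s hs =>
    Nat.pow_le_pow_right (by omega) hs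
  have hbig : G ^ 2000 + 2 ≤ G ^ 5000 := by
    have h1 : G ^ 2001 ≤ G ^ 5000 := Nat.pow_le_pow_right (by omega) (by omega)
    have h2 : G ^ 2001 = G ^ 2000 * G := pow_succ G 2000
    have h3 : G ^ 2000 * 200 ≤ G ^ 2000 * G := Nat.mul_le_mul_left _ hG1
    have h4 := hpos 2000
    omega
  have hcard : ∀ U : Finset ℤ, N - 1 ≤ (U.card : ℤ) → ∀ s : ℕ, s ≤ 2000 → G ^ s < U.card := by
    intro U hU s hs
    have h1 := hle s hs
    have h2 : ((G ^ 5000 : ℕ) : ℤ) ≤ N := by
      have e : ((G ^ 5000 : ℕ) : ℤ) = (200 * M) ^ 5000 := by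
        rw [Nat.cast_pow, hG]
      rw [e]; exact big
    have h3 : ((G ^ 2000 + 2 : ℕ) : ℤ) ≤ ((G ^ 5000 : ℕ) : ℤ) := by exact_mod_cast hbig
    have h4 : ((G ^ s : ℕ) : ℤ) ≤ ((G ^ 2000 : ℕ) : ℤ) := by exact_mod_cast h1
    have h5 : ((G ^ 2000 + 2 : ℕ) : ℤ) = ((G ^ 2000 : ℕ) : ℤ) + 2 := by push_cast; ring
    have h6 : ((G ^ s : ℕ) : ℤ) < (U.card : ℤ) := by linarith
    exact_mod_cast h6
  have hAex : ∀ s : ℕ, ∃ u : ℤ, s ≤ 2000 → u ∈ A ∧ (A.filter (fun a => a < u)).card = G ^ s := by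
    intro s
    by_cases hs : s ≤ 2000
    · obtain ⟨u, hu1, hu2⟩ := CornerB_exists_rank A (G ^ s) (hcard A h.cA s hs)
      exact ⟨u, fun _ => ⟨hu1, hu2⟩⟩
    · exact ⟨0, fun h' => absurd h' hs⟩
  have hBex : ∀ s : ℕ, ∃ u : ℤ, s ≤ 2000 → u ∈ B ∧ (B.filter (fun a => a < u)).card = G ^ s := by
    intro s
    by_cases hs : s ≤ 2000
    · obtain ⟨u, hu1, hu2⟩ := CornerB_exists_rank B (G ^ s) (hcard B h.cB s hs)
      exact ⟨u, fun _ => ⟨hu1, hu2⟩⟩
    · exact ⟨0, fun h' => absurd h' hs⟩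
  choose u hu using hAex
  choose w hw using hBex
  -- each centre kills at most one index
  have hkill : ∀ (U : Finset ℤ) (v : ℕ → ℤ),
      (∀ s, s ≤ 2000 → v s ∈ U ∧ (U.filter (fun a => a < v s)).card = G ^ s) →
      ∀ (z : ℤ) (s s' : ℕ), s ≤ 2000 → s' ≤ 2000 →
        (v s - R ≤ z ∧ z ≤ v s + 100 * (G ^ s : ℕ) * M + R) →
        (v s' - R ≤ z ∧ z ≤ v s' + 100 * (G ^ s' : ℕ) * M + R) → s = s' := by
    intro U v hv z
    have key : ∀ (s s' : ℕ), s ≤ 2000 → s' ≤ 2000 → s < s' →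
        (v s - R ≤ z ∧ z ≤ v s + 100 * (G ^ s : ℕ) * M + R) →
        (v s' - R ≤ z ∧ z ≤ v s' + 100 * (G ^ s' : ℕ) * M + R) → False := by
      intro s s' hs hs' hss h1 h2
      refine CornerB_kill (A := U) (z := z) hM0 hR8 (hpos s) ?_ (hv s hs).2 (hv s' hs').2 h1.2 h2.1
      have h3 : G ^ (s + 1) ≤ G ^ s' := Nat.pow_le_pow_right (by omega) (by omega)
      have h4 : G ^ (s + 1) = G ^ s * G := pow_succ G s
      rw [← hG]
      have h5 : G * G ^ s ≤ G ^ s' := by
        rw [mul_comm, ← h4]; exact h3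
      exact_mod_cast h5
    intro s s' hs hs' h1 h2
    rcases lt_trichotomy s s' with hlt | heq | hgt
    · exact absurd (key s s' hs hs' hlt h1 h2) id
    · exact heq
    · exact absurd (key s' s hs' hs hgt h2 h1) id
  -- a surviving index
  obtain ⟨s, hs, hsA, hsB⟩ : ∃ s : ℕ, s ≤ 2000 ∧
      (∀ z ∈ FA, ¬ (u s - R ≤ z ∧ z ≤ u s + 100 * (G ^ s : ℕ) * M + R)) ∧
      (∀ z ∈ FB, ¬ (w s - R ≤ z ∧ z ≤ w s + 100 * (G ^ s : ℕ) * M + R)) := by
    by_contra hcon
    push Not at hcon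
    have hex : ∀ s : ℕ, s ≤ 2000 → ∃ z : ℤ ⊕ ℤ, z ∈ FA.disjSum FB ∧
        (∀ a, z = Sum.inl a → (u s - R ≤ a ∧ a ≤ u s + 100 * (G ^ s : ℕ) * M + R)) ∧
        (∀ b, z = Sum.inr b → (w s - R ≤ b ∧ b ≤ w s + 100 * (G ^ s : ℕ) * M + R)) := by
      intro s hs
      by_cases hA : ∀ z ∈ FA, ¬ (u s - R ≤ z ∧ z ≤ u s + 100 * (G ^ s : ℕ) * M + R)
      · obtain ⟨z, hz1, hz2⟩ := hcon s hs (by
          intro z hz h1
          by_contra h2
          push Not at h2
          exact hA z hz ⟨h1, h2⟩)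
        refine ⟨Sum.inr z, by simpa using hz1, ?_, ?_⟩
        · intro a ha; cases ha
        · intro b hb; cases hb; exact hz2
      · push Not at hA
        obtain ⟨z, hz1, hz2⟩ := hA
        refine ⟨Sum.inl z, by simpa using hz1, ?_, ?_⟩
        · intro a ha; cases ha; exact hz2
        · intro b hb; cases hb
    choose! f hf using hex
    have hcard2 : (FA.disjSum FB).card < (Finset.range 2001).card := by
      rw [Finset.card_disjSum, Finset.card_range]; omega
    obtain ⟨s, hs, s', hs', hne, heq⟩ := Finset.exists_ne_map_eq_of_card_lt_of_maps_to hcard2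
      (f := f) (fun s hs => by
        have h1 : s ≤ 2000 := by
          have := Finset.mem_range.mp hs; omega
        exact (hf s h1).1)
    have h1 : s ≤ 2000 := by
      have := Finset.mem_range.mp hs; omega
    have h2 : s' ≤ 2000 := by
      have := Finset.mem_range.mp hs'; omega
    apply hne
    rcases hfs : f s with a | b
    · exact hkill A u hu a s s' h1 h2 ((hf s h1).2.1 a hfs) ((hf s' h2).2.1 a (by rw [← heq, hfs]))
    · exact hkill B w hw b s s' h1 h2 ((hf s h1).2.2 b hfs) ((hf s' h2).2.2 b (by rw [← heq, hfs]))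
  have hneA : A.Nonempty := ⟨u s, (hu s hs).1⟩
  have hneB : B.Nonempty := ⟨w s, (hw s hs).1⟩
  have hcast : ((G ^ s : ℕ) : ℤ) ≤ (200 * M) ^ 2000 := by
    have h1 : ((G ^ s : ℕ) : ℤ) ≤ ((G ^ 2000 : ℕ) : ℤ) := by exact_mod_cast hle s hs
    have e : ((G ^ 2000 : ℕ) : ℤ) = (200 * M) ^ 2000 := by
      rw [Nat.cast_pow, hG]
    rw [← e]; exact h1
  refine ⟨u s, w s, A.max' hneA, B.max' hneB, G ^ s, ?_⟩
  exact
    { conf := h
      M0 := hM0
      M2 := hM2
      R0 := hR0
      R8 := hR8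
      big := big
      npA := ⟨FA, hFA, hFA2⟩
      npB := ⟨FB, hFB, hFB2⟩
      npD := npD
      npS := npS
      szA := szA
      szB := szB
      szD := szD
      szS := szS
      hx := (hu s hs).1
      hy := (hw s hs).1
      ha1 := A.max'_mem hneA
      hb1 := B.max'_mem hneB
      mA := fun a ha => A.le_max' a ha
      mB := fun b hb => B.le_max' b hb
      n1 := hpos s
      nG := hcast
      dx := (hu s hs).2.le
      dy := (hw s hs).2.le
      rx := by
        intro t h0 h1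
        refine CornerB_run (L := 100 * ((G ^ s : ℕ) : ℤ)) hM0 hFA2 (hu s hs).1 ?_ t h0 h1
        intro z hz
        by_contra hc
        push Not at hc
        exact hsA z hz hc
      ry := by
        intro t h0 h1
        refine CornerB_run (L := 100 * ((G ^ s : ℕ) : ℤ)) hM0 hFB2 (hw s hs).1 ?_ t h0 h1
        intro z hz
        by_contra hc
        push Not at hc
        exact hsB z hz hc }

end Pool.Agent.MP_f71fe7
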