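import Pool.Agent.MP_f71fe7.CornerA

set_option autoImplicit false

open scoped Pointwise Classical

namespace Pool.Agent.MP_f71fe7

/-- Too many elements of the class of `k` would exceed `b1 - x`. -/
theorem CornerD_le_b1 {N M R x y a1 b1 : ℤ} {n : ℕ} {A B D S : Finset ℤ}
    (h : Corner N M R x y a1 b1 n A B D S) {k r : ℤ} (hr : M ∣ r - x - k) (hyr : y ≤ r)
    (hlt : r + (7 + 2 * n) * M < y + nUp D M (y - x) k * M) : r ≤ b1 := by
  by_contra hcon
  have hM := h.M0
  have hxa : x ≤ a1 := h.mA x h.hx
  have hyb : y ≤ b1 := h.mB y h.hy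
  have key := h.conf.out_le (u := x) (v := a1) (p := y) (q := b1)
    ⟨x, Finset.mem_filter.2 ⟨h.hx, le_rfl, hxa⟩⟩ ⟨y, Finset.mem_filter.2 ⟨h.hy, le_rfl, hyb⟩⟩
  have c1 : A.filter (fun a => a < x ∨ a1 < a) = A.filter (fun a => a < x) := by
    apply Finset.filter_congr
    intro a ha
    have := h.mA a ha
    omega
  have c2 : B.filter (fun b => b < y ∨ b1 < b) = B.filter (fun b => b < y) := by
    apply Finset.filter_congr
    intro a ha
    have := h.mB a ha
    omega
  have hc : 7 + 2 * n ≤ (D.filter (fun d => d < y - a1 ∨ b1 - x < d)).card := by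
    have := Finset.card_le_card_of_injOn (s := Finset.range (7 + 2 * n))
      (t := D.filter (fun d => d < y - a1 ∨ b1 - x < d)) (fun j : ℕ => r - x + j * M) ?_ ?_
    · simpa using this
    · intro j hj
      have hj' : j < 7 + 2 * n := by simpa using hj
      have hj2 : (j : ℤ) * M ≤ (7 + 2 * n) * M := by
        apply mul_le_mul_of_nonneg_right _ hM.le
        exact_mod_cast hj'.le
      have hj3 : 0 ≤ (j : ℤ) * M := mul_nonneg (Int.natCast_nonneg j) hM.le
      have up : Up D M (y - x) (r - x + j * M) := by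
        apply up_of_lt hM (k := k)
        · have e : r - x + j * M - k = (r - x - k) + j * M := by ring
          rw [e]
          exact dvd_add hr (dvd_mul_left _ _)
        · linarith
        · linarith
      have hD : r - x + j * M ∈ D := by
        have := up.2 0 le_rfl (by simpa using up.1)
        simpa using this
      simp only [Finset.coe_filter, Set.mem_ofPred_eq]
      exact ⟨hD, Or.inr (by linarith)⟩
    · intro i _ j _ hij
      have h1 : (i : ℤ) * M = j * M := by
        have : r - x + (i : ℤ) * M = r - x + j * M := hij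
        linarith
      have h2 := mul_right_cancel₀ hM.ne' h1
      exact_mod_cast h2
  have d1 := h.dx
  have d2 := h.dy
  rw [c1, c2] at key
  omega

/-- The window starting with the first row of the class after `y + m M`. -/
theorem CornerD_window {N M R x y a1 b1 : ℤ} {n : ℕ} {A B D S : Finset ℤ}
    (h : Corner N M R x y a1 b1 n A B D S) {k y1 : ℤ} {m : ℕ}
    (hk : 110 * M * m ≤ nUp D M (y - x) k) (hm : n + 1 ≤ m)
    (hy1 : M ∣ y1 - x - k) (h0 : y ≤ y1) (h1 : y1 ≤ y + (m + 1) * M)
    (hper : ∀ t : ℤ, 0 ≤ t → t < 100 * M * m → (y1 + t * M ∈ B ↔ y1 + t * M + M ∈ B)) :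
    (∀ t : ℤ, 0 ≤ t → t ≤ 100 * M * m → y1 + t * M ∈ B) ∧ Up D M (y - x) (y1 - x) := by
  have hM := h.M0
  have hn := h.n1
  have hyb : y ≤ b1 := h.mB y h.hy
  have hMm : (m : ℤ) ≤ M * m := by nlinarith [Int.natCast_nonneg m]
  have hm' : (n : ℤ) + 1 ≤ m := by exact_mod_cast hm
  have hn' : (1 : ℤ) ≤ n := by exact_mod_cast hn
  have up : ∀ t : ℤ, 0 ≤ t → t ≤ 101 * M * m → Up D M (y - x) (y1 + t * M - x) := by
    intro t ht0 ht1
    apply up_of_lt hM (k := k)
    · have e : y1 + t * M - x - k = (y1 - x - k) + t * M := by ring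
      rw [e]
      exact dvd_add hy1 (dvd_mul_left _ _)
    · nlinarith
    · have e1 : y1 + t * M - x < (y - x) + (110 * M * m) * M := by
        have e2 : (m + 1 : ℤ) + t < 110 * M * m := by nlinarith
        nlinarith
      have e3 : (110 * M * m) * M ≤ nUp D M (y - x) k * M := mul_le_mul_of_nonneg_right hk hM.le
      linarith
  have inD : ∀ t : ℤ, 0 ≤ t → t ≤ 101 * M * m → y1 + t * M - x ∈ D := by
    intro t ht0 ht1
    have h2 := (up t ht0 ht1).2 0 le_rfl (by simpa using (up t ht0 ht1).1)
    simpa using h2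
  have leb : ∀ t : ℤ, 0 ≤ t → t ≤ 100 * M * m → y1 + t * M ≤ b1 := by
    intro t ht0 ht1
    apply CornerD_le_b1 h (k := k)
    · have e : y1 + t * M - x - k = (y1 - x - k) + t * M := by ring
      rw [e]
      exact dvd_add hy1 (dvd_mul_left _ _)
    · nlinarith
    · have e1 : y1 + t * M + (7 + 2 * n) * M < y + (110 * M * m) * M := by
        have e2 : (m + 1 : ℤ) + t + (7 + 2 * n) < 110 * M * m := by nlinarith
        nlinarith
      have e3 : (110 * M * m) * M ≤ nUp D M (y - x) k * M := mul_le_mul_of_nonneg_right hk hM.le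
      linarith
  have same : ∀ t : ℕ, (t : ℤ) ≤ 100 * M * m → (y1 + t * M ∈ B ↔ y1 ∈ B) := by
    intro t
    induction t with
    | zero => intro _; simp
    | succ t ih =>
      intro ht
      push_cast at ht
      have h2 := hper t (Int.natCast_nonneg t) (by linarith)
      have h3 : y1 + ((t + 1 : ℕ) : ℤ) * M = y1 + t * M + M := by push_cast; ring
      rw [h3, ← h2]
      exact ih (by linarith)
  have hy1B : y1 ∈ B := by
    by_contra hcon
    have hc : 13 + 4 * n ≤ (Exc B D S x y b1).card := by
      have := Finset.card_le_card_of_injOn (s := Finset.range (13 + 4 * n))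
        (t := Exc B D S x y b1) (fun j : ℕ => y1 + j * M) ?_ ?_
      · simpa using this
      · intro j hj
        have hj' : j < 13 + 4 * n := by simpa using hj
        have hj1 : (j : ℤ) ≤ 12 + 4 * n := by
          have : j ≤ 12 + 4 * n := by omega
          exact_mod_cast this
        have hj2 : (j : ℤ) ≤ 100 * M * m := by nlinarith
        have hj3 : 0 ≤ (j : ℤ) * M := mul_nonneg (Int.natCast_nonneg j) hM.le
        have k1 := inD j (Int.natCast_nonneg j) (by nlinarith)
        have k2 := leb j (Int.natCast_nonneg j) hj2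
        have k3 : ¬ (y1 + j * M ∈ B) := by
          rw [same j hj2]; exact hcon
        have k4 : y1 + (j : ℤ) * M ∈ Exc B D S x y b1 := by
          unfold Exc
          rw [Finset.mem_filter, Finset.mem_Icc]
          refine ⟨⟨by linarith, k2⟩, Or.inl ?_⟩
          intro h5
          exact k3 (h5.1 (Or.inl k1))
        exact k4
      · intro i _ j _ hij
        have h1 : (i : ℤ) * M = j * M := by
          have : y1 + (i : ℤ) * M = y1 + j * M := hij
          linarith
        have h2 := mul_right_cancel₀ hM.ne' h1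
        exact_mod_cast h2
    have := h.excx hyb
    omega
  refine ⟨?_, ?_⟩
  · intro t ht0 ht1
    lift t to ℕ using ht0
    exact (same t ht1).2 hy1B
  · have h2 := up 0 le_rfl (by positivity)
    simpa using h2

/-- A usable row in the class of `x + k`, close to `y`, when `nUp` is large in the class `k`.
For `s = 0..1000` put `m_s = (n+1) G^s` and look at the rows of the class in
`[y + m_s M, y + m_s M + (100 M m_s + 2) M]`: these windows enlarged by `R` are disjoint, so one
contains no centre of `B`; there `B` is `M`-periodic, and contains a row of the class because all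
rows `r` of the class in `[y, y + Z M)` have `r - x ∈ D`, with at most `12 + 4n` exceptions to
`r ∈ B`. -/
theorem Corner.usable_row {N M R x y a1 b1 : ℤ} {n : ℕ} {A B D S : Finset ℤ}
    (h : Corner N M R x y a1 b1 n A B D S) (hR : R + M ≤ 8 * M) {k : ℤ}
    (hk : Zc M n ≤ nUp D M (y - x) k) :
    ∃ (y1 : ℤ) (m : ℕ), M ∣ y1 - x - k ∧ y ≤ y1 ∧ y1 ≤ y + (m + 1) * M ∧ n + 1 ≤ m ∧
      (m : ℤ) ≤ Yc M n ∧
      (∀ t : ℤ, 0 ≤ t → t ≤ 100 * M * m → y1 + t * M ∈ B) ∧ Up D M (y - x) (y1 - x) := by
  have hM := h.M0
  have hR0 := h.R0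
  obtain ⟨F, hF, hnp⟩ := h.npB
  obtain ⟨M', rfl⟩ : ∃ M' : ℕ, M = M' := ⟨M.toNat, by omega⟩
  have hM' : 0 < M' := by exact_mod_cast hM
  set ms : ℕ → ℕ := fun s => (n + 1) * (200 * M') ^ s with hms
  set ys : ℕ → ℤ := fun s => y + ms s * M' + ((x + k) - (y + ms s * M')) % M' with hys
  have ms1 : ∀ s, n + 1 ≤ ms s := by
    intro s
    simp only [hms]
    exact Nat.le_mul_of_pos_right _ (by positivity)
  have ms1' : ∀ s, (n : ℤ) + 1 ≤ ms s := by
    intro s
    exact_mod_cast ms1 s
  have ms2 : ∀ s, s ≤ 1000 → (ms s : ℤ) ≤ Yc M' n := by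
    intro s hs
    have : ms s ≤ (n + 1) * (200 * M') ^ 1000 := by
      simp only [hms]
      apply Nat.mul_le_mul_left
      exact Nat.pow_le_pow_right (by omega) hs
    unfold Yc
    exact_mod_cast this
  have ms3 : ∀ s t, s < t → 200 * (M' : ℤ) * ms s ≤ ms t := by
    intro s t hst
    have : 200 * M' * ms s ≤ ms t := by
      simp only [hms]
      have e : 200 * M' * ((n + 1) * (200 * M') ^ s) = (n + 1) * (200 * M') ^ (s + 1) := by ring
      rw [e]
      apply Nat.mul_le_mul_left
      exact Nat.pow_le_pow_right (by omega) hst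
    exact_mod_cast this
  have ys0 : ∀ s, y + ms s * M' ≤ ys s := by
    intro s
    have := Int.emod_nonneg ((x + k) - (y + ms s * M')) hM.ne'
    simp only [hys]
    linarith
  have ys1 : ∀ s, ys s < y + ms s * M' + M' := by
    intro s
    have := Int.emod_lt_of_pos ((x + k) - (y + ms s * M')) hM
    simp only [hys]
    linarith
  have ysd : ∀ s, (M' : ℤ) ∣ ys s - x - k := by
    intro s
    have e : ys s - x - k = -(((x + k) - (y + ms s * M'))
        - ((x + k) - (y + ms s * M')) % M') := by
      simp only [hys]; ring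
    rw [e, dvd_neg]
    exact Int.dvd_self_sub_emod
  -- a window without centres
  obtain ⟨s, hs, hfree⟩ : ∃ s, s ≤ 1000 ∧ ∀ z : ℤ, ys s ≤ z → z ≤ ys s + 100 * M' * ms s * M' →
      ∀ c ∈ F, R < |z - c| := by
    by_contra hcon
    push Not at hcon
    have hch : ∀ s : ℕ, ∃ c : ℤ, s ≤ 1000 → c ∈ F ∧ ys s - R ≤ c ∧
        c ≤ ys s + 100 * M' * ms s * M' + R := by
      intro s
      by_cases hs : s ≤ 1000
      · obtain ⟨z, hz0, hz1, c, hc, hzc⟩ := hcon s hs
        refine ⟨c, fun _ => ⟨hc, ?_, ?_⟩⟩
        · have := (abs_le.1 hzc).2; linarith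
        · have := (abs_le.1 hzc).1; linarith
      · exact ⟨0, fun h => absurd h hs⟩
    choose cf hcf using hch
    have hcard : (Finset.range 1001).card ≤ F.card := by
      apply Finset.card_le_card_of_injOn cf
      · intro s hs
        have hs' : s < 1001 := by simpa using hs
        exact (hcf s (by omega)).1
      · have hlt : ∀ s t : ℕ, s ≤ 1000 → t ≤ 1000 → s < t → cf s < cf t := by
          intro s t hs ht hst
          have a1 := (hcf s hs).2.2
          have a2 := (hcf t ht).2.1
          have a3 := ys1 s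
          have a4 := ys0 t
          have a5 := ms3 s t hst
          have a6 := ms1' s
          have a7 : (1 : ℤ) ≤ n := by exact_mod_cast h.n1
          have a8 : (1 : ℤ) ≤ M' := by exact_mod_cast hM'
          have a9 : (200 * (M' : ℤ) * ms s) * M' ≤ ms t * M' :=
            mul_le_mul_of_nonneg_right a5 hM.le
          have b1 : 0 ≤ ((ms s : ℤ) - 2) * M' := mul_nonneg (by linarith) hM.le
          have b2 : 0 ≤ (ms s : ℤ) * M' * (M' - 1) :=
            mul_nonneg (mul_nonneg (by linarith) hM.le) (by linarith)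
          nlinarith
        intro s hs t ht hst
        have hs' : s < 1001 := by simpa using hs
        have ht' : t < 1001 := by simpa using ht
        rcases lt_trichotomy s t with h1 | h1 | h1
        · have := hlt s t (by omega) (by omega) h1; omega
        · exact h1
        · have := hlt t s (by omega) (by omega) h1; omega
    rw [Finset.card_range] at hcard
    omega
  have hZ := Zc_ge hM n
  have hY := ms2 s hs
  have hk110 : 110 * (M' : ℤ) * ms s ≤ nUp D M' (y - x) k := by
    have a8 : (1 : ℤ) ≤ M' := by exact_mod_cast hM'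
    have hY0 : (0 : ℤ) ≤ Yc M' n := le_trans (Int.natCast_nonneg _) hY
    have e1 : 110 * (M' : ℤ) * ms s ≤ 110 * (M' : ℤ) * Yc M' n :=
      mul_le_mul_of_nonneg_left hY (by positivity)
    have e2 : 110 * (M' : ℤ) ≤ 10 ^ 11 * (M' : ℤ) ^ 5 := by
      have : (M' : ℤ) ≤ (M' : ℤ) ^ 5 := le_self_pow₀ a8 (by norm_num)
      nlinarith
    have e3 := mul_le_mul_of_nonneg_right e2 hY0
    linarith
  have hw := CornerD_window h (k := k) (y1 := ys s) (m := ms s) hk110 (ms1 s) (ysd s)
    (le_trans (by nlinarith [Int.natCast_nonneg (ms s)]) (ys0 s))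
    (by have := ys1 s; linarith) (by
      intro t ht0 ht1
      apply hnp
      apply hfree
      · nlinarith
      · nlinarith)
  exact ⟨ys s, ms s, ysd s, le_trans (by nlinarith [Int.natCast_nonneg (ms s)]) (ys0 s),
    by have := ys1 s; linarith, ms1 s, hY, hw.1, hw.2⟩

end Pool.Agent.MP_f71fe7
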