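import Pool.Agent.MP_f71fe7.CornerD

set_option autoImplicit false

open scoped Pointwise Classical

namespace Pool.Agent.MP_f71fe7

/-- `nDn` depends only on the class of `k`. -/
theorem CornerE_nDn_congr {D : Finset ℤ} {M c k k' : ℤ} (h : M ∣ k' - k) :
    nDn D M c k = nDn D M c k' := by
  unfold nDn
  congr 1
  apply Finset.filter_congr
  intro d _
  have e1 : d - k = (d - k') + (k' - k) := by ring
  have e2 : d - k' = (d - k) - (k' - k) := by ring
  constructor
  · rintro ⟨h1, h2⟩
    exact ⟨by rw [e2]; exact dvd_sub h1 h, h2⟩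
  · rintro ⟨h1, h2⟩
    exact ⟨by rw [e1]; exact dvd_add h1 h, h2⟩

/-- The cut in the class of `k`: the first integer of the class below `c` not in `D`. -/
theorem CornerE_cut {D : Finset ℤ} {M c k e : ℤ} (hM : 0 < M) (hk : M ∣ e - k)
    (h0 : e ≤ c - nDn D M c k * M) (h1 : c - nDn D M c k * M < e + M) : e ∉ D := by
  intro he
  have hcn : nDn D M c k = nDn D M c e := CornerE_nDn_congr hk
  have hdn : Dn D M c e := by
    refine ⟨?_, ?_⟩
    · have : (0 : ℤ) ≤ nDn D M c k * M := by positivity
      linarith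
    · intro t ht htc
      rcases eq_or_lt_of_le ht with ht0 | ht0
      · rw [← ht0]; simpa using he
      · have h2 : M ≤ t * M := by nlinarith
        have h3 : Dn D M c (e + t * M) := by
          apply dn_of_lt (k := k) hM _ htc
          · linarith
          · have : e + t * M - k = (e - k) + t * M := by ring
            rw [this]
            exact dvd_add hk (dvd_mul_left _ _)
        have := h3.2 0 le_rfl (by simpa using htc)
        simpa using this
  have h4 := Dn.lt hM hdn
  rw [← hcn] at h4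
  linarith

/-- Counting in the class of `x`. -/
theorem CornerE_count {N M R x y a1 b1 : ℤ} {n : ℕ} {A B D S : Finset ℤ}
    (h : Corner N M R x y a1 b1 n A B D S) (hw : N + Zc M n ≤ a1 - x) {K : ℕ}
    (hK : (K : ℤ) * M + 10 * M ^ 2 < Zc M n) (hx1 : x ≤ a1)
    (hc : ((Finset.Icc x a1).filter (fun a => M ∣ a - x ∧ a ∉ A)).card ≤ K) : False := by
  have hM := h.M0
  have hsz := (abs_le.mp (h.szA x)).2
  -- the progression
  set q : ℕ := ((a1 - x) / M).toNat with hq
  have hq0 : 0 ≤ (a1 - x) / M := Int.ediv_nonneg (by linarith) hM.le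
  have hqc : (q : ℤ) = (a1 - x) / M := by rw [hq, Int.toNat_of_nonneg hq0]
  have hdm := Int.emod_add_mul_ediv (a1 - x) M
  have hml := Int.emod_lt_of_pos (a1 - x) hM
  have hmn := Int.emod_nonneg (a1 - x) hM.ne'
  have hP : ((Finset.range (q + 1)).image (fun t : ℕ => x + t * M)) ⊆
      cls A M x ∪ (Finset.Icc x a1).filter (fun a => M ∣ a - x ∧ a ∉ A) := by
    intro a ha
    simp only [Finset.mem_image, Finset.mem_range] at ha
    obtain ⟨t, ht, rfl⟩ := ha
    have ht' : (t : ℤ) ≤ q := by exact_mod_cast Nat.lt_succ_iff.mp ht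
    have hd : M ∣ x + t * M - x := ⟨t, by ring⟩
    have hle : x + t * M ≤ a1 := by
      have : (t : ℤ) * M ≤ q * M := mul_le_mul_of_nonneg_right ht' hM.le
      rw [hqc] at this
      nlinarith
    have hge : x ≤ x + t * M := by
      have : (0 : ℤ) ≤ t * M := by positivity
      linarith
    by_cases hA : x + t * M ∈ A
    · apply Finset.mem_union_left
      simp only [cls, Finset.mem_filter]
      exact ⟨hA, hd⟩
    · apply Finset.mem_union_right
      simp only [Finset.mem_filter, Finset.mem_Icc]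
      exact ⟨⟨hge, hle⟩, hd, hA⟩
  have hcard := (Finset.card_le_card hP).trans (Finset.card_union_le _ _)
  rw [Finset.card_image_of_injective _ (by
    intro s t hst
    have : (s : ℤ) * M = t * M := by simpa using hst
    exact_mod_cast mul_right_cancel₀ hM.ne' this), Finset.card_range] at hcard
  have hcard' : (q : ℤ) + 1 ≤ (cls A M x).card + K := by
    exact_mod_cast hcard.trans (Nat.add_le_add_left hc _)
  have h1 : M * ((q : ℤ) + 1) ≤ M * ((cls A M x).card + K) :=
    mul_le_mul_of_nonneg_left hcard' hM.le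
  rw [hqc] at h1
  nlinarith

/-- Exceptional columns of a row `y1` close to `y`. -/
theorem CornerE_exc {N M R x y a1 b1 : ℤ} {n : ℕ} {A B D S : Finset ℤ}
    (h : Corner N M R x y a1 b1 n A B D S) (hx1 : x ≤ a1) {y1 : ℤ} {m : ℕ} (hy1 : y1 ∈ B)
    (hyy : y ≤ y1) (hym : y1 ≤ y + (m + 1) * M) :
    ((Exc A (-D) S y1 x a1).card : ℤ) ≤ 12 + 4 * n + 2 * (m + 1) * M := by
  have h1 := h.conf.transpose.exc_le hy1 h.hx h.ha1 hx1
  have h2 : (A.filter (fun a => a < x ∨ a1 < a)).card ≤ n := by
    refine le_trans (Finset.card_le_card ?_) h.dx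
    intro a ha
    simp only [Finset.mem_filter] at ha ⊢
    refine ⟨ha.1, ?_⟩
    rcases ha.2 with h3 | h3
    · exact h3
    · exact absurd (h.mA a ha.1) (by linarith)
  have h3 : (B.filter (fun b => b < y1)).card ≤ n + (y1 - y).toNat := by
    have : B.filter (fun b => b < y1) ⊆ B.filter (fun b => b < y) ∪ Finset.Ico y y1 := by
      intro b hb
      simp only [Finset.mem_filter, Finset.mem_union, Finset.mem_Ico] at hb ⊢
      by_cases hby : b < y
      · left; exact ⟨hb.1, hby⟩
      · right; exact ⟨by linarith, hb.2⟩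
    refine le_trans (Finset.card_le_card this) (le_trans (Finset.card_union_le _ _) ?_)
    rw [Int.card_Ico]
    exact Nat.add_le_add_right h.dy _
  have h4 : ((y1 - y).toNat : ℤ) = y1 - y := Int.toNat_of_nonneg (by linarith)
  have h5 : ((Exc A (-D) S y1 x a1).card : ℤ) ≤
      12 + 2 * ((B.filter (fun b => b < y1)).card : ℤ)
        + 2 * ((A.filter (fun a => a < x ∨ a1 < a)).card : ℤ) := by exact_mod_cast h1
  have h6 : ((B.filter (fun b => b < y1)).card : ℤ) ≤ n + (y1 - y) := by
    rw [← h4]; exact_mod_cast h3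
  have h7 : ((A.filter (fun a => a < x ∨ a1 < a)).card : ℤ) ≤ n := by exact_mod_cast h2
  linarith

/-- Numerical estimates for `CornerE`. -/
theorem CornerE_num {M Y Z : ℤ} {n m : ℕ} (hM : 0 < M) (hY : (n : ℤ) + 1 ≤ Y)
    (hZ : 10 ^ 11 * M ^ 5 * Y ≤ Z) (hn : 1 ≤ n) (hm : (m : ℤ) ≤ Y) :
    (12 + 4 * (n : ℤ) + 2 * (m + 1) * M) + (12 + 4 * n) + 1
      + 80000 * (12 + 4 * (n : ℤ) + 2 * (m + 1) * M) * M + (m + 2) ≤ Z ∧
    ((12 + 4 * (n : ℤ) + 2 * (m + 1) * M) + (12 + 4 * n)) * M + 10 * M ^ 2 < Z ∧
    (12 + 4 * (n : ℤ)) + (12 + 4 * (n : ℤ) + 2 * (m + 1) * M) + 1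
      + 80000 * (12 + 4 * (n : ℤ)) * M ≤ Z := by
  have hY1 : (1 : ℤ) ≤ Y := by linarith [Int.natCast_nonneg n]
  have hM1 : (1 : ℤ) ≤ M := hM
  have hYM : Y ≤ Y * M := by nlinarith
  have hYM2 : Y * M ≤ Y * M ^ 2 := by nlinarith [mul_nonneg (by linarith : (0:ℤ) ≤ Y) hM.le]
  have hM5 : M ^ 2 ≤ M ^ 5 := pow_le_pow_right₀ hM1 (by norm_num)
  have hYM5 : Y * M ^ 2 ≤ Y * M ^ 5 := mul_le_mul_of_nonneg_left hM5 (by linarith)
  have hMM : M ^ 2 ≤ Y * M ^ 2 := by nlinarith [sq_nonneg M]
  have e1 : 12 + 4 * (n : ℤ) ≤ 12 * Y := by linarith [Int.natCast_nonneg n]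
  have e2 : 2 * ((m : ℤ) + 1) * M ≤ 4 * (Y * M) := by nlinarith
  have e3 : 12 + 4 * (n : ℤ) + 2 * (m + 1) * M ≤ 16 * (Y * M) := by linarith
  have e4 : (12 + 4 * (n : ℤ) + 2 * (m + 1) * M) * M ≤ 16 * (Y * M ^ 2) := by
    have := mul_le_mul_of_nonneg_right e3 hM.le
    nlinarith
  have e5 : (12 + 4 * (n : ℤ)) * M ≤ 12 * (Y * M) := by nlinarith
  refine ⟨?_, ?_, ?_⟩ <;> nlinarith

/-- Case beta, main claim. -/
theorem Corner.beta_claim {N M R x y a1 b1 : ℤ} {n : ℕ} {A B D S : Finset ℤ}
    (h : Corner N M R x y a1 b1 n A B D S) (hR : R + M ≤ 8 * M)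
    (hw : N + Zc M n ≤ a1 - x) {k : ℤ}
    (hk : Zc M n ≤ nUp D M (y - x) k) :
    |(nDn D M (y - x) k : ℤ) - nDn D M (y - x) (y - x)| ≤ Zc M n := by
  obtain ⟨y1, m, hy1k, hyy1, hy1m, hnm, hmY, hrun1, hup⟩ := h.usable_row hR hk
  have hM := h.M0
  have hM1 : (1 : ℤ) ≤ M := hM
  have hn := h.n1
  have hn' : (1 : ℤ) ≤ n := by exact_mod_cast hn
  have hm0 : (0 : ℤ) ≤ m := Int.natCast_nonneg m
  have hYge := Yc_ge hM n
  have hZge := Zc_ge hM n
  obtain ⟨num1, num2, num3⟩ := CornerE_num hM hYge hZge hn hmY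
  have hZ0 : 0 ≤ Zc M n := by
    have : 0 ≤ 2 * ((m : ℤ) + 1) * M := by positivity
    nlinarith
  have hx1 : x ≤ a1 := h.mA x h.hx
  have hT := h.transpose hR
  have hcov : Cov B A (-D) S := h.conf.transpose.cov
  have hR0' : 0 ≤ R + M := by linarith [h.R0]
  -- the two rows
  have hy1B : y1 ∈ B := by
    have := hrun1 0 le_rfl (by positivity)
    simpa using this
  have hE0 : (Exc A (-D) S y x a1).card ≤ 12 + 4 * n := hT.excx hx1
  have hE1 := CornerE_exc h hx1 hy1B hyy1 hy1m
  set E1 : ℕ := 12 + 4 * n + 2 * (m + 1) * M.toNat with hE1def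
  have hMn : (M.toNat : ℤ) = M := Int.toNat_of_nonneg hM.le
  have hE1c : (E1 : ℤ) = 12 + 4 * n + 2 * (m + 1) * M := by
    rw [hE1def]; push_cast; rw [hMn]
  have hE1' : (Exc A (-D) S y1 x a1).card ≤ E1 := by
    have : ((Exc A (-D) S y1 x a1).card : ℤ) ≤ E1 := by rw [hE1c]; exact hE1
    exact_mod_cast this
  have hm1 : (n : ℤ) + 1 ≤ m := by exact_mod_cast hnm
  by_contra hcon
  rw [abs_le, not_and_or, not_le, not_le] at hcon
  rcases hcon with hcon | hcon
  · -- `nDn (y - x) > nDn k + Zc`
    set q : ℕ := nDn D M (y - x) k with hq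
    set q0 : ℕ := nDn D M (y - x) (y - x) with hq0
    -- top of the class of `k`
    set e : ℤ := (y - x) - ((y - x - k) % M) - q * M with he
    have hr0 := Int.emod_nonneg (y - x - k) hM.ne'
    have hr1 := Int.emod_lt_of_pos (y - x - k) hM
    have hek : M ∣ e - k := by
      have h1 : M ∣ (y - x - k) - (y - x - k) % M := Int.dvd_self_sub_emod
      have h2 : e - k = ((y - x - k) - (y - x - k) % M) - q * M := by rw [he]; ring
      rw [h2]
      exact dvd_sub h1 (dvd_mul_left _ _)
    have heD : e ∉ D := by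
      apply CornerE_cut (c := y - x) hM hek
      · rw [← hq, he]; linarith
      · rw [← hq, he]; linarith
    have hqM : (0 : ℤ) ≤ q * M := by positivity
    set yp : ℤ := y1 - e with hyp
    have hypx : x ≤ yp := by rw [hyp, he]; linarith
    have hypD : yp - y1 ∉ -D := by
      rw [Finset.mem_neg']
      have : -(yp - y1) = e := by rw [hyp]; ring
      rwa [this]
    have hypc : M ∣ x - yp := by
      have : x - yp = (e - k) - (y1 - x - k) := by rw [hyp]; ring
      rw [this]
      exact dvd_sub hek hy1k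
    set X : ℕ := (Zc M n - (m + 2)).toNat with hX
    have hXc : (X : ℤ) = Zc M n - (m + 2) := by
      rw [hX]; apply Int.toNat_of_nonneg
      have : 0 ≤ 2 * ((m : ℤ) + 1) * M := by positivity
      nlinarith
    have hmiss : ((Finset.Ico x (yp + X * M)).filter
        (fun a => M ∣ a - yp ∧ a ≤ a1 ∧ a ∉ A)).card ≤ 12 + 4 * n := by
      refine le_trans (Finset.card_le_card ?_) hE0
      intro a ha
      simp only [Finset.mem_filter, Finset.mem_Ico] at ha
      obtain ⟨⟨ha0, ha2⟩, hac, ha1, haA⟩ := ha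
      have hDn : Dn D M (y - x) (y - a) := by
        apply dn_of_lt (k := y - x) hM
        · have : y - a - (y - x) = -((a - yp) - (x - yp)) := by ring
          rw [this, dvd_neg]
          exact dvd_sub hac hypc
        · linarith
        · rw [← hq0]
          have h5 : (q : ℤ) + Zc M n + 1 ≤ q0 := by linarith
          have h6 : ((q : ℤ) + Zc M n + 1) * M ≤ q0 * M := mul_le_mul_of_nonneg_right h5 hM.le
          have h7 : yp + X * M ≤ x + ((q : ℤ) + Zc M n + 1) * M - M := by
            rw [hyp, he, hXc]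
            nlinarith
          linarith
      have hDa : y - a ∈ D := by
        have := hDn.2 0 le_rfl (by simpa using hDn.1)
        simpa using this
      unfold Exc
      simp only [Finset.mem_filter, Finset.mem_Icc]
      refine ⟨⟨ha0, ha1⟩, Or.inl ?_⟩
      intro hiff
      apply haA
      apply hiff.mp
      left
      rw [Finset.mem_neg']
      have : -(a - y) = y - a := by ring
      rwa [this]
    have hlam : 2 * (E1 : ℤ) + 1 ≤ 100 * M * m := by
      have g1 : (m : ℤ) ≤ m * M := le_mul_of_one_le_right hm0 hM1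
      have g2 : M ≤ m * M := le_mul_of_one_le_left hM.le (by linarith)
      rw [hE1c]
      linarith
    have hgap := col_gap (E' := 12 + 4 * n) (X := X) hcov hM hrun1 hE1' hlam (by omega) hR0' hR hT.npD hT.npS hypx hypD (by
        rw [hE1c, hXc]
        push_cast
        linarith) hmiss
    have hgap' : ((Finset.Icc x a1).filter (fun a => M ∣ a - x ∧ a ∉ A)).card
        ≤ 12 + 4 * n + E1 := by
      refine le_trans (Finset.card_le_card ?_) hgap
      intro a ha
      simp only [Finset.mem_filter, Finset.mem_Icc] at ha ⊢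
      refine ⟨ha.1, ?_, ha.2.2⟩
      have : a - yp = (a - x) + (x - yp) := by ring
      rw [this]
      exact dvd_add ha.2.1 hypc
    exact CornerE_count h hw (by push_cast; rw [hE1c]; linarith) hx1 hgap'
  · -- `nDn k > nDn (y - x) + Zc`
    set q : ℕ := nDn D M (y - x) k with hq
    set q0 : ℕ := nDn D M (y - x) (y - x) with hq0
    set yp : ℤ := x + q0 * M with hyp
    have hqM : (0 : ℤ) ≤ q0 * M := by positivity
    have hypx : x ≤ yp := by rw [hyp]; linarith
    have hypD : yp - y ∉ -D := by
      rw [Finset.mem_neg']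
      have : -(yp - y) = y - x - q0 * M := by rw [hyp]; ring
      rw [this]
      apply CornerE_cut (c := y - x) (k := y - x) hM
      · exact ⟨-q0, by ring⟩
      · rw [← hq0]
      · rw [← hq0]; linarith
    set X : ℕ := (Zc M n).toNat with hX
    have hXc : (X : ℤ) = Zc M n := by rw [hX]; exact Int.toNat_of_nonneg hZ0
    have hypc : M ∣ x - yp := ⟨-q0, by rw [hyp]; ring⟩
    have hmiss : ((Finset.Ico x (yp + X * M)).filter
        (fun a => M ∣ a - yp ∧ a ≤ a1 ∧ a ∉ A)).card ≤ E1 := by
      refine le_trans (Finset.card_le_card ?_) hE1'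
      intro a ha
      simp only [Finset.mem_filter, Finset.mem_Ico] at ha
      obtain ⟨⟨ha0, ha2⟩, hac, ha1, haA⟩ := ha
      have hax : M ∣ a - x := by
        have : a - x = (a - yp) - (x - yp) := by ring
        rw [this]
        exact dvd_sub hac hypc
      have hDa : y1 - a ∈ D := by
        rcases le_or_gt (y1 - a) (y - x) with hle | hgt
        · have hDn : Dn D M (y - x) (y1 - a) := by
            apply dn_of_lt (k := k) hM
            · have : y1 - a - k = (y1 - x - k) - (a - x) := by ring
              rw [this]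
              exact dvd_sub hy1k hax
            · exact hle
            · rw [← hq]
              have h5 : (q0 : ℤ) + Zc M n ≤ q := by linarith
              have h6 : ((q0 : ℤ) + Zc M n) * M ≤ q * M := mul_le_mul_of_nonneg_right h5 hM.le
              rw [hyp, hXc] at ha2
              nlinarith
          have := hDn.2 0 le_rfl (by simpa using hDn.1)
          simpa using this
        · obtain ⟨t, ht⟩ := hax
          have ht0 : 0 ≤ t := by
            by_contra hneg
            push Not at hneg
            nlinarith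
          have := hup.2 t ht0 (by
            have : y1 - x - t * M = y1 - a := by linarith
            rw [this]; linarith)
          have h8 : y1 - x - t * M = y1 - a := by linarith
          rwa [h8] at this
      unfold Exc
      simp only [Finset.mem_filter, Finset.mem_Icc]
      refine ⟨⟨ha0, ha1⟩, Or.inl ?_⟩
      intro hiff
      apply haA
      apply hiff.mp
      left
      rw [Finset.mem_neg']
      have : -(a - y1) = y1 - a := by ring
      rwa [this]
    have hgap := col_gap (E' := E1) (X := X) (E := 12 + 4 * n) hcov hM (lam := 100 * n) h.ry hE0 (by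
      push_cast
      linarith) (by omega) hR0' hR hT.npD hT.npS hypx hypD (by
        rw [hE1c, hXc]
        push_cast
        linarith) hmiss
    have hgap' : ((Finset.Icc x a1).filter (fun a => M ∣ a - x ∧ a ∉ A)).card
        ≤ E1 + (12 + 4 * n) := by
      refine le_trans (Finset.card_le_card ?_) hgap
      intro a ha
      simp only [Finset.mem_filter, Finset.mem_Icc] at ha ⊢
      refine ⟨ha.1, ?_, ha.2.2⟩
      have : a - yp = (a - x) + (x - yp) := by ring
      rw [this]
      exact dvd_add ha.2.1 hypc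
    exact CornerE_count h hw (by push_cast; rw [hE1c]; linarith) hx1 hgap'

end Pool.Agent.MP_f71fe7
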