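import Mathlib

set_option autoImplicit false

open scoped Pointwise

namespace Pool.Agent.MP_f71fe7

/-- `Cov A B D S`: every square of `A × B` is hit by a difference line of `D` or a sum line of `S`. -/
def Cov (A B D S : Finset ℤ) : Prop :=
  ∀ a ∈ A, ∀ b ∈ B, b - a ∈ D ∨ a + b ∈ S

/-- Pure covering configuration of size about `N`. -/
structure Conf (N : ℤ) (A B D S : Finset ℤ) : Prop where
  cov : Cov A B D S
  cA : N - 1 ≤ (A.card : ℤ)
  cB : N - 1 ≤ (B.card : ℤ)
  cD : (D.card : ℤ) ≤ N + 1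
  cS : (S.card : ℤ) ≤ N + 1
  wA : ∀ a ∈ A, ∀ a' ∈ A, a' - a < 2 * N
  wB : ∀ b ∈ B, ∀ b' ∈ B, b' - b < 2 * N

/-- Exceptional rows `y ∈ [b0, b1]` for the column `x`: those where
`[y - x ∈ D] + [x + y ∈ S] ≠ [y ∈ B]`. -/
noncomputable def Exc (B D S : Finset ℤ) (x b0 b1 : ℤ) : Finset ℤ :=
  (Finset.Icc b0 b1).filter
    (fun y => ¬ ((y - x ∈ D ∨ x + y ∈ S) ↔ y ∈ B) ∨ (y - x ∈ D ∧ x + y ∈ S))

/-- `NP U T K R`: the set `U` is `T`-periodic away from at most `K` centres (distance `> R`). -/
def NP (U : Finset ℤ) (T : ℤ) (K : ℕ) (R : ℤ) : Prop :=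
  ∃ F : Finset ℤ, F.card ≤ K ∧ ∀ y : ℤ, (∀ c ∈ F, R < |y - c|) → (y ∈ U ↔ y + T ∈ U)

/-- `LTriple A l δ`: three elements of `A` within distance `l`, with at most `δ` elements of `A`
below the largest of them. -/
def LTriple (A : Finset ℤ) (l : ℤ) (δ : ℕ) : Prop :=
  ∃ x0 ∈ A, ∃ x1 ∈ A, ∃ x2 ∈ A, x0 < x1 ∧ x1 < x2 ∧ x2 ≤ x0 + l ∧
    (A.filter (fun a => a < x2)).card ≤ δ

/-- The elements of `U` congruent to `r` modulo `M`. -/
def cls (U : Finset ℤ) (M r : ℤ) : Finset ℤ := U.filter (fun u => M ∣ u - r)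

/-! ### Symmetries -/

theorem Cov.transpose {A B D S : Finset ℤ} (h : Cov A B D S) : Cov B A (-D) S := by
  intro b hb a ha
  rcases h a ha b hb with h1 | h1
  · left
    rw [Finset.mem_neg']
    have : -(a - b) = b - a := by ring
    rwa [this]
  · right
    rwa [add_comm]

theorem Cov.reflect {A B D S : Finset ℤ} (h : Cov A B D S) : Cov (-A) B S D := by
  intro a ha b hb
  rw [Finset.mem_neg'] at ha
  rcases h (-a) ha b hb with h1 | h1
  · right
    have : b - -a = a + b := by ring
    rwa [this] at h1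
  · left
    have : -a + b = b - a := by ring
    rwa [this] at h1

theorem Conf.transpose {N : ℤ} {A B D S : Finset ℤ} (h : Conf N A B D S) : Conf N B A (-D) S where
  cov := h.cov.transpose
  cA := h.cB
  cB := h.cA
  cD := by rw [Finset.card_neg]; exact h.cD
  cS := h.cS
  wA := h.wB
  wB := h.wA

theorem Conf.reflect {N : ℤ} {A B D S : Finset ℤ} (h : Conf N A B D S) : Conf N (-A) B S D where
  cov := h.cov.reflect
  cA := by rw [Finset.card_neg]; exact h.cA
  cB := h.cB
  cD := h.cS
  cS := h.cD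
  wA := by
    intro a ha a' ha'
    rw [Finset.mem_neg'] at ha ha'
    have := h.wA (-a') ha' (-a) ha
    linarith
  wB := h.wB

/-- Translation of a covering configuration. -/
theorem Conf.translate {N : ℤ} {A B D S : Finset ℤ} (h : Conf N A B D S) (s t : ℤ) :
    Conf N (A.image (fun a => a + s)) (B.image (fun b => b + t)) (D.image (fun d => d + (t - s)))
      (S.image (fun u => u + (s + t))) where
  cov := by
    intro a ha b hb
    simp only [Finset.mem_image] at ha hb ⊢
    obtain ⟨a, ha, rfl⟩ := ha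
    obtain ⟨b, hb, rfl⟩ := hb
    rcases h.cov a ha b hb with h1 | h1
    · left; exact ⟨_, h1, by ring⟩
    · right; exact ⟨_, h1, by ring⟩
  cA := by
    rw [Finset.card_image_of_injective _ (fun x y hxy => by simpa using hxy)]; exact h.cA
  cB := by
    rw [Finset.card_image_of_injective _ (fun x y hxy => by simpa using hxy)]; exact h.cB
  cD := by
    rw [Finset.card_image_of_injective _ (fun x y hxy => by simpa using hxy)]; exact h.cD
  cS := by
    rw [Finset.card_image_of_injective _ (fun x y hxy => by simpa using hxy)]; exact h.cS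
  wA := by
    intro a ha a' ha'
    simp only [Finset.mem_image] at ha ha'
    obtain ⟨a, ha, rfl⟩ := ha
    obtain ⟨a', ha', rfl⟩ := ha'
    have := h.wA a ha a' ha'
    linarith
  wB := by
    intro a ha a' ha'
    simp only [Finset.mem_image] at ha ha'
    obtain ⟨a, ha, rfl⟩ := ha
    obtain ⟨a', ha', rfl⟩ := ha'
    have := h.wB a ha a' ha'
    linarith

theorem card_cls_neg (U : Finset ℤ) (M r : ℤ) : (cls (-U) M r).card = (cls U M (-r)).card := by
  apply Finset.card_bij (fun a _ => -a)
  · intro a ha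
    simp only [cls, Finset.mem_filter, Finset.mem_neg'] at ha ⊢
    refine ⟨ha.1, ?_⟩
    have : -a - -r = -(a - r) := by ring
    rw [this, dvd_neg]
    exact ha.2
  · intro a _ b _ hab
    exact neg_injective hab
  · intro b hb
    simp only [cls, Finset.mem_filter] at hb
    refine ⟨-b, ?_, by simp⟩
    simp only [cls, Finset.mem_filter, Finset.mem_neg', neg_neg]
    refine ⟨hb.1, ?_⟩
    have : -b - r = -(b - -r) := by ring
    rw [this, dvd_neg]
    exact hb.2

/-! ### `NP` basics -/

theorem NP.mono {U : Finset ℤ} {T : ℤ} {K K' : ℕ} {R R' : ℤ} (h : NP U T K R) (hK : K ≤ K')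
    (hR : R ≤ R') : NP U T K' R' := by
  obtain ⟨F, hF, h⟩ := h
  exact ⟨F, hF.trans hK, fun y hy => h y (fun c hc => lt_of_le_of_lt hR (hy c hc))⟩

theorem NP.neg {U : Finset ℤ} {T : ℤ} {K : ℕ} {R : ℤ} (hT : 0 ≤ T) (h : NP U T K R) :
    NP (-U) T K (R + T) := by
  obtain ⟨F, hF, h⟩ := h
  refine ⟨-F, by rwa [Finset.card_neg], fun y hy => ?_⟩
  rw [Finset.mem_neg', Finset.mem_neg']
  have key := h (-y - T) (by
    intro c hc
    have h1 := hy (-c) (by rw [Finset.mem_neg']; simpa using hc)
    have h2 : |y - -c| ≤ |(-y - T) - c| + T := by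
      have e : y - -c = -((-y - T) - c) + (-T) := by ring
      calc |y - -c| = |-((-y - T) - c) + (-T)| := by rw [e]
        _ ≤ |-((-y - T) - c)| + |(-T)| := abs_add_le _ _
        _ = |(-y - T) - c| + T := by rw [abs_neg, abs_neg, abs_of_nonneg hT]
    linarith)
  have e1 : -(y + T) = -y - T := by ring
  have e2 : -y - T + T = -y := by ring
  rw [e1]
  rw [e2] at key
  exact key.symm

theorem NP.mul {U : Finset ℤ} {T : ℤ} {K : ℕ} {R : ℤ} (hT : 0 ≤ T) (h : NP U T K R) (j : ℕ) :
    NP U (j * T) K (R + j * T) := by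
  obtain ⟨F, hF, h⟩ := h
  refine ⟨F, hF, fun y hy => ?_⟩
  have : ∀ i : ℕ, i ≤ j → (y ∈ U ↔ y + i * T ∈ U) := by
    intro i
    induction i with
    | zero => intro _; simp
    | succ i ih =>
      intro hi
      rw [ih (by omega)]
      have key := h (y + i * T) (by
        intro c hc
        have h1 := hy c hc
        have h2 : |y - c| ≤ |(y + i * T) - c| + i * T := by
          have e : y - c = ((y + i * T) - c) + (-(i * T)) := by ring
          calc |y - c| = |((y + i * T) - c) + (-(i * T))| := by rw [← e]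
            _ ≤ |(y + i * T) - c| + |-(i * T)| := abs_add_le _ _
            _ = |(y + i * T) - c| + i * T := by
              rw [abs_neg (↑i * T), abs_of_nonneg (mul_nonneg (Int.natCast_nonneg i) hT)]
        have h3 : (i : ℤ) * T ≤ j * T := by
          apply mul_le_mul_of_nonneg_right _ hT
          exact_mod_cast (by omega : i ≤ j)
        linarith)
      rw [key]
      have : y + i * T + T = y + ((i + 1 : ℕ) : ℤ) * T := by push_cast; ring
      rw [this]
  exact this j le_rfl

end Pool.Agent.MP_f71fe7
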