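import Pool.Agent.MP_f71fe7.Queens
import Pool.Agent.MP_f71fe7.Corner

/-!
Contradiction when both `D` and `S` are concentrated: for every queen
`|4x - u| + |4y - v| = 2 max (|2d - c|, |2s - c'|)` with `u = c' - c`, `v = c' + c`.
-/

set_option autoImplicit false

open scoped Pointwise Classical

namespace Pool.Agent.MP_f71fe7

theorem Final_card_le_diam {X : Finset ℤ} (hX : X.Nonempty) :
    (X.card : ℤ) - 1 ≤ X.max' hX - X.min' hX := by
  have h1 : X ⊆ Finset.Icc (X.min' hX) (X.max' hX) := by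
    intro x hx
    exact Finset.mem_Icc.2 ⟨X.min'_le x hx, X.le_max' x hx⟩
  have h2 := Finset.card_le_card h1
  rw [Int.card_Icc] at h2
  have h3 := X.min'_le _ (X.max'_mem hX)
  omega

/-- For distinct integers the sum of distances to a point is at least about `m^2/4` (here with the
factor `4`: `∑ |4x - u| ≥ m^2 - 1`). -/
theorem sum_abs_ge (X : Finset ℤ) (u : ℤ) : (X.card : ℤ) ^ 2 - 1 ≤ ∑ x ∈ X, |4 * x - u| := by
  induction X using Finset.strongInduction with
  | H X ih =>
    rcases X.eq_empty_or_nonempty with rfl | hX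
    · simp
    · set a := X.min' hX with ha
      set b := X.max' hX with hb
      have hdiam := Final_card_le_diam hX
      rw [← ha, ← hb] at hdiam
      have haX : a ∈ X := X.min'_mem hX
      have hbX : b ∈ X := X.max'_mem hX
      by_cases hab : a = b
      · have h1 : X.card ≤ 1 := by
          rw [← hab] at hdiam
          omega
        have h2 : 0 ≤ ∑ x ∈ X, |4 * x - u| := Finset.sum_nonneg (fun _ _ => abs_nonneg _)
        have h3 : (X.card : ℤ) ≤ 1 := by exact_mod_cast h1
        have h4 : (0 : ℤ) ≤ X.card := Int.natCast_nonneg _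
        nlinarith
      · have hb' : b ∈ X.erase a := Finset.mem_erase.2 ⟨fun h => hab h.symm, hbX⟩
        have hss : (X.erase a).erase b ⊂ X :=
          lt_of_le_of_lt (Finset.erase_subset _ _) (Finset.erase_ssubset haX)
        have h1 := ih _ hss
        have h2 : ∑ x ∈ X, |4 * x - u| =
            |4 * a - u| + (|4 * b - u| + ∑ x ∈ (X.erase a).erase b, |4 * x - u|) := by
          rw [Finset.add_sum_erase (X.erase a) (fun x => |4 * x - u|) hb',
            Finset.add_sum_erase X (fun x => |4 * x - u|) haX]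
        have hc : (((X.erase a).erase b).card : ℤ) = X.card - 2 := by
          have e1 := Finset.card_erase_add_one haX
          have e2 := Finset.card_erase_add_one hb'
          omega
        have h3 : 4 * (b - a) ≤ |4 * a - u| + |4 * b - u| := by
          have e1 := neg_abs_le (4 * a - u)
          have e2 := le_abs_self (4 * b - u)
          linarith
        rw [h2]
        rw [hc] at h1
        nlinarith

/-- The number of integers `w` with `3N/4 < |2w - c| ≤ 1.001 N`. -/
theorem Final_count {N c : ℤ} (hN : 0 ≤ N) (W : Finset ℤ)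
    (h1 : ∀ w ∈ W, 1000 * |2 * w - c| ≤ 1001 * N) (h2 : ∀ w ∈ W, 3 * N < 4 * |2 * w - c|) :
    1000 * (W.card : ℤ) ≤ 251 * N + 2000 := by
  have key : ∀ V : Finset ℤ, (∀ a ∈ V, ∀ b ∈ V, 2000 * (b - a) ≤ 251 * N) →
      2000 * (V.card : ℤ) ≤ 251 * N + 2000 := by
    intro V hV
    rcases V.eq_empty_or_nonempty with rfl | hne
    · simp; linarith
    · have h3 := hV _ (V.min'_mem hne) _ (V.max'_mem hne)
      have h4 := Final_card_le_diam hne
      linarith
  have hp := key (W.filter (fun w => 0 ≤ 2 * w - c)) (by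
    intro a ha b hb
    simp only [Finset.mem_filter] at ha hb
    have e1 := h2 a ha.1
    have e2 := h1 b hb.1
    rw [abs_of_nonneg ha.2] at e1
    rw [abs_of_nonneg hb.2] at e2
    linarith)
  have hm := key (W.filter (fun w => ¬ 0 ≤ 2 * w - c)) (by
    intro a ha b hb
    simp only [Finset.mem_filter, not_le] at ha hb
    have e1 := h1 a ha.1
    have e2 := h2 b hb.1
    rw [abs_of_neg ha.2] at e1
    rw [abs_of_neg hb.2] at e2
    linarith)
  have h5 := Finset.card_filter_add_card_filter_not (s := W) (fun w => 0 ≤ 2 * w - c)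
  have h6 : ((W.filter (fun w => 0 ≤ 2 * w - c)).card : ℤ) +
      (W.filter (fun w => ¬ 0 ≤ 2 * w - c)).card = W.card := by
    exact_mod_cast h5
  linarith

/-- Let `Q'` be the queens with `1000 |2d - c| ≤ 1001 N` and `1000 |2s - c'| ≤ 1001 N`; at least
`0.998 N - 1` queens. `∑ (|4x - u| + |4y - v|) ≥ 2 |Q'|^2 - 2 ≥ 1.99 N^2`. On the other hand the
number of queens of `Q'` with `|2d - c| > 3N/4` is at most `0.251 N + 4`, same for `s`, so
`2 ∑ max ≤ 2 ((N+1) 3N/4 + (0.502 N + 8) 0.251 N) < 1.76 N^2 + ...`. -/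
theorem conc_false {N : ℤ} {Q : Finset (ℤ × ℤ)} (h : QC N Q) (hN : 10 ^ 6 ≤ N)
    (hD : Conc N (dD Q)) (hS : Conc N (sS Q)) : False := by
  obtain ⟨c, hc⟩ := hD
  obtain ⟨c', hc'⟩ := hS
  have hN6 : (1000000 : ℤ) ≤ N := by linarith
  have hinjd : ∀ p ∈ Q, ∀ q ∈ Q, p.2 - p.1 = q.2 - q.1 → p = q := by
    intro p hp q hq e
    by_contra hne
    exact (h.indep p hp q hq hne).2.2.2 e
  have hinjs : ∀ p ∈ Q, ∀ q ∈ Q, p.1 + p.2 = q.1 + q.2 → p = q := by
    intro p hp q hq e
    by_contra hne
    exact (h.indep p hp q hq hne).2.2.1 e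
  have hinjx : ∀ p ∈ Q, ∀ q ∈ Q, p.1 = q.1 → p = q := by
    intro p hp q hq e
    by_contra hne
    exact (h.indep p hp q hq hne).1 e
  have hinjy : ∀ p ∈ Q, ∀ q ∈ Q, p.2 = q.2 → p = q := by
    intro p hp q hq e
    by_contra hne
    exact (h.indep p hp q hq hne).2.1 e
  -- transfer of counts
  have hcd : 1000 * ((Q.filter (fun p => 1001 * N < 1000 * |2 * (p.2 - p.1) - c|)).card : ℤ)
      ≤ N := by
    have e : (Q.filter (fun p => 1001 * N < 1000 * |2 * (p.2 - p.1) - c|)).card ≤
        ((dD Q).filter (fun d => 1001 * N < 1000 * |2 * d - c|)).card := by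
      apply Finset.card_le_card_of_injOn (fun p => p.2 - p.1)
      · intro p hp
        simp only [Finset.coe_filter, Set.mem_ofPred_eq] at hp ⊢
        exact ⟨Finset.mem_image_of_mem _ hp.1, hp.2⟩
      · intro p hp q hq e
        simp only [Finset.coe_filter, Set.mem_ofPred_eq] at hp hq
        exact hinjd p hp.1 q hq.1 e
    have e' : ((Q.filter (fun p => 1001 * N < 1000 * |2 * (p.2 - p.1) - c|)).card : ℤ) ≤
        ((dD Q).filter (fun d => 1001 * N < 1000 * |2 * d - c|)).card := by exact_mod_cast e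
    linarith
  have hcs : 1000 * ((Q.filter (fun p => 1001 * N < 1000 * |2 * (p.1 + p.2) - c'|)).card : ℤ)
      ≤ N := by
    have e : (Q.filter (fun p => 1001 * N < 1000 * |2 * (p.1 + p.2) - c'|)).card ≤
        ((sS Q).filter (fun d => 1001 * N < 1000 * |2 * d - c'|)).card := by
      apply Finset.card_le_card_of_injOn (fun p => p.1 + p.2)
      · intro p hp
        simp only [Finset.coe_filter, Set.mem_ofPred_eq] at hp ⊢
        exact ⟨Finset.mem_image_of_mem _ hp.1, hp.2⟩
      · intro p hp q hq e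
        simp only [Finset.coe_filter, Set.mem_ofPred_eq] at hp hq
        exact hinjs p hp.1 q hq.1 e
    have e' : ((Q.filter (fun p => 1001 * N < 1000 * |2 * (p.1 + p.2) - c'|)).card : ℤ) ≤
        ((sS Q).filter (fun d => 1001 * N < 1000 * |2 * d - c'|)).card := by exact_mod_cast e
    linarith
  set Q' := Q.filter (fun p => 1000 * |2 * (p.2 - p.1) - c| ≤ 1001 * N ∧
    1000 * |2 * (p.1 + p.2) - c'| ≤ 1001 * N) with hQ'
  have hsub : Q ⊆ Q' ∪ (Q.filter (fun p => 1001 * N < 1000 * |2 * (p.2 - p.1) - c|) ∪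
      Q.filter (fun p => 1001 * N < 1000 * |2 * (p.1 + p.2) - c'|)) := by
    intro p hp
    simp only [hQ', Finset.mem_union, Finset.mem_filter]
    by_cases e1 : 1001 * N < 1000 * |2 * (p.2 - p.1) - c|
    · exact Or.inr (Or.inl ⟨hp, e1⟩)
    · by_cases e2 : 1001 * N < 1000 * |2 * (p.1 + p.2) - c'|
      · exact Or.inr (Or.inr ⟨hp, e2⟩)
      · exact Or.inl ⟨hp, not_lt.1 e1, not_lt.1 e2⟩
  have hcard : (Q.card : ℤ) ≤ Q'.card +
      ((Q.filter (fun p => 1001 * N < 1000 * |2 * (p.2 - p.1) - c|)).card +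
      (Q.filter (fun p => 1001 * N < 1000 * |2 * (p.1 + p.2) - c'|)).card) := by
    have e1 := Finset.card_le_card hsub
    have e2 := Finset.card_union_le Q'
      (Q.filter (fun p => 1001 * N < 1000 * |2 * (p.2 - p.1) - c|) ∪
      Q.filter (fun p => 1001 * N < 1000 * |2 * (p.1 + p.2) - c'|))
    have e3 := Finset.card_union_le
      (Q.filter (fun p => 1001 * N < 1000 * |2 * (p.2 - p.1) - c|))
      (Q.filter (fun p => 1001 * N < 1000 * |2 * (p.1 + p.2) - c'|))
    have e4 := e1.trans (e2.trans (Nat.add_le_add_left e3 _))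
    exact_mod_cast e4
  have hge := h.card_ge (by linarith)
  have hle := h.card
  have hm1 : 998 * N ≤ 1000 * (Q'.card : ℤ) := by linarith
  have hQQ : Q' ⊆ Q := Finset.filter_subset _ _
  have hm2 : (Q'.card : ℤ) ≤ N + 1 := by
    have : (Q'.card : ℤ) ≤ Q.card := by exact_mod_cast Finset.card_le_card hQQ
    linarith
  -- lower bound
  have lowx : (Q'.card : ℤ) ^ 2 - 1 ≤ ∑ p ∈ Q', |4 * p.1 - (c' - c)| := by
    have e1 : (Q'.image Prod.fst).card = Q'.card :=
      Finset.card_image_of_injOn (fun p hp q hq e => hinjx p (hQQ hp) q (hQQ hq) e)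
    have e2 := sum_abs_ge (Q'.image Prod.fst) (c' - c)
    rw [e1, Finset.sum_image (fun p hp q hq e => hinjx p (hQQ hp) q (hQQ hq) e)] at e2
    exact e2
  have lowy : (Q'.card : ℤ) ^ 2 - 1 ≤ ∑ p ∈ Q', |4 * p.2 - (c' + c)| := by
    have e1 : (Q'.image Prod.snd).card = Q'.card :=
      Finset.card_image_of_injOn (fun p hp q hq e => hinjy p (hQQ hp) q (hQQ hq) e)
    have e2 := sum_abs_ge (Q'.image Prod.snd) (c' + c)
    rw [e1, Finset.sum_image (fun p hp q hq e => hinjy p (hQQ hp) q (hQQ hq) e)] at e2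
    exact e2
  -- counts of large values
  set Ld := Q'.filter (fun p => 3 * N < 4 * |2 * (p.2 - p.1) - c|) with hLd
  set Ls := Q'.filter (fun p => 3 * N < 4 * |2 * (p.1 + p.2) - c'|) with hLs
  have hLdc : 1000 * (Ld.card : ℤ) ≤ 251 * N + 2000 := by
    have e1 : (Ld.image (fun p => p.2 - p.1)).card = Ld.card :=
      Finset.card_image_of_injOn (fun p hp q hq e =>
        hinjd p (hQQ (Finset.mem_filter.1 hp).1) q (hQQ (Finset.mem_filter.1 hq).1) e)
    rw [← e1]
    apply Final_count (by linarith) (c := c)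
    · intro w hw
      obtain ⟨p, hp, rfl⟩ := Finset.mem_image.1 hw
      exact (Finset.mem_filter.1 (Finset.mem_filter.1 hp).1).2.1
    · intro w hw
      obtain ⟨p, hp, rfl⟩ := Finset.mem_image.1 hw
      exact (Finset.mem_filter.1 hp).2
  have hLsc : 1000 * (Ls.card : ℤ) ≤ 251 * N + 2000 := by
    have e1 : (Ls.image (fun p => p.1 + p.2)).card = Ls.card :=
      Finset.card_image_of_injOn (fun p hp q hq e =>
        hinjs p (hQQ (Finset.mem_filter.1 hp).1) q (hQQ (Finset.mem_filter.1 hq).1) e)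
    rw [← e1]
    apply Final_count (by linarith) (c := c')
    · intro w hw
      obtain ⟨p, hp, rfl⟩ := Finset.mem_image.1 hw
      exact (Finset.mem_filter.1 (Finset.mem_filter.1 hp).1).2.2
    · intro w hw
      obtain ⟨p, hp, rfl⟩ := Finset.mem_image.1 hw
      exact (Finset.mem_filter.1 hp).2
  -- upper bound, pointwise
  have hpt : ∀ p ∈ Q', 2000 * (|4 * p.1 - (c' - c)| + |4 * p.2 - (c' + c)|) ≤
      3000 * N + (if p ∈ Ld then 1004 * N else 0) + (if p ∈ Ls then 1004 * N else 0) := by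
    intro p hp
    have hp2 := (Finset.mem_filter.1 hp).2
    have e1 : 4 * p.1 - (c' - c) = (2 * (p.1 + p.2) - c') - (2 * (p.2 - p.1) - c) := by ring
    have e2 : 4 * p.2 - (c' + c) = (2 * (p.1 + p.2) - c') + (2 * (p.2 - p.1) - c) := by ring
    rw [e1, e2]
    set a := 2 * (p.1 + p.2) - c' with ha
    set b := 2 * (p.2 - p.1) - c with hb
    have e3 : |a - b| + |a + b| = 2 * max |a| |b| := by
      rcases abs_cases (a - b) with h1 | h1 <;> rcases abs_cases (a + b) with h2 | h2 <;>
        rcases abs_cases a with h3 | h3 <;> rcases abs_cases b with h4 | h4 <;>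
        rcases max_cases |a| |b| with h5 | h5 <;> omega
    rw [e3]
    have hmd : p ∈ Ld ↔ 3 * N < 4 * |b| := by
      rw [hLd, Finset.mem_filter]
      exact ⟨fun e => e.2, fun e => ⟨hp, e⟩⟩
    have hms : p ∈ Ls ↔ 3 * N < 4 * |a| := by
      rw [hLs, Finset.mem_filter]
      exact ⟨fun e => e.2, fun e => ⟨hp, e⟩⟩
    have g1 := hp2.1
    have g2 := hp2.2
    rcases max_cases |a| |b| with h5 | h5
    · rw [h5.1]
      by_cases e4 : p ∈ Ls
      · rw [if_pos e4]
        split_ifs <;> linarith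
      · rw [if_neg e4]
        rw [hms, not_lt] at e4
        split_ifs <;> linarith
    · rw [h5.1]
      by_cases e4 : p ∈ Ld
      · rw [if_pos e4]
        split_ifs <;> linarith
      · rw [if_neg e4]
        rw [hmd, not_lt] at e4
        split_ifs <;> linarith
  have hsum := Finset.sum_le_sum hpt
  rw [← Finset.mul_sum, Finset.sum_add_distrib, Finset.sum_add_distrib, Finset.sum_add_distrib,
    Finset.sum_const, ← Finset.sum_filter, ← Finset.sum_filter, Finset.sum_const,
    Finset.sum_const] at hsum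
  have hf1 : Q'.filter (fun p => p ∈ Ld) = Ld := by
    ext p
    simp only [Finset.mem_filter, hLd]
    tauto
  have hf2 : Q'.filter (fun p => p ∈ Ls) = Ls := by
    ext p
    simp only [Finset.mem_filter, hLs]
    tauto
  rw [hf1, hf2] at hsum
  simp only [nsmul_eq_mul] at hsum
  have hm0 : (0 : ℤ) ≤ Q'.card := Int.natCast_nonneg _
  have hA : 4000 * ((Q'.card : ℤ) ^ 2 - 1) ≤
      (Q'.card : ℤ) * (3000 * N) + (Ld.card : ℤ) * (1004 * N) + (Ls.card : ℤ) * (1004 * N) := by
    linarith
  have hB : 1000 * ((Ld.card : ℤ) * (1004 * N)) ≤ (251 * N + 2000) * (1004 * N) := by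
    nlinarith
  have hC : 1000 * ((Ls.card : ℤ) * (1004 * N)) ≤ (251 * N + 2000) * (1004 * N) := by
    nlinarith
  have hE : (Q'.card : ℤ) * (3000 * N) ≤ (N + 1) * (3000 * N) :=
    mul_le_mul_of_nonneg_right hm2 (by linarith)
  have hF : (998 * N) ^ 2 ≤ (1000 * (Q'.card : ℤ)) ^ 2 :=
    pow_le_pow_left₀ (by linarith) hm1 2
  nlinarith

end Pool.Agent.MP_f71fe7
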