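import Pool.Agent.MP_f71fe7.Queens
import Pool.Agent.Queens.ParityMain

/-!
The parity case (theorem `Pool.Agent.Queens.Parity.no_cfg` of helper57), in the present notation.
-/

set_option autoImplicit false

open scoped Pointwise

namespace Pool.Agent.MP_f71fe7

theorem parity_base {N : ℤ} {Q : Finset (ℤ × ℤ)} (h : QC N Q) (hN : 5 * 10 ^ 6 ≤ N)
    (hA : ∀ a ∈ eA N Q, (2 : ℤ) ∣ a - N) (hB : ∀ b ∈ eB N Q, (2 : ℤ) ∣ b - N) : False := by
  classical
  set φ : ℤ × ℤ → ℤ × ℤ := fun p => (2 * p.1 - 2 * N + 1, 2 * p.2 - 2 * N + 1) with hφ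
  have hsep : ∀ p ∈ Q, ∀ q ∈ Q, (p.1 = q.1 ∨ p.2 = q.2 ∨ p.1 + p.2 = q.1 + q.2 ∨
      p.2 - p.1 = q.2 - q.1) → p = q := by
    intro p hp q hq hpq
    by_contra hne
    obtain ⟨h1, h2, h3, h4⟩ := h.indep p hp q hq hne
    rcases hpq with h5 | h5 | h5 | h5
    · exact h1 h5
    · exact h2 h5
    · exact h3 h5
    · exact h4 h5
  refine Pool.Agent.Queens.Parity.no_cfg (2 * N) (by linarith) (by omega) (Q.image φ) ?_
  refine ⟨?_, ?_, ?_, ?_, ?_, ?_, ?_, ?_, ?_⟩
  · intro p hp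
    rw [Finset.mem_image] at hp
    obtain ⟨q, hq, rfl⟩ := hp
    obtain ⟨h1, h2, h3, h4⟩ := h.inb q hq
    simp only [hφ, abs_lt]
    refine ⟨⟨by linarith, by linarith⟩, by linarith, by linarith⟩
  · intro p hp q hq hpq
    rw [Finset.mem_image] at hp hq
    obtain ⟨p, hp, rfl⟩ := hp
    obtain ⟨q, hq, rfl⟩ := hq
    simp only [hφ] at hpq
    rw [hsep p hp q hq (Or.inl (by linarith))]
  · intro p hp q hq hpq
    rw [Finset.mem_image] at hp hq
    obtain ⟨p, hp, rfl⟩ := hp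
    obtain ⟨q, hq, rfl⟩ := hq
    simp only [hφ] at hpq
    rw [hsep p hp q hq (Or.inr (Or.inl (by linarith)))]
  · intro p hp q hq hpq
    rw [Finset.mem_image] at hp hq
    obtain ⟨p, hp, rfl⟩ := hp
    obtain ⟨q, hq, rfl⟩ := hq
    simp only [hφ] at hpq
    rw [hsep p hp q hq (Or.inr (Or.inr (Or.inr (by linarith))))]
  · intro p hp q hq hpq
    rw [Finset.mem_image] at hp hq
    obtain ⟨p, hp, rfl⟩ := hp
    obtain ⟨q, hq, rfl⟩ := hq
    simp only [hφ] at hpq
    rw [hsep p hp q hq (Or.inr (Or.inr (Or.inl (by linarith))))]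
  · intro x y hx hy hx4 hy4
    rw [abs_lt] at hx hy
    obtain ⟨u, hu⟩ : ∃ u : ℤ, x = 2 * u - 2 * N + 1 := ⟨(x + 2 * N - 1) / 2, by omega⟩
    obtain ⟨v, hv⟩ : ∃ v : ℤ, y = 2 * v - 2 * N + 1 := ⟨(y + 2 * N - 1) / 2, by omega⟩
    obtain ⟨q, hq, hcase⟩ := h.dom u v (by omega) (by omega) (by omega) (by omega)
    refine ⟨φ q, Finset.mem_image_of_mem _ hq, ?_⟩
    simp only [hφ]
    rcases hcase with h5 | h5 | h5 | h5
    · left; rw [hu, h5]
    · right; left; rw [hv, h5]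
    · right; right; right; rw [hu, hv]; linarith
    · right; right; left; rw [hu, hv]; linarith
  · have h1 : ((Q.image φ).card : ℤ) ≤ Q.card := by exact_mod_cast Finset.card_image_le
    have h2 := h.card
    linarith
  · intro x hx hx4
    rw [abs_lt] at hx
    obtain ⟨u, hu⟩ : ∃ u : ℤ, x = 2 * u - 2 * N + 1 := ⟨(x + 2 * N - 1) / 2, by omega⟩
    by_contra hcon
    push Not at hcon
    have hmem : u ∈ eA N Q := by
      simp only [eA, Finset.mem_sdiff, Finset.mem_Ico, Finset.mem_image, not_exists, not_and]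
      refine ⟨⟨by omega, by omega⟩, ?_⟩
      intro q hq hqu
      apply hcon (φ q) (Finset.mem_image_of_mem _ hq)
      simp only [hφ]
      rw [hqu, hu]
    have := hA u hmem
    omega
  · intro y hy hy4
    rw [abs_lt] at hy
    obtain ⟨v, hv⟩ : ∃ v : ℤ, y = 2 * v - 2 * N + 1 := ⟨(y + 2 * N - 1) / 2, by omega⟩
    by_contra hcon
    push Not at hcon
    have hmem : v ∈ eB N Q := by
      simp only [eB, Finset.mem_sdiff, Finset.mem_Ico, Finset.mem_image, not_exists, not_and]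
      refine ⟨⟨by omega, by omega⟩, ?_⟩
      intro q hq hqv
      apply hcon (φ q) (Finset.mem_image_of_mem _ hq)
      simp only [hφ]
      rw [hqv, hv]
    have := hB v hmem
    omega

theorem parity_false {N : ℤ} {Q : Finset (ℤ × ℤ)} (h : QC N Q) (hN : 5 * 10 ^ 6 ≤ N) {r r' : ℤ}
    (hA : ∀ a ∈ eA N Q, (2 : ℤ) ∣ a - r) (hB : ∀ b ∈ eB N Q, (2 : ℤ) ∣ b - r') : False := by
  have main2 : ∀ Q : Finset (ℤ × ℤ), QC N Q → (∃ r : ℤ, ∀ a ∈ eA N Q, (2 : ℤ) ∣ a - r) →
      (∀ b ∈ eB N Q, (2 : ℤ) ∣ b - N) → False := by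
    rintro Q hQ ⟨r, hr⟩ h2
    by_cases hr2 : (2 : ℤ) ∣ r - N
    · refine parity_base hQ hN ?_ h2
      intro a ha
      have := hr a ha
      omega
    · refine parity_base hQ.mirror hN ?_ ?_
      · intro a ha
        rw [eA_mirror] at ha
        have := hr _ ha
        omega
      · intro b hb
        rw [eB_mirror] at hb
        exact h2 b hb
  by_cases hr2 : (2 : ℤ) ∣ r' - N
  · exact main2 Q h ⟨r, hA⟩ (fun b hb => by have := hB b hb; omega)
  · refine main2 _ h.swap.mirror.swap ⟨r, ?_⟩ ?_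
    · intro a ha
      rw [eA_swap, eB_mirror, eB_swap] at ha
      exact hA a ha
    · intro b hb
      rw [eB_swap, eA_mirror, eA_swap] at hb
      have := hB _ hb
      omega

end Pool.Agent.MP_f71fe7
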