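import Pool.Agent.MP_f71fe7.PeriodicC

set_option autoImplicit false

open scoped Pointwise

namespace Pool.Agent.MP_f71fe7

theorem Conf.reflectY {N : ℤ} {A B D S : Finset ℤ} (h : Conf N A B D S) :
    Conf N A (-B) (-S) (-D) := h.transpose.reflect.transpose

/-- All four sets are nearly periodic with a common even modulus. From `LTriple A 200 4` get
`T ≤ 200^3`; `np_B` gives `NP B T 62 (2T)`, `NP.neg` gives `NP (-B) T 62 (3T)`; `NP.ltriple` gives
`LTriple B (6T) 125`, `LTriple (-B) (8T) 125` with periods `T1 ≤ (6T)^3`, `T2 ≤ (8T)^3`; put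
`M = 2 T T1 T2`. `NP A` from `np_B` for the transposed configuration and `NP.mul`; `NP D` from
`np_D`; `NP S` from `np_D` for `Conf.reflectY`. -/
theorem periodic_left {N : ℤ} {A B D S : Finset ℤ} (h : Conf N A B D S) (hN : 1000 ≤ N)
    (hA : LTriple A 200 4) :
    ∃ M : ℤ, 0 < M ∧ 2 ∣ M ∧ M ≤ 10 ^ 54 ∧ NP A M 1000 (4 * M) ∧ NP B M 1000 (4 * M) ∧
      NP D M 1000 (4 * M) ∧ NP S M 1000 (4 * M) := by
  obtain ⟨T, hT, hTl, hTri⟩ := hA.tri
  have nB : NP B T (38 + 6 * 4) (2 * T) := np_B h (by linarith) hTri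
  have cB : 1000 - 1 ≤ (B.card : ℤ) := by
    have := h.cB
    linarith
  have nB' : NP (-B) T (38 + 6 * 4) (2 * T + T) := nB.neg hT.le
  have cB' : 1000 - 1 ≤ ((-B).card : ℤ) := by
    rw [Finset.card_neg]
    exact cB
  have L1 := nB.ltriple hT (by linarith) (by omega)
  have L2 := nB'.ltriple hT (by linarith) (by omega)
  obtain ⟨T1, hT1, hT1l, hTri1⟩ := L1.tri
  obtain ⟨T2, hT2, hT2l, hTri2⟩ := L2.tri
  have hM : 0 < 2 * T * T1 * T2 := by positivity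
  have hjA : (0 : ℤ) ≤ 2 * T * T2 := by positivity
  have hjB : (0 : ℤ) ≤ 2 * T1 * T2 := by positivity
  obtain ⟨jA, eA⟩ := Int.eq_ofNat_of_zero_le hjA
  obtain ⟨jB, eB⟩ := Int.eq_ofNat_of_zero_le hjB
  have mA : (jA : ℤ) * T1 = 2 * T * T1 * T2 := by rw [← eA]; ring
  have mB : (jB : ℤ) * T = 2 * T * T1 * T2 := by rw [← eB]; ring
  have leT1 : T1 ≤ 2 * T * T1 * T2 := by
    have : 1 ≤ 2 * T * T2 := by
      have : 0 < 2 * T * T2 := by positivity
      linarith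
    calc T1 = 1 * T1 := by ring
      _ ≤ (2 * T * T2) * T1 := mul_le_mul_of_nonneg_right this hT1.le
      _ = 2 * T * T1 * T2 := by ring
  have leT : T ≤ 2 * T * T1 * T2 := by
    have : 1 ≤ 2 * T1 * T2 := by
      have : 0 < 2 * T1 * T2 := by positivity
      linarith
    calc T = 1 * T := by ring
      _ ≤ (2 * T1 * T2) * T := mul_le_mul_of_nonneg_right this hT.le
      _ = 2 * T * T1 * T2 := by ring
  refine ⟨2 * T * T1 * T2, hM, ⟨T * T1 * T2, by ring⟩, ?_, ?_, ?_, ?_, ?_⟩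
  · have b1 : T1 ≤ (6 * 200 ^ 3) ^ 3 := by
      refine hT1l.trans (pow_le_pow_left₀ (by linarith) ?_ 3)
      linarith
    have b2 : T2 ≤ (8 * 200 ^ 3) ^ 3 := by
      refine hT2l.trans (pow_le_pow_left₀ (by linarith) ?_ 3)
      linarith
    calc 2 * T * T1 * T2 ≤ 2 * 200 ^ 3 * (6 * 200 ^ 3) ^ 3 * (8 * 200 ^ 3) ^ 3 := by
          gcongr
      _ ≤ 10 ^ 54 := by norm_num
  · have nA := np_B h.transpose (by linarith) hTri1
    have nA' := nA.mul hT1.le jA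
    rw [mA] at nA'
    exact nA'.mono (by norm_num) (by linarith)
  · have nB'' := nB.mul hT.le jB
    rw [mB] at nB''
    exact nB''.mono (by norm_num) (by linarith)
  · have nD := np_D h hN hTri hTri1 hM ⟨2 * T1 * T2, by ring⟩ ⟨2 * T * T2, by ring⟩
    exact nD.mono le_rfl (by linarith)
  · have nS := np_D h.reflectY hN hTri hTri2 hM ⟨2 * T1 * T2, by ring⟩ ⟨2 * T * T1, by ring⟩
    have nS' := nS.neg hM.le
    rw [neg_neg] at nS'
    exact nS'.mono le_rfl (by linarith)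

theorem periodic_main {N : ℤ} {A B D S : Finset ℤ} (h : Conf N A B D S) (hN : 1000 ≤ N)
    (hT : LTriple A 200 4 ∨ LTriple (-A) 200 4 ∨ LTriple B 200 4 ∨ LTriple (-B) 200 4) :
    ∃ M : ℤ, 0 < M ∧ 2 ∣ M ∧ M ≤ 10 ^ 54 ∧ NP A M 1000 (5 * M) ∧ NP B M 1000 (5 * M) ∧
      NP D M 1000 (5 * M) ∧ NP S M 1000 (5 * M) := by
  have key : ∀ {A B D S : Finset ℤ}, Conf N A B D S → LTriple A 200 4 →
      ∃ M : ℤ, 0 < M ∧ 2 ∣ M ∧ M ≤ 10 ^ 54 ∧ NP A M 1000 (4 * M) ∧ NP B M 1000 (4 * M) ∧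
      NP D M 1000 (4 * M) ∧ NP S M 1000 (4 * M) := fun h hA => periodic_left h hN hA
  have up : ∀ {U : Finset ℤ} {M : ℤ}, 0 < M → NP U M 1000 (4 * M) → NP U M 1000 (5 * M) :=
    fun hM h => h.mono le_rfl (by linarith)
  have ng : ∀ {U : Finset ℤ} {M : ℤ}, 0 < M → NP (-U) M 1000 (4 * M) → NP U M 1000 (5 * M) := by
    intro U M hM h
    have h1 := h.neg hM.le
    rw [neg_neg] at h1
    exact h1.mono le_rfl (by linarith)
  rcases hT with hT | hT | hT | hT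
  · obtain ⟨M, hM, h2, hle, pA, pB, pD, pS⟩ := key h hT
    exact ⟨M, hM, h2, hle, up hM pA, up hM pB, up hM pD, up hM pS⟩
  · obtain ⟨M, hM, h2, hle, pA, pB, pS, pD⟩ := key h.reflect hT
    exact ⟨M, hM, h2, hle, ng hM pA, up hM pB, up hM pD, up hM pS⟩
  · obtain ⟨M, hM, h2, hle, pB, pA, pD, pS⟩ := key h.transpose hT
    exact ⟨M, hM, h2, hle, up hM pA, up hM pB, ng hM pD, up hM pS⟩
  · obtain ⟨M, hM, h2, hle, pB, pA, pS, pD⟩ := key h.transpose.reflect hT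
    exact ⟨M, hM, h2, hle, up hM pA, ng hM pB, ng hM pD, up hM pS⟩

end Pool.Agent.MP_f71fe7
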