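import Pool.Agent.MP_f71fe7.Triple
import Pool.Agent.MP_f71fe7.Periodic
import Pool.Agent.MP_f71fe7.Classes
import Pool.Agent.MP_f71fe7.Corner
import Pool.Agent.MP_f71fe7.Final
import Pool.Agent.MP_f71fe7.ParityFalse

set_option autoImplicit false

open scoped Pointwise

namespace Pool.Agent.MP_f71fe7

/-- The main argument. -/
theorem main_false {N : ℤ} (hbig : 10 ^ 285000 ≤ N) (Q : Finset (ℤ × ℤ)) (h : QC N Q) :
    False := by
  have hpow : ∀ a : ℕ, a ≤ 285000 → (10 : ℤ) ^ a ≤ N := fun a ha =>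
    le_trans (pow_le_pow_right₀ (by norm_num) ha) hbig
  have hN8 : (10 : ℤ) ^ 8 ≤ N := hpow 8 (by norm_num)
  have hN0 : 0 ≤ N := le_trans (by norm_num) hN8
  have hN1000 : 1000 ≤ N := le_trans (by norm_num) hN8
  have hc := h.conf hN0
  obtain ⟨M, hM0, hM2, hMl, npA, npB, npD, npS⟩ :=
    periodic_main hc hN1000 (exists_triple hc hN1000)
  obtain ⟨m, rfl⟩ : ∃ m : ℕ, M = (m : ℤ) := ⟨M.toNat, (Int.toNat_of_nonneg hM0.le).symm⟩
  have hm0 : 0 < m := by exact_mod_cast hM0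
  have hm2 : 2 ∣ m := by exact_mod_cast hM2
  have h200 : 200 * (m : ℤ) ≤ 10 ^ 57 := by
    have : (10 : ℤ) ^ 57 = 1000 * 10 ^ 54 := by norm_num
    rw [this]
    linarith
  have hbig5000 : (200 * (m : ℤ)) ^ 5000 ≤ N := by
    calc (200 * (m : ℤ)) ^ 5000 ≤ (10 ^ 57) ^ 5000 := pow_le_pow_left₀ (by linarith) h200 _
      _ = 10 ^ 285000 := by rw [← pow_mul]
      _ ≤ N := hbig
  have hM3 : 10000 * (m : ℤ) ^ 3 ≤ N := by
    have h1 : (m : ℤ) ^ 3 ≤ (10 ^ 54) ^ 3 := pow_le_pow_left₀ hM0.le hMl _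
    have h2 : ((10 : ℤ) ^ 54) ^ 3 = 10 ^ 162 := by rw [← pow_mul]
    have h3 : (10 : ℤ) ^ 166 ≤ N := hpow 166 (by norm_num)
    have h4 : (10 : ℤ) ^ 166 = 10000 * 10 ^ 162 := by norm_num
    calc 10000 * (m : ℤ) ^ 3 ≤ 10000 * ((10 ^ 54) ^ 3) := mul_le_mul_of_nonneg_left h1 (by norm_num)
      _ = 10 ^ 166 := by rw [h2, h4]
      _ ≤ N := h3
  rcases class_dichotomy h m hm0 hm2 hM3 with ⟨r, r', hA, hB⟩ | hsz
  · exact parity_false h (le_trans (by norm_num) hN8) hA hB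
  · have w6 : ∀ {U : Finset ℤ}, NP U m 1000 (5 * m) → NP U m 1000 (6 * m) :=
      fun hU => hU.mono le_rfl (by linarith)
    have hcD : Conc N (dD Q) :=
      conc_main hc hM0 hM2 hbig5000 (w6 npA) (w6 npB) (w6 npD) (w6 npS)
        (fun r => (hsz r).1) (fun r => (hsz r).2.1) (fun r => (hsz r).2.2.1)
        (fun r => (hsz r).2.2.2)
    have hcS : Conc N (sS Q) := by
      refine conc_main hc.reflect hM0 hM2 hbig5000 ?_ (w6 npB) (w6 npS) (w6 npD)
        (fun r => ?_) (fun r => (hsz r).2.1) (fun r => (hsz r).2.2.2)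
        (fun r => (hsz r).2.2.1)
      · exact (npA.neg hM0.le).mono le_rfl (by linarith)
      · rw [card_cls_neg]
        exact (hsz (-r)).1
    exact conc_false h (le_trans (by norm_num) hN8) hcD hcS

/-- Every even board of size `2N`, `N ≥ 10^285000`, needs at least `N + 2` queens. -/
theorem no_small (N : ℕ) (hN : 10 ^ 285000 ≤ N) (Q : Finset (ℤ × ℤ)) : ¬ QC (N : ℤ) Q := by
  intro hQ
  refine main_false ?_ Q hQ
  exact_mod_cast hN

theorem exists_bad : ∃ N : ℕ, 1 ≤ N ∧ ∀ Q : Finset (ℤ × ℤ), ¬ QC (N : ℤ) Q := by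
  obtain ⟨e, he⟩ : ∃ e : ℕ, e = 285000 := ⟨_, rfl⟩
  refine ⟨10 ^ e, Nat.one_le_pow _ _ (by norm_num), fun Q => no_small _ ?_ Q⟩
  rw [he]

/-- The negation of the conjectured bound. -/
theorem main :
    ¬ (∀ n : ℕ, 1 ≤ n → ∃ S : Finset (ℕ × ℕ),
    S ⊆ Finset.range n ×ˢ Finset.range n ∧
    (∀ p ∈ S, ∀ q ∈ S, p ≠ q →
      ¬ (p.1 = q.1 ∨ p.2 = q.2 ∨ p.1 + p.2 = q.1 + q.2 ∨ p.1 + q.2 = q.1 + p.2)) ∧
    (∀ x ∈ Finset.range n ×ˢ Finset.range n, x ∈ S ∨
      ∃ q ∈ S, x.1 = q.1 ∨ x.2 = q.2 ∨ x.1 + x.2 = q.1 + q.2 ∨ x.1 + q.2 = q.1 + x.2) ∧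
    S.card ≤ (n + 1) / 2 + 1) := by
  intro hall
  obtain ⟨N, hN1, hN⟩ := exists_bad
  obtain ⟨S, hS1, hS2, hS3, hS4⟩ := hall (2 * N) (by omega)
  have hinj : Function.Injective (fun p : ℕ × ℕ => ((p.1 : ℤ), (p.2 : ℤ))) := by
    intro p q hpq
    simp only [Prod.mk.injEq, Nat.cast_inj] at hpq
    exact Prod.ext hpq.1 hpq.2
  refine hN (S.image (fun p => ((p.1 : ℤ), (p.2 : ℤ)))) ⟨?_, ?_, ?_, ?_⟩
  · intro p hp
    simp only [Finset.mem_image] at hp
    obtain ⟨q, hq, rfl⟩ := hp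
    have := hS1 hq
    simp only [Finset.mem_product, Finset.mem_range] at this
    obtain ⟨h1, h2⟩ := this
    refine ⟨by positivity, ?_, by positivity, ?_⟩
    · show (q.1 : ℤ) < 2 * N
      exact_mod_cast h1
    · show (q.2 : ℤ) < 2 * N
      exact_mod_cast h2
  · intro p hp q hq hpq
    simp only [Finset.mem_image] at hp hq
    obtain ⟨p, hp, rfl⟩ := hp
    obtain ⟨q, hq, rfl⟩ := hq
    have hne : p ≠ q := fun h => hpq (by rw [h])
    have := hS2 p hp q hq hne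
    push Not at this
    obtain ⟨h1, h2, h3, h4⟩ := this
    refine ⟨?_, ?_, ?_, ?_⟩
    · show (p.1 : ℤ) ≠ q.1
      exact_mod_cast h1
    · show (p.2 : ℤ) ≠ q.2
      exact_mod_cast h2
    · show (p.1 : ℤ) + p.2 ≠ q.1 + q.2
      exact_mod_cast h3
    · show (p.2 : ℤ) - p.1 ≠ q.2 - q.1
      intro h5
      apply h4
      have : (p.1 : ℤ) + q.2 = q.1 + p.2 := by linarith
      exact_mod_cast this
  · intro x y hx0 hx1 hy0 hy1
    obtain ⟨x, rfl⟩ := Int.eq_ofNat_of_zero_le hx0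
    obtain ⟨y, rfl⟩ := Int.eq_ofNat_of_zero_le hy0
    have hmem : (x, y) ∈ Finset.range (2 * N) ×ˢ Finset.range (2 * N) := by
      simp only [Finset.mem_product, Finset.mem_range]
      exact ⟨by exact_mod_cast hx1, by exact_mod_cast hy1⟩
    rcases hS3 (x, y) hmem with h | ⟨q, hq, h⟩
    · exact ⟨_, Finset.mem_image_of_mem _ h, Or.inl rfl⟩
    · refine ⟨_, Finset.mem_image_of_mem _ hq, ?_⟩
      simp only at h ⊢
      rcases h with h | h | h | h
      · left; exact_mod_cast h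
      · right; left; exact_mod_cast h
      · right; right; left; exact_mod_cast h
      · right; right; right
        have : (x : ℤ) + q.2 = q.1 + y := by exact_mod_cast h
        linarith
  · rw [Finset.card_image_of_injective _ hinj]
    have : (2 * N + 1) / 2 + 1 = N + 1 := by omega
    rw [this] at hS4
    exact_mod_cast hS4

end Pool.Agent.MP_f71fe7
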