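import Pool.Agent.MP_f71fe7.Border

/-!
Near periodicity from three close columns.

With `f y = [y - x0 ∈ D]`, `g y = [y + x0 ∈ S]`, `b y = [y ∈ B]` and `t1 = x1 - x0`,
`t2 = x2 - x1`, `s = t1 + t2`, off the exceptional rows
`f y + g y = b y`, `f (y - t1) + g (y + t1) = b y`, `f (y - s) + g (y + s) = b y`.
Eliminating `f` gives `Δ_{t1} Δ_{t2} Δ_s g = 0`, hence `Δ_T ^ 3 g = 0` for `T = t1 t2 s`, and as
`g` takes values in `{0,1}`, `g` is `T`-periodic (`3 (g(y+T) - g(y+2T)) = g y - g (y+3T)`).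
-/

set_option autoImplicit false

open scoped Pointwise

namespace Pool.Agent.MP_f71fe7

/-- a periodic function is periodic for the multiples of the period -/
private theorem PeriodicA_mul {h : ℤ → ℤ} {t u w : ℤ} (ht : 0 < t)
    (hh : ∀ z, u ≤ z → z ≤ w → h (z + t) = h z) (j : ℕ) :
    ∀ z, u ≤ z → z + j * t ≤ w + t → h (z + j * t) = h z := by
  induction j with
  | zero => intro z _ _; simp
  | succ j ih =>
    intro z hz hz'
    have e : z + ((j + 1 : ℕ) : ℤ) * t = z + j * t + t := by push_cast; ring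
    rw [e] at hz' ⊢
    have hj : 0 ≤ (j : ℤ) * t := mul_nonneg (Int.natCast_nonneg j) ht.le
    rw [hh (z + j * t) (by linarith) (by linarith)]
    exact ih z hz (by linarith)

private theorem PeriodicA_mul' {h : ℤ → ℤ} {t u w : ℤ} (ht : 0 < t)
    (hh : ∀ z, u ≤ z → z ≤ w → h (z + t) = h z) {j : ℤ} (hj : 0 ≤ j) :
    ∀ z, u ≤ z → z + j * t ≤ w + t → h (z + j * t) = h z := by
  obtain ⟨k, rfl⟩ := Int.eq_ofNat_of_zero_le hj
  exact PeriodicA_mul ht hh k

private theorem PeriodicA_g {f g b : ℤ → ℤ} (hg : ∀ y, g y = 0 ∨ g y = 1)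
    {t1 t2 u v : ℤ} (ht1 : 0 < t1) (ht2 : 0 < t2)
    (h0 : ∀ y, u ≤ y → y ≤ v → f y + g y = b y)
    (h1 : ∀ y, u ≤ y → y ≤ v → f (y - t1) + g (y + t1) = b y)
    (h2 : ∀ y, u ≤ y → y ≤ v → f (y - (t1 + t2)) + g (y + (t1 + t2)) = b y)
    {T : ℤ} (hT : T = t1 * t2 * (t1 + t2))
    (y : ℤ) (hy : u + T ≤ y) (hy' : y ≤ v - 2 * T) : g y = g (y + T) := by
  -- the basic identity
  have key : ∀ z, u ≤ z → z ≤ v - (t1 + t2) →
      g (z + t1 + t2 + (t1 + t2)) - g (z + t1 + t2) - g (z + t1 + (t1 + t2)) + g (z + t1) =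
        g (z + t2 + (t1 + t2)) - g (z + t2) - g (z + (t1 + t2)) + g z := by
    intro z hz hz'
    have a0 := h0 (z + (t1 + t2)) (by linarith) (by linarith)
    have a1 := h1 (z + (t1 + t2)) (by linarith) (by linarith)
    have a2 := h2 (z + (t1 + t2)) (by linarith) (by linarith)
    have b0 := h0 z hz (by linarith)
    have b1 := h1 z hz (by linarith)
    have c0 := h0 (z + t2) (by linarith) (by linarith)
    have c2 := h2 (z + t2) (by linarith) (by linarith)
    rw [show z + (t1 + t2) - t1 = z + t2 by ring,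
      show z + (t1 + t2) + t1 = z + t1 + (t1 + t2) by ring] at a1
    rw [show z + (t1 + t2) - (t1 + t2) = z by ring,
      show z + (t1 + t2) + (t1 + t2) = z + t1 + t2 + (t1 + t2) by ring] at a2
    rw [show z + t2 - (t1 + t2) = z - t1 by ring] at c2
    rw [show z + t1 + t2 = z + (t1 + t2) by ring] at *
    linarith
  have hs : 0 < t1 + t2 := by linarith
  have hT0 : 0 < T := by rw [hT]; positivity
  -- first factor
  have k1 := PeriodicA_mul'
    (h := fun z => g (z + t2 + (t1 + t2)) - g (z + t2) - g (z + (t1 + t2)) + g z) ht1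
    (u := u) (w := v - (t1 + t2)) (by
      intro z hz hz'
      exact key z hz hz') (j := t2 * (t1 + t2)) (by positivity)
  have e1 : t2 * (t1 + t2) * t1 = T := by rw [hT]; ring
  rw [e1] at k1
  -- second factor
  have k2 := PeriodicA_mul'
    (h := fun z => g (z + T + (t1 + t2)) - g (z + T) - g (z + (t1 + t2)) + g z) ht2
    (u := u) (w := v - (t1 + t2) + t1 - T) (by
      intro z hz hz'
      have := k1 z hz (by linarith)
      rw [show z + T + t2 + (t1 + t2) = z + t2 + T + (t1 + t2) by ring,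
        show z + T + t2 = z + t2 + T by ring] at this
      linarith) (j := t1 * (t1 + t2)) (by positivity)
  have e2 : t1 * (t1 + t2) * t2 = T := by rw [hT]; ring
  rw [e2] at k2
  -- third factor
  have k3 := PeriodicA_mul'
    (h := fun z => g (z + T + T) - g (z + T) - g (z + T) + g z) hs
    (u := u) (w := v - 2 * T) (by
      intro z hz hz'
      have := k2 z hz (by linarith)
      rw [show z + (t1 + t2) + T + T = z + T + T + (t1 + t2) by ring,
        show z + (t1 + t2) + T = z + T + (t1 + t2) by ring]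
      linarith) (j := t1 * t2) (by positivity)
  rw [← hT] at k3
  have k4 := k3 (y - T) (by linarith) (by linarith)
  rw [show y - T + T = y by ring] at k4
  have g1 := hg (y + T + T)
  have g2 := hg (y + T)
  have g3 := hg y
  have g4 := hg (y - T)
  omega

/-- Abstract form. -/
theorem third_diff {f g b : ℤ → ℤ} (hf : ∀ y, f y = 0 ∨ f y = 1) (hg : ∀ y, g y = 0 ∨ g y = 1)
    {t1 t2 u v : ℤ} (ht1 : 0 < t1) (ht2 : 0 < t2)
    (h0 : ∀ y, u ≤ y → y ≤ v → f y + g y = b y)
    (h1 : ∀ y, u ≤ y → y ≤ v → f (y - t1) + g (y + t1) = b y)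
    (h2 : ∀ y, u ≤ y → y ≤ v → f (y - (t1 + t2)) + g (y + (t1 + t2)) = b y)
    (y : ℤ) (hy : u + t1 * t2 * (t1 + t2) ≤ y) (hy' : y ≤ v - 2 * (t1 * t2 * (t1 + t2))) :
    f y = f (y + t1 * t2 * (t1 + t2)) ∧ g y = g (y + t1 * t2 * (t1 + t2)) ∧
      b y = b (y + t1 * t2 * (t1 + t2)) := by
  obtain ⟨T, hT⟩ : ∃ T, T = t1 * t2 * (t1 + t2) := ⟨_, rfl⟩
  have hT0 : 0 < T := by rw [hT]; positivity
  rw [← hT] at hy hy' ⊢
  have hgg : g y = g (y + T) := PeriodicA_g hg ht1 ht2 h0 h1 h2 hT y hy hy'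
  have hff : f (-(-y - T)) = f (-(-y - T + T)) := by
    apply PeriodicA_g (f := fun z => g (-z)) (g := fun z => f (-z)) (b := fun z => b (-z))
      (u := -v) (v := -u) (fun z => hf (-z)) ht1 ht2 ?_ ?_ ?_ hT
    · linarith
    · linarith
    · intro z hz hz'
      have := h0 (-z) (by linarith) (by linarith)
      linarith
    · intro z hz hz'
      have := h1 (-z) (by linarith) (by linarith)
      rw [show -(z - t1) = -z + t1 by ring, show -(z + t1) = -z - t1 by ring]
      linarith
    · intro z hz hz'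
      have := h2 (-z) (by linarith) (by linarith)
      rw [show -(z - (t1 + t2)) = -z + (t1 + t2) by ring,
        show -(z + (t1 + t2)) = -z - (t1 + t2) by ring]
      linarith
  rw [show -(-y - T) = y + T by ring, show -(-y - T + T) = y by ring] at hff
  refine ⟨hff.symm, hgg, ?_⟩
  rw [← h0 y (by linarith) (by linarith), ← h0 (y + T) (by linarith) (by linarith), hff, hgg]

/-- Three columns of a configuration: periodicity of `D`, `S`, `B` along the columns, away from the
exceptional rows. `E` is the union of the three exceptional sets. -/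
theorem per_of_cols {A B D S : Finset ℤ} (hc : Cov A B D S) {x0 x1 x2 b0 b1 T : ℤ}
    (h0 : x0 ∈ A) (h1 : x1 ∈ A) (h2 : x2 ∈ A) (h01 : x0 < x1) (h12 : x1 < x2)
    (hT : T = (x1 - x0) * (x2 - x1) * (x2 - x0)) (y : ℤ) (hy0 : b0 ≤ y - T)
    (hy1 : y + 2 * T ≤ b1)
    (hy : ∀ z, y - T ≤ z → z ≤ y + 2 * T →
      z ∉ Exc B D S x0 b0 b1 ∧ z ∉ Exc B D S x1 b0 b1 ∧ z ∉ Exc B D S x2 b0 b1) :
    (y - x0 ∈ D ↔ y + T - x0 ∈ D) ∧ (x0 + y ∈ S ↔ x0 + y + T ∈ S) ∧ (y ∈ B ↔ y + T ∈ B) := by
  classical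
  have hT' : T = (x1 - x0) * (x2 - x1) * ((x1 - x0) + (x2 - x1)) := by rw [hT]; ring
  have key : ∀ x z, b0 ≤ z → z ≤ b1 → z ∉ Exc B D S x b0 b1 →
      (if z - x ∈ D then (1 : ℤ) else 0) + (if x + z ∈ S then 1 else 0) =
        if z ∈ B then 1 else 0 := by
    intro x z hz hz' hne
    simp only [Exc, Finset.mem_filter, Finset.mem_Icc, not_and, not_or, not_not] at hne
    obtain ⟨e1, e2⟩ := hne ⟨hz, hz'⟩
    by_cases a1 : z - x ∈ D
    · have a2 : x + z ∉ S := e2 a1
      have a3 : z ∈ B := e1.1 (Or.inl a1)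
      simp [a1, a2, a3]
    · by_cases a2 : x + z ∈ S
      · have a3 : z ∈ B := e1.1 (Or.inr a2)
        simp [a1, a2, a3]
      · have a3 : z ∉ B := by
          intro h
          rcases e1.2 h with h | h
          · exact a1 h
          · exact a2 h
        simp [a1, a2, a3]
  have main := third_diff (f := fun z => if z - x0 ∈ D then (1 : ℤ) else 0)
    (g := fun z => if x0 + z ∈ S then (1 : ℤ) else 0) (b := fun z => if z ∈ B then (1 : ℤ) else 0)
    (t1 := x1 - x0) (t2 := x2 - x1) (u := y - T) (v := y + 2 * T)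
    (fun z => by split_ifs <;> simp) (fun z => by split_ifs <;> simp)
    (by linarith) (by linarith)
    (by
      intro z hz hz'
      exact key x0 z (by linarith) (by linarith) (hy z hz hz').1)
    (by
      intro z hz hz'
      have := key x1 z (by linarith) (by linarith) (hy z hz hz').2.1
      rw [show z - (x1 - x0) - x0 = z - x1 by ring, show x0 + (z + (x1 - x0)) = x1 + z by ring]
      exact this)
    (by
      intro z hz hz'
      have := key x2 z (by linarith) (by linarith) (hy z hz hz').2.2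
      rw [show z - (x1 - x0 + (x2 - x1)) - x0 = z - x2 by ring,
        show x0 + (z + (x1 - x0 + (x2 - x1))) = x2 + z by ring]
      exact this)
    y (by rw [← hT']; linarith) (by rw [← hT']; linarith)
  rw [← hT'] at main
  obtain ⟨m1, m2, m3⟩ := main
  rw [← add_assoc] at m2
  have conv : ∀ {P Q : Prop} [Decidable P] [Decidable Q],
      (if P then (1 : ℤ) else 0) = (if Q then 1 else 0) → (P ↔ Q) := by
    intro P Q _ _ h
    by_cases p : P <;> by_cases q : Q <;> simp_all
  exact ⟨conv m1, conv m2, conv m3⟩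

end Pool.Agent.MP_f71fe7
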