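import Pool.Agent.MP_f71fe7.PeriodicA

set_option autoImplicit false

open scoped Pointwise

namespace Pool.Agent.MP_f71fe7

/-- A low triple of `A` with its period `T`. -/
def Tri (A : Finset ℤ) (T l : ℤ) (δ : ℕ) : Prop :=
  ∃ x0 ∈ A, ∃ x1 ∈ A, ∃ x2 ∈ A, x0 < x1 ∧ x1 < x2 ∧ x2 ≤ x0 + l ∧
    T = (x1 - x0) * (x2 - x1) * (x2 - x0) ∧ (A.filter (fun a => a < x2)).card ≤ δ

theorem LTriple.tri {A : Finset ℤ} {l : ℤ} {δ : ℕ} (h : LTriple A l δ) :
    ∃ T : ℤ, 0 < T ∧ T ≤ l ^ 3 ∧ Tri A T l δ := by
  obtain ⟨x0, h0, x1, h1, x2, h2, h01, h12, hl, hδ⟩ := h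
  have e1 : 0 < x1 - x0 := by linarith
  have e2 : 0 < x2 - x1 := by linarith
  have e3 : 0 < x2 - x0 := by linarith
  have e4 : 0 < l := by linarith
  refine ⟨(x1 - x0) * (x2 - x1) * (x2 - x0), by positivity, ?_, x0, h0, x1, h1, x2, h2, h01, h12,
    hl, rfl, hδ⟩
  have f1 : (x1 - x0) * (x2 - x1) ≤ l * l :=
    mul_le_mul (by linarith) (by linarith) e2.le e4.le
  have f2 : (x1 - x0) * (x2 - x1) * (x2 - x0) ≤ l * l * l :=
    mul_le_mul f1 (by linarith) e3.le (by positivity)
  calc _ ≤ l * l * l := f2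
    _ = l ^ 3 := by ring

/-- `B` is nearly periodic as soon as `A` has a low triple. Exceptional sets of the three columns
have at most `12 + 2 δ` elements each (`Conf.exc_le` with the full range of rows); add the two
points `b0 = min B`, `b1 = max B` as centres. -/
theorem np_B {N T l : ℤ} {A B D S : Finset ℤ} (h : Conf N A B D S) (hN : 2 ≤ N) {δ : ℕ}
    (hA : Tri A T l δ) : NP B T (38 + 6 * δ) (2 * T) := by
  classical
  obtain ⟨x0, h0, x1, h1, x2, h2, h01, h12, hl, hT, hδ⟩ := hA
  have hTpos : 0 < T := by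
    rw [hT]
    have e1 : 0 < x1 - x0 := by linarith
    have e2 : 0 < x2 - x1 := by linarith
    have e3 : 0 < x2 - x0 := by linarith
    positivity
  have hBne : B.Nonempty := by
    rw [← Finset.card_pos]
    have := h.cB
    omega
  obtain ⟨b0, hb0⟩ : ∃ b0, b0 = B.min' hBne := ⟨_, rfl⟩
  obtain ⟨b1, hb1⟩ : ∃ b1, b1 = B.max' hBne := ⟨_, rfl⟩
  have hb0B : b0 ∈ B := by rw [hb0]; exact Finset.min'_mem _ _
  have hb1B : b1 ∈ B := by rw [hb1]; exact Finset.max'_mem _ _
  have hlow : ∀ y ∈ B, b0 ≤ y := by intro y hy; rw [hb0]; exact Finset.min'_le _ _ hy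
  have hupp : ∀ y ∈ B, y ≤ b1 := by intro y hy; rw [hb1]; exact Finset.le_max' _ _ hy
  have hb : b0 ≤ b1 := hlow _ hb1B
  have hBe : (B.filter (fun b => b < b0 ∨ b1 < b)).card = 0 := by
    rw [Finset.card_eq_zero, Finset.filter_eq_empty_iff]
    intro y hy
    have e1 := hlow y hy
    have e2 := hupp y hy
    omega
  have hexc : ∀ x ∈ A, x ≤ x2 → (Exc B D S x b0 b1).card ≤ 12 + 2 * δ := by
    intro x hx hx2
    have e1 := h.exc_le hx hb0B hb1B hb
    have e2 : (A.filter (fun a => a < x)).card ≤ δ := by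
      refine le_trans (Finset.card_le_card ?_) hδ
      intro a ha
      rw [Finset.mem_filter] at ha ⊢
      exact ⟨ha.1, lt_of_lt_of_le ha.2 hx2⟩
    omega
  have e0 := hexc x0 h0 (by linarith)
  have e1 := hexc x1 h1 (by linarith)
  have e2 := hexc x2 h2 le_rfl
  refine ⟨(Exc B D S x0 b0 b1 ∪ Exc B D S x1 b0 b1 ∪ Exc B D S x2 b0 b1) ∪ {b0, b1}, ?_, ?_⟩
  · have c1 := Finset.card_union_le
      (Exc B D S x0 b0 b1 ∪ Exc B D S x1 b0 b1 ∪ Exc B D S x2 b0 b1) ({b0, b1} : Finset ℤ)
    have c2 := Finset.card_union_le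
      (Exc B D S x0 b0 b1 ∪ Exc B D S x1 b0 b1) (Exc B D S x2 b0 b1)
    have c3 := Finset.card_union_le (Exc B D S x0 b0 b1) (Exc B D S x1 b0 b1)
    have c4 : ({b0, b1} : Finset ℤ).card ≤ 2 := Finset.card_le_two
    omega
  · intro y hy
    have f0 : 2 * T < |y - b0| := hy b0 (by simp)
    have f1 : 2 * T < |y - b1| := hy b1 (by simp)
    rcases lt_or_ge y (b0 - 2 * T) with g0 | g0
    · have k1 : y ∉ B := fun hyB => by have := hlow y hyB; linarith
      have k2 : y + T ∉ B := fun hyB => by have := hlow _ hyB; linarith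
      simp [k1, k2]
    · have g0' : b0 + 2 * T < y := by
        rcases abs_cases (y - b0) with ⟨ha, hb⟩ | ⟨ha, hb⟩
        · linarith
        · linarith
      rcases lt_or_ge (b1 + 2 * T) y with g1 | g1
      · have k1 : y ∉ B := fun hyB => by have := hupp y hyB; linarith
        have k2 : y + T ∉ B := fun hyB => by have := hupp _ hyB; linarith
        simp [k1, k2]
      · have g1' : y < b1 - 2 * T := by
          rcases abs_cases (y - b1) with ⟨ha, hb⟩ | ⟨ha, hb⟩
          · linarith
          · linarith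
        refine (per_of_cols (b0 := b0) (b1 := b1) h.cov h0 h1 h2 h01 h12 hT y (by linarith)
          (by linarith) ?_).2.2
        intro z hz1 hz2
        have hz : ¬ (2 * T < |y - z|) := by
          rw [not_lt, abs_le]
          constructor <;> linarith
        refine ⟨fun hm => hz (hy z ?_), fun hm => hz (hy z ?_), fun hm => hz (hy z ?_)⟩
        · simp [hm]
        · simp [hm]
        · simp [hm]

theorem PeriodicB_initial (U : Finset ℤ) (m : ℕ) (hm : m ≤ U.card) :
    ∃ V ⊆ U, V.card = m ∧ ∀ v ∈ V, (U.filter (fun u => u < v)).card < m := by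
  classical
  let e := U.orderEmbOfFin rfl
  refine ⟨(Finset.univ.filter (fun i : Fin U.card => (i : ℕ) < m)).map e.toEmbedding, ?_, ?_, ?_⟩
  · intro v hv
    rw [Finset.mem_map] at hv
    obtain ⟨i, -, rfl⟩ := hv
    exact Finset.orderEmbOfFin_mem U rfl i
  · rw [Finset.card_map, Fin.card_filter_val_lt]
    omega
  · intro v hv
    rw [Finset.mem_map] at hv
    obtain ⟨i, hi, rfl⟩ := hv
    rw [Finset.mem_filter] at hi
    have hsub : U.filter (fun u => u < e.toEmbedding i) ⊆
        (Finset.univ.filter (fun j : Fin U.card => j < i)).map e.toEmbedding := by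
      intro u hu
      rw [Finset.mem_filter] at hu
      have hu1 : u ∈ Set.range e := by
        rw [Finset.range_orderEmbOfFin]
        exact hu.1
      obtain ⟨j, rfl⟩ := hu1
      rw [Finset.mem_map]
      refine ⟨j, ?_, rfl⟩
      rw [Finset.mem_filter]
      exact ⟨Finset.mem_univ _, e.lt_iff_lt.mp hu.2⟩
    have h1 := Finset.card_le_card hsub
    rw [Finset.card_map] at h1
    have h2 : (Finset.univ.filter (fun j : Fin U.card => j < i)).card = i := by
      have e1 : (Finset.univ.filter (fun j : Fin U.card => j < i)) = Finset.Iio i := by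
        ext j
        simp
      rw [e1, Fin.card_Iio]
    omega

/-- Triples of bounded depth in nearly periodic sets. Let `y_0 < y_1 < ...` be the elements of `U`.
If some `y_i`, `i ≤ 2K`, is at distance `> R + T` from every centre then `y_i - T, y_i + T ∈ U`, so
`i ≥ 1` and `y_{i-1}, y_i, y_{i+1}` has span `≤ 2T`; otherwise three of `y_0..y_{2K}` are close to
the same centre. -/
theorem NP.ltriple {U : Finset ℤ} {T R : ℤ} {K : ℕ} (hT : 0 < T) (hR : 0 ≤ R) (h : NP U T K R)
    (hU : 2 * K + 2 ≤ U.card) : LTriple U (2 * (R + T)) (2 * K + 1) := by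
  classical
  obtain ⟨F, hF, hper⟩ := h
  obtain ⟨V, hVU, hVc, hV⟩ := PeriodicB_initial U (2 * K + 1) (by omega)
  by_cases hfar : ∃ v ∈ V, ∀ c ∈ F, R + T < |v - c|
  · obtain ⟨v, hv, hc⟩ := hfar
    have hvU := hVU hv
    have h1 : v + T ∈ U := (hper v (fun c hcF => by have := hc c hcF; linarith)).mp hvU
    have h2 : v - T ∈ U := by
      refine (hper (v - T) (fun c hcF => ?_)).mpr (by simpa using hvU)
      have := hc c hcF
      have h3 : |v - c| ≤ |v - T - c| + T := by
        have e : v - c = (v - T - c) + T := by ring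
        calc |v - c| = |(v - T - c) + T| := by rw [← e]
          _ ≤ |v - T - c| + |T| := abs_add_le _ _
          _ = |v - T - c| + T := by rw [abs_of_pos hT]
      linarith
    have hne : (U.filter (fun u => v < u)).Nonempty :=
      ⟨v + T, by rw [Finset.mem_filter]; exact ⟨h1, by linarith⟩⟩
    obtain ⟨x2, hx2⟩ : ∃ x2, x2 = (U.filter (fun u => v < u)).min' hne := ⟨_, rfl⟩
    have hx2m : x2 ∈ U.filter (fun u => v < u) := by rw [hx2]; exact Finset.min'_mem _ _
    rw [Finset.mem_filter] at hx2m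
    have hx2l : x2 ≤ v + T := by
      rw [hx2]
      exact Finset.min'_le _ _ (by rw [Finset.mem_filter]; exact ⟨h1, by linarith⟩)
    refine ⟨v - T, h2, v, hvU, x2, hx2m.1, by linarith, hx2m.2, by linarith, ?_⟩
    have hsub : U.filter (fun u => u < x2) ⊆ insert v (U.filter (fun u => u < v)) := by
      intro u hu
      rw [Finset.mem_filter] at hu
      rw [Finset.mem_insert, Finset.mem_filter]
      by_contra hcon
      have h4 : v < u := by
        by_contra h5
        have h6 : u ≤ v := not_lt.mp h5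
        rcases h6.lt_or_eq with h7 | h7
        · exact hcon (Or.inr ⟨hu.1, h7⟩)
        · exact hcon (Or.inl h7)
      have h5 : x2 ≤ u := by
        rw [hx2]
        exact Finset.min'_le _ _ (by rw [Finset.mem_filter]; exact ⟨hu.1, h4⟩)
      linarith [hu.2]
    have h3 := Finset.card_le_card hsub
    have h4 := Finset.card_insert_le v (U.filter (fun u => u < v))
    have h5 := hV v hv
    omega
  · push Not at hfar
    choose! f hfF hfd using hfar
    obtain ⟨c, -, hcard⟩ := Finset.exists_lt_card_fiber_of_mul_lt_card_of_maps_to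
      (s := V) (t := F) (f := f) (n := 2) (fun v hv => hfF v hv) (by omega)
    obtain ⟨G, hG⟩ : ∃ G, G = V.filter (fun v => f v = c) := ⟨_, rfl⟩
    rw [← hG] at hcard
    have hGne : G.Nonempty := by
      rw [← Finset.card_pos]; omega
    have hmid : ((G.erase (G.min' hGne)).erase (G.max' hGne)).Nonempty := by
      rw [← Finset.card_pos]
      have c1 := Finset.pred_card_le_card_erase (s := G) (a := G.min' hGne)
      have c2 := Finset.pred_card_le_card_erase (s := G.erase (G.min' hGne)) (a := G.max' hGne)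
      omega
    obtain ⟨x1, hx1⟩ := hmid
    rw [Finset.mem_erase, Finset.mem_erase] at hx1
    obtain ⟨hx1b, hx1a, hx1G⟩ := hx1
    have m0 : G.min' hGne ∈ G := Finset.min'_mem _ _
    have m2 : G.max' hGne ∈ G := Finset.max'_mem _ _
    have l0 : G.min' hGne < x1 := lt_of_le_of_ne (Finset.min'_le _ _ hx1G) (Ne.symm hx1a)
    have l2 : x1 < G.max' hGne := lt_of_le_of_ne (Finset.le_max' _ _ hx1G) hx1b
    have hGd : ∀ v ∈ G, v ∈ V ∧ |v - c| ≤ R + T := by
      intro v hv
      rw [hG, Finset.mem_filter] at hv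
      refine ⟨hv.1, ?_⟩
      have := hfd v hv.1
      rwa [hv.2] at this
    have d0 := abs_le.mp (hGd _ m0).2
    have d2 := abs_le.mp (hGd _ m2).2
    refine ⟨_, hVU (hGd _ m0).1, x1, hVU (hGd _ hx1G).1, _, hVU (hGd _ m2).1, l0, l2, ?_, ?_⟩
    · linarith [d0.1, d2.2]
    · have := hV _ (hGd _ m2).1
      omega

end Pool.Agent.MP_f71fe7
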