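import Pool.Agent.MP_f71fe7.PeriodicB

set_option autoImplicit false

open scoped Pointwise

namespace Pool.Agent.MP_f71fe7

theorem PeriodicC_chain {P : ℤ → Prop} {T : ℤ} (hT : 0 < T) (n : ℕ) (y : ℤ)
    (h : ∀ z, y ≤ z → z + T ≤ y + n * T → (P z ↔ P (z + T))) : P y ↔ P (y + n * T) := by
  induction n with
  | zero => simp
  | succ n ih =>
    have e : y + ((n + 1 : ℕ) : ℤ) * T = (y + n * T) + T := by push_cast; ring
    rw [ih (fun z h1 h2 => h z h1 (by rw [e]; linarith)), e]
    apply h
    · have : (0 : ℤ) ≤ n * T := by positivity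
      linarith
    · rw [e]

theorem PeriodicC_cols {A B D S : Finset ℤ} (hc : Cov A B D S) {x0 x1 x2 b0 b1 T M : ℤ}
    (h0 : x0 ∈ A) (h1 : x1 ∈ A) (h2 : x2 ∈ A) (h01 : x0 < x1) (h12 : x1 < x2)
    (hT : T = (x1 - x0) * (x2 - x1) * (x2 - x0)) (hM : 0 < M) (hTM : T ∣ M) (y : ℤ)
    (hy0 : b0 ≤ y - M) (hy1 : y + 2 * M ≤ b1)
    (hy : ∀ z, y - M ≤ z → z ≤ y + 2 * M →
      z ∉ Exc B D S x0 b0 b1 ∧ z ∉ Exc B D S x1 b0 b1 ∧ z ∉ Exc B D S x2 b0 b1) :
    (y - x0 ∈ D ↔ y + M - x0 ∈ D) := by
  have e1 : 0 < x1 - x0 := by linarith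
  have e2 : 0 < x2 - x1 := by linarith
  have e3 : 0 < x2 - x0 := by linarith
  have hT0 : 0 < T := by rw [hT]; positivity
  obtain ⟨c, hc'⟩ := hTM
  have hcpos : 0 < c := by
    by_contra hcon
    rw [not_lt] at hcon
    nlinarith
  obtain ⟨n, rfl⟩ := Int.eq_ofNat_of_zero_le hcpos.le
  have hTleM : T ≤ M := by
    rw [hc']
    nlinarith
  have hMn : M = n * T := by rw [hc']; ring
  have key := PeriodicC_chain (P := fun z => z - x0 ∈ D) hT0 n y (by
    intro z hz1 hz2
    rw [← hMn] at hz2
    have := per_of_cols hc h0 h1 h2 h01 h12 hT z (b0 := b0) (b1 := b1) (by linarith)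
      (by linarith) (fun w hw1 hw2 => hy w (by linarith) (by linarith))
    exact this.1)
  rw [← hMn] at key
  exact key

theorem PeriodicC_filter_empty {A : Finset ℤ} {u v : ℤ} (hu : ∀ a ∈ A, u ≤ a)
    (hv : ∀ a ∈ A, a ≤ v) : (A.filter (fun a => a < u ∨ v < a)).card = 0 := by
  rw [Finset.card_eq_zero, Finset.filter_eq_empty_iff]
  intro a ha hcon
  have h1 := hu a ha
  have h2 := hv a ha
  rcases hcon with h | h <;> linarith

theorem PeriodicC_filter_lt {A : Finset ℤ} {u v : ℤ} (huv : u ≤ v) :
    (A.filter (fun a => a < u)).card ≤ (A.filter (fun a => a < v)).card := by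
  apply Finset.card_le_card
  intro a ha
  rw [Finset.mem_filter] at ha ⊢
  exact ⟨ha.1, by linarith [ha.2]⟩

/-- Near periodicity of `D` from low triples of `A` and of `B`: the columns of the triple of `A`
control `D` on `[b0 - x0, b1 - x0]`, the rows of the triple of `B` (use `Conf.transpose`) control
`D` on `[y0 - a1, y0 - a0]`; all other elements of `D` are few by `Conf.out_le` for the box
`[a0,a1] x [y0,b1]`, and are taken as centres. Count of centres:
`3 * 20 + 3 * (12 + 2 * 125) + 4 + (6 + 4 + 125) ≤ 1000`. Periods are multiplied up to `M` by chaining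
`y, y + T, y + 2T, ...` (all windows stay within `3 M`). -/
theorem np_D {N T l T' l' : ℤ} {A B D S : Finset ℤ} (h : Conf N A B D S) (hN : 1000 ≤ N)
    (hA : Tri A T l 4) (hB : Tri B T' l' 125) {M : ℤ} (hM : 0 < M) (h1 : T ∣ M) (h2 : T' ∣ M) :
    NP D M 1000 (3 * M) := by
  classical
  obtain ⟨x0, hx0, x1, hx1, x2, hx2, h01, h12, hl, hT, hδ⟩ := hA
  obtain ⟨y0, hy0, y1, hy1, y2, hy2, g01, g12, gl, gT, gδ⟩ := hB
  have hAne : A.Nonempty := ⟨x0, hx0⟩
  have hBne : B.Nonempty := ⟨y0, hy0⟩
  obtain ⟨a1, ma1, lea1⟩ : ∃ z2 ∈ A, ∀ z ∈ A, z ≤ z2 :=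
    ⟨A.max' hAne, Finset.max'_mem _ _, fun z hz => Finset.le_max' _ _ hz⟩
  obtain ⟨b1, mb1, leb1⟩ : ∃ z2 ∈ B, ∀ z ∈ B, z ≤ z2 :=
    ⟨B.max' hBne, Finset.max'_mem _ _, fun z hz => Finset.le_max' _ _ hz⟩
  obtain ⟨a0, ma0, lea0⟩ : ∃ z2 ∈ A, ∀ z ∈ A, z2 ≤ z :=
    ⟨A.min' hAne, Finset.min'_mem _ _, fun z hz => Finset.min'_le _ _ hz⟩
  obtain ⟨b0, mb0, leb0⟩ : ∃ z2 ∈ B, ∀ z ∈ B, z2 ≤ z :=
    ⟨B.min' hBne, Finset.min'_mem _ _, fun z hz => Finset.min'_le _ _ hz⟩
  -- exceptional sets of the columns
  have fA := PeriodicC_filter_empty lea0 lea1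
  have fB := PeriodicC_filter_empty leb0 leb1
  have E0 := h.exc_le hx0 mb0 mb1 (leb0 _ mb1)
  have E1 := h.exc_le hx1 mb0 mb1 (leb0 _ mb1)
  have E2 := h.exc_le hx2 mb0 mb1 (leb0 _ mb1)
  have q0 := PeriodicC_filter_lt (A := A) (u := x0) (v := x2) (by linarith)
  have q1 := PeriodicC_filter_lt (A := A) (u := x1) (v := x2) (by linarith)
  have ht := h.transpose
  have G0 := ht.exc_le hy0 ma0 ma1 (lea0 _ ma1)
  have G1 := ht.exc_le hy1 ma0 ma1 (lea0 _ ma1)
  have G2 := ht.exc_le hy2 ma0 ma1 (lea0 _ ma1)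
  have r0 := PeriodicC_filter_lt (A := B) (u := y0) (v := y2) (by linarith)
  have r1 := PeriodicC_filter_lt (A := B) (u := y1) (v := y2) (by linarith)
  have O := h.out_le (u := x0) (v := a1) (p := y0) (q := b1)
    ⟨x0, Finset.mem_filter.mpr ⟨hx0, le_rfl, lea1 _ hx0⟩⟩
    ⟨y0, Finset.mem_filter.mpr ⟨hy0, le_rfl, leb1 _ hy0⟩⟩
  have O1 : (A.filter (fun a => a < x0 ∨ a1 < a)).card ≤ (A.filter (fun a => a < x2)).card := by
    apply Finset.card_le_card
    intro a ha
    rw [Finset.mem_filter] at ha ⊢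
    refine ⟨ha.1, ?_⟩
    rcases ha.2 with ha2 | ha2
    · linarith
    · have := lea1 a ha.1
      linarith
  have O2 : (B.filter (fun b => b < y0 ∨ b1 < b)).card ≤ (B.filter (fun b => b < y2)).card := by
    apply Finset.card_le_card
    intro b hb
    rw [Finset.mem_filter] at hb ⊢
    refine ⟨hb.1, ?_⟩
    rcases hb.2 with hb2 | hb2
    · linarith
    · have := leb1 b hb.1
      linarith
  set X := ((Exc B D S x0 b0 b1 ∪ Exc B D S x1 b0 b1 ∪ Exc B D S x2 b0 b1)).image
    (fun e => e - x0) with hX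
  set Y := ((Exc A (-D) S y0 a0 a1 ∪ Exc A (-D) S y1 a0 a1 ∪ Exc A (-D) S y2 a0 a1)).image
    (fun e => y0 - e) with hY
  set Z := D.filter (fun d => d < y0 - a1 ∨ b1 - x0 < d) with hZ
  set W : Finset ℤ := {b0 - x0, b1 - x0, y0 - a1, y0 - a0} with hW
  have cX : X.card ≤ 60 := by
    have i1 : X.card ≤ _ := Finset.card_image_le
    have i2 := Finset.card_union_le (Exc B D S x0 b0 b1 ∪ Exc B D S x1 b0 b1) (Exc B D S x2 b0 b1)
    have i3 := Finset.card_union_le (Exc B D S x0 b0 b1) (Exc B D S x1 b0 b1)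
    omega
  have cY : Y.card ≤ 786 := by
    have i1 : Y.card ≤ _ := Finset.card_image_le
    have i2 := Finset.card_union_le (Exc A (-D) S y0 a0 a1 ∪ Exc A (-D) S y1 a0 a1)
      (Exc A (-D) S y2 a0 a1)
    have i3 := Finset.card_union_le (Exc A (-D) S y0 a0 a1) (Exc A (-D) S y1 a0 a1)
    omega
  have cZ : Z.card ≤ 135 := by omega
  have cW : W.card ≤ 4 := Finset.card_le_four
  refine ⟨X ∪ Y ∪ Z ∪ W, ?_, ?_⟩
  · have i1 := Finset.card_union_le (X ∪ Y ∪ Z) W
    have i2 := Finset.card_union_le (X ∪ Y) Z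
    have i3 := Finset.card_union_le X Y
    omega
  · intro d hd
    have hdX : ∀ c ∈ X, 3 * M < |d - c| := fun c hc => hd c (by simp [hc])
    have hdY : ∀ c ∈ Y, 3 * M < |d - c| := fun c hc => hd c (by simp [hc])
    have hdZ : ∀ c ∈ Z, 3 * M < |d - c| := fun c hc => hd c (by simp [hc])
    have hdW : ∀ c ∈ W, 3 * M < |d - c| := fun c hc => hd c (by simp [hc])
    have w1 := hdW (b0 - x0) (by simp [hW])
    have w2 := hdW (b1 - x0) (by simp [hW])
    have w3 := hdW (y0 - a1) (by simp [hW])
    have w4 := hdW (y0 - a0) (by simp [hW])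
    rw [lt_abs] at w1 w2 w3 w4
    have ha0x0 : a0 ≤ x0 := lea0 _ hx0
    by_cases hc1 : b0 - x0 < d ∧ d < b1 - x0
    · obtain ⟨hc1, hc2⟩ := hc1
      have v1 : 3 * M < d - (b0 - x0) := by
        rcases w1 with w | w <;> linarith
      have v2 : 3 * M < (b1 - x0) - d := by
        rcases w2 with w | w <;> linarith
      have key := PeriodicC_cols h.cov hx0 hx1 hx2 h01 h12 hT hM h1 (d + x0) (b0 := b0) (b1 := b1)
        (by linarith) (by linarith) (by
          intro z hz1 hz2
          have hout : z - x0 ∉ X := by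
            intro hcon
            have := hdX _ hcon
            rw [lt_abs] at this
            rcases this with w | w <;> linarith
          have hout' : z ∉ Exc B D S x0 b0 b1 ∪ Exc B D S x1 b0 b1 ∪ Exc B D S x2 b0 b1 := by
            intro hcon
            exact hout (Finset.mem_image_of_mem _ hcon)
          rw [Finset.mem_union, Finset.mem_union, not_or, not_or] at hout'
          exact ⟨hout'.1.1, hout'.1.2, hout'.2⟩)
      have s1 : d + x0 - x0 = d := by ring
      have s2 : d + x0 + M - x0 = d + M := by ring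
      rw [s1, s2] at key
      exact key
    · by_cases hc2 : y0 - a1 < d ∧ d < y0 - a0
      · obtain ⟨hc2, hc3⟩ := hc2
        have v1 : 3 * M < d - (y0 - a1) := by
          rcases w3 with w | w <;> linarith
        have v2 : 3 * M < (y0 - a0) - d := by
          rcases w4 with w | w <;> linarith
        have key := PeriodicC_cols ht.cov hy0 hy1 hy2 g01 g12 gT hM h2 (y0 - d - M) (b0 := a0)
          (b1 := a1) (by linarith) (by linarith) (by
            intro z hz1 hz2
            have hout : y0 - z ∉ Y := by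
              intro hcon
              have := hdY _ hcon
              rw [lt_abs] at this
              rcases this with w | w <;> linarith
            have hout' : z ∉ Exc A (-D) S y0 a0 a1 ∪ Exc A (-D) S y1 a0 a1 ∪
                Exc A (-D) S y2 a0 a1 := by
              intro hcon
              exact hout (Finset.mem_image_of_mem _ hcon)
            rw [Finset.mem_union, Finset.mem_union, not_or, not_or] at hout'
            exact ⟨hout'.1.1, hout'.1.2, hout'.2⟩)
        have s1 : y0 - d - M - y0 = -(d + M) := by ring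
        have s2 : y0 - d - M + M - y0 = -d := by ring
        rw [s1, s2, Finset.mem_neg', Finset.mem_neg', neg_neg, neg_neg] at key
        exact key.symm
      · have hout : ∀ c, |d - c| ≤ 3 * M → c ∉ Z := by
          intro c hc hcon
          have := hdZ c hcon
          linarith
        have o1 : d ∉ Z := hout d (by rw [sub_self, abs_zero]; linarith)
        have o2 : d + M ∉ Z := hout (d + M) (by
          have : d - (d + M) = -M := by ring
          rw [this, abs_neg, abs_of_pos hM]; linarith)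
        rw [hZ, Finset.mem_filter, not_and_or] at o1 o2
        have hfin : d ∉ D ∧ d + M ∉ D := by
          have hy0b0 : b0 ≤ y0 := leb0 _ hy0
          have hy0b1 : y0 ≤ b1 := leb1 _ hy0
          have hx0a1 : x0 ≤ a1 := lea1 _ hx0
          have hcase : d + 3 * M < y0 - a1 ∨ b1 - x0 + 3 * M < d := by
            rw [not_and_or, not_lt, not_lt] at hc1 hc2
            rcases hc1 with hc1 | hc1
            · rcases hc2 with hc2 | hc2
              · left
                rcases w3 with w | w <;> linarith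
              · exfalso
                rcases w1 with w | w
                · linarith
                · linarith
            · right
              rcases w2 with w | w <;> linarith
          rcases hcase with hc | hc
          · refine ⟨o1.resolve_right ?_, o2.resolve_right ?_⟩
            · intro hcon
              exact hcon (Or.inl (by linarith))
            · intro hcon
              exact hcon (Or.inl (by linarith))
          · refine ⟨o1.resolve_right ?_, o2.resolve_right ?_⟩
            · intro hcon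
              exact hcon (Or.inr (by linarith))
            · intro hcon
              exact hcon (Or.inr (by linarith))
        exact ⟨fun hcon => absurd hcon hfin.1, fun hcon => absurd hcon hfin.2⟩

end Pool.Agent.MP_f71fe7
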