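import Pool.Agent.MP_f71fe7.Border

/-!
Order structure along one side of the box.

If `x, x + M, ..., x + lam M` are all empty columns and the column `x` has at most `E` exceptional
rows in `[b0,b1]`, `lam ≥ 2E+1`, then every run (with step `M`) of elements of `D` seen from column
`x` which is longer than `4E+2` starts at the bottom of the window, and every such run of elements of
`S` ends at the top.
-/

set_option autoImplicit false

open scoped Pointwise Classical

namespace Pool.Agent.MP_f71fe7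

/-- `d` is reached from `c` upward by steps `M` inside `D`. -/
def Up (D : Finset ℤ) (M c d : ℤ) : Prop :=
  c ≤ d ∧ ∀ t : ℤ, 0 ≤ t → c ≤ d - t * M → d - t * M ∈ D

/-- `d` is reached from `c` downward by steps `M` inside `D`. -/
def Dn (D : Finset ℤ) (M c d : ℤ) : Prop :=
  d ≤ c ∧ ∀ t : ℤ, 0 ≤ t → d + t * M ≤ c → d + t * M ∈ D

/-- the core of the argument: a long run starting above a gap is impossible -/
private theorem SideA_core {A B D S : Finset ℤ} (hc : Cov A B D S) {x b0 b1 M lam : ℤ} {E : ℕ}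
    (hM : 0 < M) (hrun : ∀ t : ℤ, 0 ≤ t → t ≤ lam → x + t * M ∈ A)
    (hE : (Exc B D S x b0 b1).card ≤ E) (hlam : 2 * (E : ℤ) + 1 ≤ lam) {u : ℤ}
    (hu0 : b0 ≤ u) (hu1 : u + (4 * E + 1) * M ≤ b1) (hgap : u - M - x ∉ D)
    (hD : ∀ r : ℤ, 0 ≤ r → r ≤ 4 * E + 1 → u + r * M - x ∈ D) : False := by
  classical
  let k : ℕ → ℕ := fun r => if u + r * M ∈ B then 2 * r + 1 else r
  have hwin : ∀ j : ℤ, 0 ≤ j → j ≤ 4 * E + 1 → b0 ≤ u + j * M ∧ u + j * M ≤ b1 := by
    intro j hj hj'
    have h1 : 0 ≤ j * M := mul_nonneg hj hM.le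
    have h2 : j * M ≤ (4 * E + 1) * M := mul_le_mul_of_nonneg_right hj' hM.le
    constructor <;> linarith
  have hmaps : ∀ r ∈ Finset.range (2 * E + 1), u + (k r : ℤ) * M ∈ Exc B D S x b0 b1 := by
    intro r hr
    rw [Finset.mem_range] at hr
    have hr' : (r : ℤ) ≤ 2 * E := by exact_mod_cast (by omega : r ≤ 2 * E)
    have hr0 : (0 : ℤ) ≤ r := Int.natCast_nonneg r
    by_cases hB : u + r * M ∈ B
    · have hk : (k r : ℤ) = 2 * r + 1 := by
        simp only [k, if_pos hB]
        push_cast
        ring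
      rw [hk]
      have hS : x + (u + (2 * r + 1) * M) ∈ S := by
        rcases hc (x + (r + 1) * M) (hrun (r + 1) (by linarith) (by linarith)) _ hB with h | h
        · exfalso
          apply hgap
          have e : u + r * M - (x + (r + 1) * M) = u - M - x := by ring
          rwa [e] at h
        · have e : x + (r + 1) * M + (u + r * M) = x + (u + (2 * r + 1) * M) := by ring
          rwa [e] at h
      have hDD : u + (2 * r + 1) * M - x ∈ D := hD (2 * r + 1) (by linarith) (by linarith)
      simp only [Exc, Finset.mem_filter, Finset.mem_Icc]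
      exact ⟨hwin (2 * r + 1) (by linarith) (by linarith), Or.inr ⟨hDD, hS⟩⟩
    · have hk : (k r : ℤ) = r := by
        simp only [k, if_neg hB]
      rw [hk]
      have hDD : u + r * M - x ∈ D := hD r (by linarith) (by linarith)
      simp only [Exc, Finset.mem_filter, Finset.mem_Icc]
      exact ⟨hwin r (by linarith) (by linarith), Or.inl (fun h => hB (h.1 (Or.inl hDD)))⟩
  obtain ⟨w, _, hw⟩ := Finset.exists_lt_card_fiber_of_mul_lt_card_of_maps_to hmaps (n := 2) (by
    rw [Finset.card_range]
    omega)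
  obtain ⟨r0, hr0⟩ : ((Finset.range (2 * E + 1)).filter fun r => u + (k r : ℤ) * M = w).Nonempty := by
    rw [← Finset.card_pos]
    omega
  have hr0' := (Finset.mem_filter.1 hr0).2
  have hsub : ((Finset.range (2 * E + 1)).filter fun r => u + (k r : ℤ) * M = w) ⊆
      {k r0, (k r0 - 1) / 2} := by
    intro r hr
    have h1 := (Finset.mem_filter.1 hr).2
    have h2 : (k r : ℤ) * M = k r0 * M := by linarith
    have h3 : (k r : ℤ) = k r0 := mul_right_cancel₀ hM.ne' h2
    have h4 : k r = k r0 := by exact_mod_cast h3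
    rw [Finset.mem_insert, Finset.mem_singleton, ← h4]
    by_cases hB : u + r * M ∈ B
    · right
      simp only [k, if_pos hB]
      omega
    · left
      simp only [k, if_neg hB]
  have h5 := Finset.card_le_card hsub
  have h6 := Finset.card_le_two (a := k r0) (b := (k r0 - 1) / 2)
  omega

/-- Proof: take the least `t ≥ 0` with `b0 ≤ y - (t+1) M` and `y - (t+1) M - x ∉ D`; suppose
`t ≥ 4E+3`, put `u = y - t M`. For `0 ≤ r ≤ 2E` the row `u + r M` and the column `x + (r+1) M`:
if `u + r M ∉ B` it is exceptional for `x`; otherwise `u - M - x ∉ D` gives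
`x + (u + (2r+1) M) ∈ S` while `u + (2r+1) M - x ∈ D`, so `u + (2r+1) M` is exceptional for `x`.
Each exceptional row is used by at most two values of `r`; `2E+1` values. Contradiction. -/
theorem side_D {A B D S : Finset ℤ} (hc : Cov A B D S) {x b0 b1 M lam : ℤ} {E : ℕ} (hM : 0 < M)
    (hrun : ∀ t : ℤ, 0 ≤ t → t ≤ lam → x + t * M ∈ A) (hE : (Exc B D S x b0 b1).card ≤ E)
    (hlam : 2 * (E : ℤ) + 1 ≤ lam) {y : ℤ} (hy0 : b0 ≤ y) (hy1 : y ≤ b1) (hy : y - x ∈ D) :
    Up D M (b0 - x) (y - x) ∨
    ∃ t : ℤ, 0 ≤ t ∧ t ≤ 4 * E + 2 ∧ b0 ≤ y - (t + 1) * M ∧ y - t * M - x ∈ D ∧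
      y - (t + 1) * M - x ∉ D := by
  classical
  by_cases hup : Up D M (b0 - x) (y - x)
  · exact Or.inl hup
  right
  have hex : ∃ t : ℕ, b0 ≤ y - t * M ∧ y - t * M - x ∉ D := by
    by_contra hcon
    apply hup
    refine ⟨by linarith, ?_⟩
    intro t ht hb
    obtain ⟨n, rfl⟩ := Int.eq_ofNat_of_zero_le ht
    by_contra hn
    apply hcon
    refine ⟨n, by linarith, ?_⟩
    intro h
    apply hn
    have e : y - x - (n : ℤ) * M = y - n * M - x := by ring
    rw [e]
    exact h
  obtain ⟨h1, h2⟩ := Nat.find_spec hex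
  have hmin : ∀ j < Nat.find hex, b0 ≤ y - j * M → y - j * M - x ∈ D := by
    intro j hj hb
    by_contra h
    exact Nat.find_min hex hj ⟨hb, h⟩
  obtain ⟨t, ht⟩ : ∃ t, Nat.find hex = t + 1 := by
    rcases h : Nat.find hex with _ | t
    · exfalso
      rw [h] at h2
      apply h2
      simpa using hy
    · exact ⟨t, rfl⟩
  rw [ht] at h1 h2 hmin
  push_cast at h1 h2
  have hall : ∀ j : ℤ, 0 ≤ j → j ≤ t → b0 ≤ y - j * M ∧ y - j * M - x ∈ D := by
    intro j hj hj'
    obtain ⟨n, rfl⟩ := Int.eq_ofNat_of_zero_le hj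
    have h3 : (n : ℤ) * M ≤ (t + 1) * M := mul_le_mul_of_nonneg_right (by linarith) hM.le
    have h4 : b0 ≤ y - n * M := by linarith
    exact ⟨h4, hmin n (by
      have : n ≤ t := by exact_mod_cast hj'
      omega) h4⟩
  have hlt : (t : ℤ) ≤ 4 * E + 2 := by
    by_contra hcon
    push Not at hcon
    apply SideA_core hc hM hrun hE hlam (u := y - t * M)
    · exact (hall t (Int.natCast_nonneg t) le_rfl).1
    · have h3 : (4 * E + 1) * M ≤ t * M := mul_le_mul_of_nonneg_right (by linarith) hM.le
      linarith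
    · have e : y - t * M - M - x = y - (t + 1) * M - x := by ring
      rw [e]
      exact h2
    · intro r hr hr'
      have e : y - t * M + r * M - x = y - (t - r) * M - x := by ring
      rw [e]
      exact (hall (t - r) (by linarith) (by linarith)).2
  exact ⟨t, Int.natCast_nonneg t, hlt, h1, (hall t (Int.natCast_nonneg t) le_rfl).2, h2⟩

/-- Mirror image of `side_D` (replace `y` by `-y`: `Cov A (-B) (-S) (-D)`), or same proof. -/
theorem side_S {A B D S : Finset ℤ} (hc : Cov A B D S) {x b0 b1 M lam : ℤ} {E : ℕ} (hM : 0 < M)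
    (hrun : ∀ t : ℤ, 0 ≤ t → t ≤ lam → x + t * M ∈ A) (hE : (Exc B D S x b0 b1).card ≤ E)
    (hlam : 2 * (E : ℤ) + 1 ≤ lam) {y : ℤ} (hy0 : b0 ≤ y) (hy1 : y ≤ b1) (hy : x + y ∈ S) :
    Dn S M (x + b1) (x + y) ∨
    ∃ t : ℤ, 0 ≤ t ∧ t ≤ 4 * E + 2 ∧ y + (t + 1) * M ≤ b1 ∧ x + y + t * M ∈ S ∧
      x + y + (t + 1) * M ∉ S := by
  classical
  have hc' : Cov A (-B) (-S) (-D) := by
    intro a ha b hb
    rw [Finset.mem_neg'] at hb
    rcases hc a ha (-b) hb with h | h
    · right
      rw [Finset.mem_neg', show -(a + b) = -b - a by ring]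
      exact h
    · left
      rw [Finset.mem_neg', show -(b - a) = a + -b by ring]
      exact h
  have hE' : (Exc (-B) (-S) (-D) x (-b1) (-b0)).card ≤ E := by
    refine le_trans ?_ hE
    apply Finset.card_le_card_of_injOn (fun z => -z)
    · intro z hz
      simp only [Exc, Finset.coe_filter, Set.mem_ofPred_eq, Finset.mem_Icc, Finset.mem_neg'] at hz ⊢
      rw [show -(z - x) = x + -z by ring, show -(x + z) = -z - x by ring] at hz
      refine ⟨⟨by linarith [hz.1.2], by linarith [hz.1.1]⟩, ?_⟩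
      rcases hz.2 with h | h
      · left
        intro h'
        exact h (or_comm.trans h')
      · right
        exact ⟨h.2, h.1⟩
    · intro a _ b _ hab
      exact neg_injective hab
  rcases side_D hc' hM hrun hE' hlam (y := -y) (by linarith) (by linarith) (by
      rw [Finset.mem_neg', show -(-y - x) = x + y by ring]
      exact hy) with h | ⟨t, ht0, ht1, ht2, ht3, ht4⟩
  · left
    refine ⟨by linarith, ?_⟩
    intro t ht htb
    have h1 := h.2 t ht (by linarith)
    rw [Finset.mem_neg', show -(-y - x - t * M) = x + y + t * M by ring] at h1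
    exact h1
  · right
    rw [Finset.mem_neg', show -(-y - t * M - x) = x + y + t * M by ring] at ht3
    rw [Finset.mem_neg', show -(-y - (t + 1) * M - x) = x + y + (t + 1) * M by ring] at ht4
    exact ⟨t, ht0, ht1, by linarith, ht3, ht4⟩

end Pool.Agent.MP_f71fe7
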