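import Pool.Agent.MP_f71fe7.SideA

set_option autoImplicit false

open scoped Pointwise Classical

namespace Pool.Agent.MP_f71fe7

/-- Elements near at most `1000` centres. -/
theorem SideB_near {F U : Finset ℤ} (hF : F.card ≤ 1000) {L : ℤ}
    (h : ∀ u ∈ U, ∃ c ∈ F, |u - c| ≤ L) (hL : 0 ≤ L) : (U.card : ℤ) ≤ 1000 * (2 * L + 1) := by
  have h1 : U ⊆ F.biUnion (fun c => Finset.Icc (c - L) (c + L)) := by
    intro u hu
    obtain ⟨c, hc, hcu⟩ := h u hu
    rw [Finset.mem_biUnion]
    refine ⟨c, hc, ?_⟩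
    rw [abs_le] at hcu
    rw [Finset.mem_Icc]
    constructor <;> linarith [hcu.1, hcu.2]
  have h2 : (F.biUnion (fun c => Finset.Icc (c - L) (c + L))).card
      ≤ F.card * (2 * L + 1).toNat := by
    refine Finset.card_biUnion_le_card_mul _ _ _ ?_
    intro c _
    rw [Int.card_Icc]
    apply Int.toNat_le_toNat
    linarith
  have h3 : U.card ≤ 1000 * (2 * L + 1).toNat :=
    (Finset.card_le_card h1).trans (h2.trans (Nat.mul_le_mul_right _ hF))
  have h4 : ((2 * L + 1).toNat : ℤ) = 2 * L + 1 := Int.toNat_of_nonneg (by linarith)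
  calc (U.card : ℤ) ≤ ((1000 * (2 * L + 1).toNat : ℕ) : ℤ) := by exact_mod_cast h3
    _ = 1000 * (2 * L + 1) := by push_cast; rw [h4]

theorem SideB_arith {M : ℤ} {E : ℕ} (hM : 0 < M) (hE1 : 1 ≤ E) :
    1000 * (2 * ((4 * (E : ℤ) + 11) * M) + 1) ≤ 40000 * E * M := by
  have h1 : (1 : ℤ) ≤ E := by exact_mod_cast hE1
  have h2 : (1 : ℤ) ≤ M := hM
  have h3 : (1 : ℤ) * M ≤ E * M := mul_le_mul_of_nonneg_right h1 (by linarith)
  nlinarith

/-- Elements of `D` seen from `x` and not reached from the bottom are near the centres of `D`. -/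
theorem few_D {A B D S : Finset ℤ} (hc : Cov A B D S) {x b0 b1 M lam R : ℤ} {E : ℕ} (hM : 0 < M)
    (hrun : ∀ t : ℤ, 0 ≤ t → t ≤ lam → x + t * M ∈ A) (hE : (Exc B D S x b0 b1).card ≤ E)
    (hlam : 2 * (E : ℤ) + 1 ≤ lam) (hE1 : 1 ≤ E) (hR0 : 0 ≤ R) (hR : R ≤ 8 * M)
    (np : NP D M 1000 R) :
    ((D.filter (fun d => b0 - x ≤ d ∧ d ≤ b1 - x ∧ ¬ Up D M (b0 - x) d)).card : ℤ)
      ≤ 40000 * E * M := by
  obtain ⟨F, hF, hnp⟩ := np
  refine (SideB_near hF (L := (4 * (E : ℤ) + 11) * M) ?_ (by positivity)).trans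
    (SideB_arith hM hE1)
  intro d hd
  rw [Finset.mem_filter] at hd
  obtain ⟨hdD, hd0, hd1, hdU⟩ := hd
  have hyd : (d + x) - x = d := by ring
  rcases side_D hc hM hrun hE hlam (y := d + x) (by linarith) (by linarith)
    (by rw [hyd]; exact hdD) with h | ⟨t, ht0, ht1, _, h1, h2⟩
  · rw [hyd] at h
    exact absurd h hdU
  · have e1 : d + x - t * M - x = (d - (t + 1) * M) + M := by ring
    have e2 : d + x - (t + 1) * M - x = d - (t + 1) * M := by ring
    rw [e1] at h1
    rw [e2] at h2
    have h3 : ∃ c ∈ F, |d - (t + 1) * M - c| ≤ R := by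
      by_contra hcon
      push Not at hcon
      exact h2 ((hnp _ hcon).2 h1)
    obtain ⟨c, hcF, hcd⟩ := h3
    refine ⟨c, hcF, ?_⟩
    rw [abs_le] at hcd ⊢
    have h4 : (t + 1) * M ≤ (4 * (E : ℤ) + 3) * M :=
      mul_le_mul_of_nonneg_right (by linarith) hM.le
    have h5 : 0 ≤ (t + 1) * M := mul_nonneg (by linarith) hM.le
    constructor
    · nlinarith [hcd.1, hcd.2]
    · nlinarith [hcd.1, hcd.2]

theorem few_S {A B D S : Finset ℤ} (hc : Cov A B D S) {x b0 b1 M lam R : ℤ} {E : ℕ} (hM : 0 < M)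
    (hrun : ∀ t : ℤ, 0 ≤ t → t ≤ lam → x + t * M ∈ A) (hE : (Exc B D S x b0 b1).card ≤ E)
    (hlam : 2 * (E : ℤ) + 1 ≤ lam) (hE1 : 1 ≤ E) (hR0 : 0 ≤ R) (hR : R ≤ 8 * M)
    (np : NP S M 1000 R) :
    ((S.filter (fun s => x + b0 ≤ s ∧ s ≤ x + b1 ∧ ¬ Dn S M (x + b1) s)).card : ℤ)
      ≤ 40000 * E * M := by
  obtain ⟨F, hF, hnp⟩ := np
  refine (SideB_near hF (L := (4 * (E : ℤ) + 11) * M) ?_ (by positivity)).trans
    (SideB_arith hM hE1)
  intro s hs
  rw [Finset.mem_filter] at hs
  obtain ⟨hsS, hs0, hs1, hsU⟩ := hs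
  have hys : x + (s - x) = s := by ring
  rcases side_S hc hM hrun hE hlam (y := s - x) (by linarith) (by linarith)
    (by rw [hys]; exact hsS) with h | ⟨t, ht0, ht1, _, h1, h2⟩
  · rw [hys] at h
    exact absurd h hsU
  · have e1 : x + (s - x) + t * M = s + t * M := by ring
    have e2 : x + (s - x) + (t + 1) * M = s + t * M + M := by ring
    rw [e1] at h1
    rw [e2] at h2
    have h3 : ∃ c ∈ F, |s + t * M - c| ≤ R := by
      by_contra hcon
      push Not at hcon
      exact h2 ((hnp _ hcon).1 h1)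
    obtain ⟨c, hcF, hcd⟩ := h3
    refine ⟨c, hcF, ?_⟩
    rw [abs_le] at hcd ⊢
    have h4 : t * M ≤ (4 * (E : ℤ) + 2) * M :=
      mul_le_mul_of_nonneg_right (by linarith) hM.le
    have h5 : 0 ≤ t * M := mul_nonneg (by linarith) hM.le
    constructor
    · nlinarith [hcd.1, hcd.2]
    · nlinarith [hcd.1, hcd.2]

/-- If the run of `D` seen from column `x` in the class of the row `yp` stops at `yp`, while `B`
contains almost all rows of this class up to `yp + X M`, then `B` contains almost all rows of this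
class in `[b0,b1]`.

Proof: if `yp + X M > b1` this is trivial. Otherwise of the `X` rows of the class in
`[yp, yp + X M)` at most `E'` are not in `B`, at most `E` are exceptional, at most `40000 E M` have
`y - x ∈ D` (they are not `Up` because `yp - x ∉ D`), at most `40000 E M` have `x + y ∈ S` but not
`Dn`; so one of them, `y'`, has `Dn S M (x + b1) (x + y')`, and then all rows of the class in
`[y', b1]` are in `B` except at most `E` exceptional ones. -/
theorem col_gap {A B D S : Finset ℤ} (hc : Cov A B D S) {x b0 b1 M lam R : ℤ} {E E' X : ℕ}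
    (hM : 0 < M) (hrun : ∀ t : ℤ, 0 ≤ t → t ≤ lam → x + t * M ∈ A)
    (hE : (Exc B D S x b0 b1).card ≤ E) (hlam : 2 * (E : ℤ) + 1 ≤ lam) (hE1 : 1 ≤ E)
    (hR0 : 0 ≤ R) (hR : R ≤ 8 * M) (npD : NP D M 1000 R) (npS : NP S M 1000 R) {yp : ℤ}
    (hyp : b0 ≤ yp) (hyD : yp - x ∉ D) (hX : (E : ℤ) + E' + 1 + 80000 * E * M ≤ X)
    (hmiss : ((Finset.Ico b0 (yp + X * M)).filter
      (fun y => M ∣ y - yp ∧ y ≤ b1 ∧ y ∉ B)).card ≤ E') :
    ((Finset.Icc b0 b1).filter (fun y => M ∣ y - yp ∧ y ∉ B)).card ≤ E' + E := by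
  by_cases hcase : b1 < yp + X * M
  · refine le_trans (Finset.card_le_card ?_) (hmiss.trans (Nat.le_add_right _ _))
    intro y hy
    rw [Finset.mem_filter, Finset.mem_Icc] at hy
    rw [Finset.mem_filter, Finset.mem_Ico]
    exact ⟨⟨hy.1.1, lt_of_le_of_lt hy.1.2 hcase⟩, hy.2.1, hy.1.2, hy.2.2⟩
  · push Not at hcase
    -- a good row
    have hgood : ∃ i : ℕ, i < X ∧ yp + i * M ∈ B ∧ yp + i * M ∉ Exc B D S x b0 b1 ∧
        yp + i * M - x ∉ D ∧ (x + (yp + i * M) ∈ S → Dn S M (x + b1) (x + (yp + i * M))) := by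
      by_contra hcon
      push Not at hcon
      let f : ℕ → ℤ := fun i => yp + i * M
      have hinj : Function.Injective f := by
        intro i j hij
        have h1 : (i : ℤ) * M = j * M := by
          have : yp + (i : ℤ) * M = yp + j * M := hij
          linarith
        have h2 := mul_right_cancel₀ hM.ne' h1
        exact_mod_cast h2
      have hsub : (Finset.range X).image f ⊆
          ((Finset.Ico b0 (yp + X * M)).filter (fun y => M ∣ y - yp ∧ y ≤ b1 ∧ y ∉ B)
            ∪ Exc B D S x b0 b1)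
          ∪ ((D.filter (fun d => b0 - x ≤ d ∧ d ≤ b1 - x ∧ ¬ Up D M (b0 - x) d)).image
              (fun d => d + x)
            ∪ (S.filter (fun s => x + b0 ≤ s ∧ s ≤ x + b1 ∧ ¬ Dn S M (x + b1) s)).image
              (fun s => s - x)) := by
        intro y hy
        obtain ⟨i, hi, rfl⟩ := Finset.mem_image.1 hy
        rw [Finset.mem_range] at hi
        have hi' : (i : ℤ) + 1 ≤ X := by exact_mod_cast hi
        have h0 : (0 : ℤ) ≤ i * M := mul_nonneg (Int.natCast_nonneg _) hM.le
        have h1 : ((i : ℤ) + 1) * M ≤ X * M := mul_le_mul_of_nonneg_right hi' hM.le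
        have hlt : yp + i * M < yp + X * M := by nlinarith
        have hle1 : yp + i * M ≤ b1 := by linarith
        have hle0 : b0 ≤ yp + i * M := by linarith
        show yp + i * M ∈ _
        by_cases hB : yp + i * M ∈ B
        · by_cases hex : yp + i * M ∈ Exc B D S x b0 b1
          · exact Finset.mem_union_left _ (Finset.mem_union_right _ hex)
          · by_cases hD : yp + i * M - x ∈ D
            · refine Finset.mem_union_right _ (Finset.mem_union_left _ ?_)
              refine Finset.mem_image.2 ⟨yp + i * M - x, ?_, by ring⟩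
              rw [Finset.mem_filter]
              refine ⟨hD, by linarith, by linarith, ?_⟩
              intro hup
              have h2 := hup.2 i (Int.natCast_nonneg _) (by linarith)
              have e : yp + i * M - x - i * M = yp - x := by ring
              rw [e] at h2
              exact hyD h2
            · obtain ⟨hS, hDn⟩ := hcon i hi hB hex hD
              refine Finset.mem_union_right _ (Finset.mem_union_right _ ?_)
              refine Finset.mem_image.2 ⟨x + (yp + i * M), ?_, by ring⟩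
              rw [Finset.mem_filter]
              exact ⟨hS, by linarith, by linarith, hDn⟩
        · refine Finset.mem_union_left _ (Finset.mem_union_left _ ?_)
          rw [Finset.mem_filter, Finset.mem_Ico]
          exact ⟨⟨hle0, hlt⟩, ⟨i, by ring⟩, hle1, hB⟩
      have hcard := Finset.card_le_card hsub
      rw [Finset.card_image_of_injective _ hinj, Finset.card_range] at hcard
      have hD := few_D hc hM hrun hE hlam hE1 hR0 hR npD
      have hS := few_S hc hM hrun hE hlam hE1 hR0 hR npS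
      have hu1 := Finset.card_union_le
        ((Finset.Ico b0 (yp + X * M)).filter (fun y => M ∣ y - yp ∧ y ≤ b1 ∧ y ∉ B)
            ∪ Exc B D S x b0 b1)
        ((D.filter (fun d => b0 - x ≤ d ∧ d ≤ b1 - x ∧ ¬ Up D M (b0 - x) d)).image
              (fun d => d + x)
            ∪ (S.filter (fun s => x + b0 ≤ s ∧ s ≤ x + b1 ∧ ¬ Dn S M (x + b1) s)).image
              (fun s => s - x))
      have hu2 := Finset.card_union_le
        ((Finset.Ico b0 (yp + X * M)).filter (fun y => M ∣ y - yp ∧ y ≤ b1 ∧ y ∉ B))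
        (Exc B D S x b0 b1)
      have hu3 := Finset.card_union_le
        ((D.filter (fun d => b0 - x ≤ d ∧ d ≤ b1 - x ∧ ¬ Up D M (b0 - x) d)).image
              (fun d => d + x))
        ((S.filter (fun s => x + b0 ≤ s ∧ s ≤ x + b1 ∧ ¬ Dn S M (x + b1) s)).image
              (fun s => s - x))
      have hi1 := Finset.card_image_le
        (s := D.filter (fun d => b0 - x ≤ d ∧ d ≤ b1 - x ∧ ¬ Up D M (b0 - x) d))
        (f := fun d => d + x)
      have hi2 := Finset.card_image_le
        (s := S.filter (fun s => x + b0 ≤ s ∧ s ≤ x + b1 ∧ ¬ Dn S M (x + b1) s))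
        (f := fun s => s - x)
      have hfin : (X : ℤ) ≤ (E' : ℤ) + E
          + (((D.filter (fun d => b0 - x ≤ d ∧ d ≤ b1 - x ∧ ¬ Up D M (b0 - x) d)).card : ℤ)
            + ((S.filter (fun s => x + b0 ≤ s ∧ s ≤ x + b1 ∧ ¬ Dn S M (x + b1) s)).card : ℤ)) := by
        exact_mod_cast (by omega)
      linarith
    obtain ⟨i, hi, hB, hex, hD, hDn⟩ := hgood
    obtain ⟨y', hy'⟩ : ∃ y', y' = yp + i * M := ⟨_, rfl⟩
    rw [← hy'] at hB hex hD hDn
    have hi' : (i : ℤ) + 1 ≤ X := by exact_mod_cast hi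
    have h0 : (0 : ℤ) ≤ i * M := mul_nonneg (Int.natCast_nonneg _) hM.le
    have h1 : ((i : ℤ) + 1) * M ≤ X * M := mul_le_mul_of_nonneg_right hi' hM.le
    have hlt : y' < yp + X * M := by nlinarith
    have hle1 : y' ≤ b1 := by linarith
    have hle0 : b0 ≤ y' := by linarith
    have hSy : x + y' ∈ S := by
      by_contra hS
      apply hex
      unfold Exc
      rw [Finset.mem_filter, Finset.mem_Icc]
      refine ⟨⟨hle0, hle1⟩, Or.inl ?_⟩
      intro h
      rcases h.2 hB with h | h
      · exact hD h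
      · exact hS h
    have hDn' := hDn hSy
    have hsub : (Finset.Icc b0 b1).filter (fun y => M ∣ y - yp ∧ y ∉ B) ⊆
        (Finset.Ico b0 (yp + X * M)).filter (fun y => M ∣ y - yp ∧ y ≤ b1 ∧ y ∉ B)
          ∪ Exc B D S x b0 b1 := by
      intro y hy
      rw [Finset.mem_filter, Finset.mem_Icc] at hy
      obtain ⟨⟨hy0, hy1⟩, hdvd, hyB⟩ := hy
      by_cases hyy : y < yp + X * M
      · refine Finset.mem_union_left _ ?_
        rw [Finset.mem_filter, Finset.mem_Ico]
        exact ⟨⟨hy0, hyy⟩, hdvd, hy1, hyB⟩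
      · refine Finset.mem_union_right _ ?_
        push Not at hyy
        obtain ⟨q, hq⟩ := hdvd
        have hyq : y = y' + (q - i) * M := by
          rw [hy']
          linear_combination hq
        have hq0 : 0 ≤ q - i := by
          by_contra hneg
          push Not at hneg
          have : (q - i) * M < 0 := mul_neg_of_neg_of_pos hneg hM
          linarith
        have h2 := hDn'.2 (q - i) hq0 (by linarith)
        have e : x + y' + (q - i) * M = x + y := by rw [hyq]; ring
        rw [e] at h2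
        unfold Exc
        rw [Finset.mem_filter, Finset.mem_Icc]
        refine ⟨⟨hy0, hy1⟩, Or.inl ?_⟩
        intro h
        exact hyB (h.1 (Or.inr h2))
    calc _ ≤ _ := Finset.card_le_card hsub
      _ ≤ _ := Finset.card_union_le _ _
      _ ≤ E' + E := Nat.add_le_add hmiss hE

end Pool.Agent.MP_f71fe7
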