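import Pool.Agent.MP_f71fe7.Border

/-!
Existence of three empty columns (or rows) within distance 200 at some end of the board
(argument of helper57).

Let `x1 < ... < x5` be the first five elements of `A`, `G = x5 - x1`, and assume (by the symmetries
`Conf.transpose`, `Conf.reflect`) that the spread (fifth minus first element) of `B` and of `-B` is at
least `G`. So `B` has at most 4 elements in `[b0, b0 + G)` and at most 4 in `(b1 - G, b1]`. Each of the
columns `x1..x5` has at most `12 + 2*4 = 20` exceptional rows (`Conf.exc_le`).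
For `i < j` put `p = x_j - x_i`. A residue class modulo `p` is bad for `(i,j)` if it contains an
exceptional row of `x_i`, or an element of `B` in `[b0,b0+p)` or in `(b1-p,b1]`: at most 28 bad
classes. In a good class `pattern` holds: `y - x_i ∈ D` implies `y + p + x_i ∈ S`, and
`y + x_i ∈ S` implies `y - p - x_i ∈ D` (for `y ∈ [b0,b1]`).
Let `i < j < k` be `1,3,5` and `y ∈ B`, `y ≤ b1 - G`, `y` not exceptional for `x_j`, and `y` in
good classes for `(i,j)`, `(i,k)`, `(j,k)`. If `y - x_j ∈ D`: `(j,k)` gives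
`y + p_jk + x_j = y + x_k = (y + p_ik) + x_i ∈ S`, then `(i,k)` at `y + p_ik` gives `y - x_i ∈ D`,
then `(i,j)` gives `y + p_ij + x_i = y + x_j ∈ S`: `y` is exceptional for `x_j`. If
`y + x_j = (y + p_ij) + x_i ∈ S`: `(i,j)` at `y + p_ij` gives `y - x_i ∈ D`, `(i,k)` gives
`y + p_ik + x_i = (y + p_jk) + x_j ∈ S`, `(j,k)` at `y + p_jk` gives `y - x_j ∈ D`: again
exceptional. So every `y ∈ B` is in a bad class of one of the three pairs, or among the last 4, or
exceptional for `x_j`: `N - 1 ≤ |B| ≤ ∑ 28 (2N / p + 1) + 24`, so `x3 - x1 < 200` or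
`x5 - x3 < 200`.
-/

set_option autoImplicit false

open scoped Pointwise

namespace Pool.Agent.MP_f71fe7

/-- Pattern lemma in one residue class. -/
theorem pattern {f g b : ℤ → Prop} {p b0 b1 r : ℤ} (hp : 0 < p)
    (hex : ∀ y, b0 ≤ y → y ≤ b1 → p ∣ y - r → ((f y ∨ g y ↔ b y) ∧ ¬ (f y ∧ g y)))
    (hcov : ∀ y, b0 ≤ y → y ≤ b1 → p ∣ y - r → b y → f (y - p) ∨ g (y + p))
    (hfirst : ∀ y, b0 ≤ y → y < b0 + p → p ∣ y - r → ¬ b y)
    (hlast : ∀ y, b1 - p < y → y ≤ b1 → p ∣ y - r → ¬ b y) :
    (∀ y, b0 ≤ y → y ≤ b1 → p ∣ y - r → f y → g (y + p)) ∧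
    (∀ y, b0 ≤ y → y ≤ b1 → p ∣ y - r → g y → f (y - p)) := by
  have claimA : ∀ n : ℕ, ∀ y, b0 ≤ y → y ≤ b1 → p ∣ y - r → y - b0 < n → f y → f (y - p) →
      False := by
    intro n
    induction n with
    | zero => intro y h1 _ _ h4; push_cast at h4; linarith
    | succ n ih =>
      intro y h1 h2 h3 h4 h5 h6
      have e1 := hex y h1 h2 h3
      have hb : b y := e1.1.mp (Or.inl h5)
      have hg : ¬ g y := fun hg => e1.2 ⟨h5, hg⟩
      by_cases h7 : y - p < b0
      · exact hfirst y h1 (by linarith) h3 hb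
      push Not at h7
      have h3' : p ∣ y - p - r := by
        have : y - p - r = (y - r) - p := by ring
        rw [this]
        exact dvd_sub h3 dvd_rfl
      have e2 := hex (y - p) h7 (by linarith) h3'
      have hb2 : b (y - p) := e2.1.mp (Or.inl h6)
      rcases hcov (y - p) h7 (by linarith) h3' hb2 with h8 | h8
      · exact ih (y - p) h7 (by linarith) h3' (by push_cast at h4; linarith) h6 h8
      · rw [sub_add_cancel] at h8
        exact hg h8
  have claimB : ∀ n : ℕ, ∀ y, b0 ≤ y → y ≤ b1 → p ∣ y - r → b1 - y < n → g y → g (y + p) →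
      False := by
    intro n
    induction n with
    | zero => intro y _ h2 _ h4; push_cast at h4; linarith
    | succ n ih =>
      intro y h1 h2 h3 h4 h5 h6
      have e1 := hex y h1 h2 h3
      have hb : b y := e1.1.mp (Or.inr h5)
      have hg : ¬ f y := fun hf => e1.2 ⟨hf, h5⟩
      by_cases h7 : b1 < y + p
      · exact hlast y (by linarith) h2 h3 hb
      push Not at h7
      have h3' : p ∣ y + p - r := by
        have : y + p - r = (y - r) + p := by ring
        rw [this]
        exact dvd_add h3 dvd_rfl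
      have e2 := hex (y + p) (by linarith) h7 h3'
      have hb2 : b (y + p) := e2.1.mp (Or.inr h6)
      rcases hcov (y + p) (by linarith) h7 h3' hb2 with h8 | h8
      · rw [add_sub_cancel_right] at h8
        exact hg h8
      · exact ih (y + p) (by linarith) h7 h3' (by push_cast at h4; linarith) h6 h8
  constructor
  · intro y h1 h2 h3 h4
    have hb : b y := (hex y h1 h2 h3).1.mp (Or.inl h4)
    rcases hcov y h1 h2 h3 hb with h5 | h5
    · exact absurd h5 (fun h5 => claimA ((y - b0).toNat + 1) y h1 h2 h3 (by omega) h4 h5)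
    · exact h5
  · intro y h1 h2 h3 h4
    have hb : b y := (hex y h1 h2 h3).1.mp (Or.inr h4)
    rcases hcov y h1 h2 h3 hb with h5 | h5
    · exact h5
    · exact absurd h5 (fun h5 => claimB ((b1 - y).toNat + 1) y h1 h2 h3 (by omega) h4 h5)

/-- Number of integers of an interval in one residue class. -/
theorem triple_card_class {p b0 b1 e : ℤ} (hp : 201 ≤ p) (h : b0 ≤ b1) :
    201 * (((Finset.Icc b0 b1).filter (fun y => p ∣ y - e)).card : ℤ) ≤ b1 - b0 + 201 := by
  have hp0 : 0 < p := by linarith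
  rcases Finset.eq_empty_or_nonempty ((Finset.Icc b0 b1).filter (fun y => p ∣ y - e)) with h0 | h0
  · rw [h0]; simp; linarith
  set T := (Finset.Icc b0 b1).filter (fun y => p ∣ y - e) with hT
  set m := T.min' h0 with hm
  have hmT : m ∈ T := Finset.min'_mem T h0
  have hmT' := hmT
  rw [hT, Finset.mem_filter, Finset.mem_Icc] at hmT'
  -- inject into [0, (b1-b0)/p]
  have hsub : T ⊆ (Finset.Icc 0 ((b1 - b0) / p)).image (fun k => m + k * p) := by
    intro y hy
    have hy' := hy
    rw [hT, Finset.mem_filter, Finset.mem_Icc] at hy'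
    have hmy : m ≤ y := Finset.min'_le T y hy
    obtain ⟨k, hk⟩ : p ∣ y - m := by
      have : y - m = (y - e) - (m - e) := by ring
      rw [this]
      exact dvd_sub hy'.2 hmT'.2
    rw [Finset.mem_image]
    refine ⟨k, ?_, by linarith⟩
    rw [Finset.mem_Icc]
    constructor
    · by_contra hneg
      push Not at hneg
      nlinarith
    · rw [Int.le_ediv_iff_mul_le hp0]
      nlinarith
  have hcard : T.card ≤ (Finset.Icc 0 ((b1 - b0) / p)).card :=
    le_trans (Finset.card_le_card hsub) Finset.card_image_le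
  have hd0 : 0 ≤ (b1 - b0) / p := Int.ediv_nonneg (by linarith) hp0.le
  have hcard2 : (T.card : ℤ) ≤ (b1 - b0) / p + 1 := by
    have : ((Finset.Icc 0 ((b1 - b0) / p)).card : ℤ) = (b1 - b0) / p + 1 := by
      rw [Int.card_Icc]
      rw [Int.toNat_of_nonneg (by linarith)]
      ring
    calc (T.card : ℤ) ≤ ((Finset.Icc 0 ((b1 - b0) / p)).card : ℤ) := by exact_mod_cast hcard
      _ = _ := this
  have hdp : (b1 - b0) / p * p ≤ b1 - b0 := Int.ediv_mul_le _ hp0.ne'
  nlinarith

/-- The case where the left end of `A` has the smallest spread. -/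
theorem triple_left {N : ℤ} {A B D S : Finset ℤ} (h : Conf N A B D S) (hN : 1000 ≤ N)
    {x1 x2 x3 x4 x5 b0 b1 : ℤ} (h1 : x1 ∈ A) (h2 : x2 ∈ A) (h3 : x3 ∈ A) (h4 : x4 ∈ A)
    (h5 : x5 ∈ A) (h12 : x1 < x2) (h23 : x2 < x3) (h34 : x3 < x4) (h45 : x4 < x5)
    (hd : (A.filter (fun a => a < x5)).card ≤ 4)
    (hb0 : b0 ∈ B) (hb1 : b1 ∈ B) (hB : ∀ b ∈ B, b0 ≤ b ∧ b ≤ b1)
    (hlo : (B.filter (fun b => b < b0 + (x5 - x1))).card ≤ 4)
    (hhi : (B.filter (fun b => b1 - (x5 - x1) < b)).card ≤ 4) : LTriple A 200 4 := by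
  classical
  have hfil : ∀ x, x ≤ x5 → (A.filter (fun a => a < x)).card ≤ 4 := by
    intro x hx
    refine le_trans (Finset.card_le_card ?_) hd
    intro a ha
    rw [Finset.mem_filter] at ha ⊢
    exact ⟨ha.1, by linarith [ha.2]⟩
  by_cases h31 : x3 - x1 ≤ 200
  · exact ⟨x1, h1, x2, h2, x3, h3, h12, h23, by linarith, hfil x3 (by linarith)⟩
  by_cases h53 : x5 - x3 ≤ 200
  · exact ⟨x3, h3, x4, h4, x5, h5, h34, h45, by linarith, hfil x5 le_rfl⟩
  exfalso
  push Not at h31 h53
  have hb01 : b0 ≤ b1 := (hB b0 hb0).2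
  have hBout : (B.filter (fun b => b < b0 ∨ b1 < b)).card = 0 := by
    rw [Finset.card_eq_zero, Finset.filter_eq_empty_iff]
    intro b hb hbb
    have := hB b hb
    rcases hbb with hbb | hbb <;> linarith [this.1, this.2]
  have hexc : ∀ x ∈ A, x ≤ x5 → (Exc B D S x b0 b1).card ≤ 20 := by
    intro x hx hx5
    have e1 := h.exc_le hx hb0 hb1 hb01
    have e2 := hfil x hx5
    omega
  have hE1 := hexc x1 h1 (by linarith)
  have hE3 := hexc x3 h3 (by linarith)
  -- the bad set of a pair of columns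
  let bad : ℤ → ℤ → Finset ℤ := fun u v =>
    Exc B D S u b0 b1 ∪ (B.filter (fun b => b < b0 + (v - u)) ∪ B.filter (fun b => b1 - (v - u) < b))
  have hbad : ∀ u v, (Exc B D S u b0 b1).card ≤ 20 → v - u ≤ x5 - x1 → (bad u v).card ≤ 28 := by
    intro u v hu huv
    have c1 : (B.filter (fun b => b < b0 + (v - u))).card ≤ 4 := by
      refine le_trans (Finset.card_le_card ?_) hlo
      intro a ha
      rw [Finset.mem_filter] at ha ⊢
      exact ⟨ha.1, by linarith [ha.2]⟩
    have c2 : (B.filter (fun b => b1 - (v - u) < b)).card ≤ 4 := by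
      refine le_trans (Finset.card_le_card ?_) hhi
      intro a ha
      rw [Finset.mem_filter] at ha ⊢
      exact ⟨ha.1, by linarith [ha.2]⟩
    calc (bad u v).card ≤ (Exc B D S u b0 b1).card + ((B.filter (fun b => b < b0 + (v - u))) ∪
          (B.filter (fun b => b1 - (v - u) < b))).card := Finset.card_union_le _ _
      _ ≤ (Exc B D S u b0 b1).card + ((B.filter (fun b => b < b0 + (v - u))).card +
          (B.filter (fun b => b1 - (v - u) < b)).card) :=
        Nat.add_le_add_left (Finset.card_union_le _ _) _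
      _ ≤ 28 := by omega
  -- pattern for a pair of columns and a good row
  have hpat : ∀ u v, u ∈ A → v ∈ A → u < v → ∀ y, (∀ e ∈ bad u v, ¬ (v - u) ∣ y - e) →
      (∀ z, b0 ≤ z → z ≤ b1 → (v - u) ∣ z - y → z - u ∈ D → v + z ∈ S) ∧
      (∀ z, b0 ≤ z → z ≤ b1 → (v - u) ∣ z - y → u + z ∈ S → z - v ∈ D) := by
    intro u v hu hv huv y hy
    have hp : 0 < v - u := by linarith
    have key := pattern (f := fun z => z - u ∈ D) (g := fun z => u + z ∈ S) (b := fun z => z ∈ B)
      (p := v - u) (b0 := b0) (b1 := b1) (r := y) hp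
      (by
        intro z hz0 hz1 hz
        have hne : z ∉ Exc B D S u b0 b1 := by
          intro hze
          apply hy z (by simp only [bad, Finset.mem_union]; exact Or.inl hze)
          have : y - z = -(z - y) := by ring
          rw [this, dvd_neg]
          exact hz
        simp only [Exc, Finset.mem_filter, Finset.mem_Icc, not_and, not_or, not_not] at hne
        have := hne ⟨hz0, hz1⟩
        exact ⟨this.1, fun hh => this.2 hh.1 hh.2⟩)
      (by
        intro z _ _ _ hzB
        rcases h.cov v hv z hzB with h8 | h8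
        · left
          show z - (v - u) - u ∈ D
          have : z - (v - u) - u = z - v := by ring
          rwa [this]
        · right
          show u + (z + (v - u)) ∈ S
          have : u + (z + (v - u)) = v + z := by ring
          rwa [this])
      (by
        intro z _ hz1 hz hzB
        apply hy z (by
          simp only [bad, Finset.mem_union, Finset.mem_filter]
          exact Or.inr (Or.inl ⟨hzB, hz1⟩))
        have : y - z = -(z - y) := by ring
        rw [this, dvd_neg]
        exact hz)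
      (by
        intro z hz0 _ hz hzB
        apply hy z (by
          simp only [bad, Finset.mem_union, Finset.mem_filter]
          exact Or.inr (Or.inr ⟨hzB, hz0⟩))
        have : y - z = -(z - y) := by ring
        rw [this, dvd_neg]
        exact hz)
    constructor
    · intro z hz0 hz1 hz hzD
      have := key.1 z hz0 hz1 hz hzD
      have e : u + (z + (v - u)) = v + z := by ring
      rwa [e] at this
    · intro z hz0 hz1 hz hzS
      have := key.2 z hz0 hz1 hz hzS
      have e : z - (v - u) - u = z - v := by ring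
      rwa [e] at this
  -- every row of B is bad
  have hcover : B ⊆ (B.filter (fun b => b1 - (x5 - x1) < b)) ∪ (Exc B D S x3 b0 b1 ∪
      (((bad x1 x3).biUnion (fun e => (Finset.Icc b0 b1).filter (fun y => (x3 - x1) ∣ y - e))) ∪
      (((bad x1 x5).biUnion (fun e => (Finset.Icc b0 b1).filter (fun y => (x5 - x1) ∣ y - e))) ∪
      ((bad x3 x5).biUnion (fun e => (Finset.Icc b0 b1).filter (fun y => (x5 - x3) ∣ y - e)))))) := by
    intro y hy
    by_contra hcon
    simp only [Finset.mem_union, Finset.mem_filter, Finset.mem_biUnion, Finset.mem_Icc,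
      not_or, not_and, not_exists] at hcon
    obtain ⟨c1, c2, c3, c4, c5⟩ := hcon
    have hyb := hB y hy
    have c1' : y ≤ b1 - (x5 - x1) := by
      have := c1 hy
      linarith
    have g13 : ∀ e ∈ bad x1 x3, ¬ (x3 - x1) ∣ y - e := fun e he => c3 e he hyb
    have g15 : ∀ e ∈ bad x1 x5, ¬ (x5 - x1) ∣ y - e := fun e he => c4 e he hyb
    have g35 : ∀ e ∈ bad x3 x5, ¬ (x5 - x3) ∣ y - e := fun e he => c5 e he hyb
    have p13 := hpat x1 x3 h1 h3 (by linarith) y g13
    have p15 := hpat x1 x5 h1 h5 (by linarith) y g15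
    have p35 := hpat x3 x5 h3 h5 (by linarith) y g35
    have hnot : ¬ (y - x3 ∈ D ∧ x3 + y ∈ S) := by
      intro hh
      apply c2
      simp only [Exc, Finset.mem_filter, Finset.mem_Icc]
      exact ⟨hyb, Or.inr hh⟩
    rcases h.cov x3 h3 y hy with hD | hS
    · have s1 : x5 + y ∈ S := p35.1 y hyb.1 hyb.2 (by simp) hD
      have s2 : x1 + (y + (x5 - x1)) ∈ S := by
        have : x1 + (y + (x5 - x1)) = x5 + y := by ring
        rwa [this]
      have s3 : y + (x5 - x1) - x5 ∈ D :=
        p15.2 (y + (x5 - x1)) (by linarith) (by linarith) (by simp) s2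
      have s4 : y - x1 ∈ D := by
        have : y + (x5 - x1) - x5 = y - x1 := by ring
        rwa [this] at s3
      have s5 : x3 + y ∈ S := p13.1 y hyb.1 hyb.2 (by simp) s4
      exact hnot ⟨hD, s5⟩
    · have s2 : x1 + (y + (x3 - x1)) ∈ S := by
        have : x1 + (y + (x3 - x1)) = x3 + y := by ring
        rwa [this]
      have s3 : y + (x3 - x1) - x3 ∈ D :=
        p13.2 (y + (x3 - x1)) (by linarith) (by linarith) (by simp) s2
      have s4 : y - x1 ∈ D := by
        have : y + (x3 - x1) - x3 = y - x1 := by ring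
        rwa [this] at s3
      have s5 : x5 + y ∈ S := p15.1 y hyb.1 hyb.2 (by simp) s4
      have s6 : x3 + (y + (x5 - x3)) ∈ S := by
        have : x3 + (y + (x5 - x3)) = x5 + y := by ring
        rwa [this]
      have s7 : y + (x5 - x3) - x5 ∈ D :=
        p35.2 (y + (x5 - x3)) (by linarith) (by linarith) (by simp) s6
      have s8 : y - x3 ∈ D := by
        have : y + (x5 - x3) - x5 = y - x3 := by ring
        rwa [this] at s7
      exact hnot ⟨s8, hS⟩
  -- counting
  have hwid : b1 - b0 < 2 * N := h.wB b0 hb0 b1 hb1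
  have hbi : ∀ (p : ℤ) (T : Finset ℤ), 201 ≤ p → T.card ≤ 28 →
      201 * ((T.biUnion (fun e => (Finset.Icc b0 b1).filter (fun y => p ∣ y - e))).card : ℤ)
        ≤ 28 * (2 * N + 200) := by
    intro p T hp hT
    have e1 : ((T.biUnion (fun e => (Finset.Icc b0 b1).filter (fun y => p ∣ y - e))).card : ℤ)
        ≤ ∑ e ∈ T, (((Finset.Icc b0 b1).filter (fun y => p ∣ y - e)).card : ℤ) := by
      exact_mod_cast Finset.card_biUnion_le
    have e2 : 201 * ∑ e ∈ T, (((Finset.Icc b0 b1).filter (fun y => p ∣ y - e)).card : ℤ)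
        ≤ ∑ _e ∈ T, (2 * N + 200) := by
      rw [Finset.mul_sum]
      apply Finset.sum_le_sum
      intro e _
      have := triple_card_class (e := e) hp hb01
      linarith
    rw [Finset.sum_const, nsmul_eq_mul] at e2
    have e3 : (T.card : ℤ) * (2 * N + 200) ≤ 28 * (2 * N + 200) :=
      mul_le_mul_of_nonneg_right (by exact_mod_cast hT) (by linarith)
    linarith
  have k13 := hbi (x3 - x1) (bad x1 x3) (by linarith) (hbad x1 x3 hE1 (by linarith))
  have k15 := hbi (x5 - x1) (bad x1 x5) (by linarith) (hbad x1 x5 hE1 (by linarith))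
  have k35 := hbi (x5 - x3) (bad x3 x5) (by linarith) (hbad x3 x5 hE3 (by linarith))
  have htot := Finset.card_le_card hcover
  have u1 := Finset.card_union_le (B.filter (fun b => b1 - (x5 - x1) < b)) (Exc B D S x3 b0 b1 ∪
      (((bad x1 x3).biUnion (fun e => (Finset.Icc b0 b1).filter (fun y => (x3 - x1) ∣ y - e))) ∪
      (((bad x1 x5).biUnion (fun e => (Finset.Icc b0 b1).filter (fun y => (x5 - x1) ∣ y - e))) ∪
      ((bad x3 x5).biUnion (fun e => (Finset.Icc b0 b1).filter (fun y => (x5 - x3) ∣ y - e))))))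
  have u2 := Finset.card_union_le (Exc B D S x3 b0 b1)
      (((bad x1 x3).biUnion (fun e => (Finset.Icc b0 b1).filter (fun y => (x3 - x1) ∣ y - e))) ∪
      (((bad x1 x5).biUnion (fun e => (Finset.Icc b0 b1).filter (fun y => (x5 - x1) ∣ y - e))) ∪
      ((bad x3 x5).biUnion (fun e => (Finset.Icc b0 b1).filter (fun y => (x5 - x3) ∣ y - e)))))
  have u3 := Finset.card_union_le
      ((bad x1 x3).biUnion (fun e => (Finset.Icc b0 b1).filter (fun y => (x3 - x1) ∣ y - e)))
      (((bad x1 x5).biUnion (fun e => (Finset.Icc b0 b1).filter (fun y => (x5 - x1) ∣ y - e))) ∪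
      ((bad x3 x5).biUnion (fun e => (Finset.Icc b0 b1).filter (fun y => (x5 - x3) ∣ y - e))))
  have u4 := Finset.card_union_le
      ((bad x1 x5).biUnion (fun e => (Finset.Icc b0 b1).filter (fun y => (x5 - x1) ∣ y - e)))
      ((bad x3 x5).biUnion (fun e => (Finset.Icc b0 b1).filter (fun y => (x5 - x3) ∣ y - e)))
  have hcB := h.cB
  zify at htot u1 u2 u3 u4 hE3 hhi
  linarith

/-- The five smallest elements. -/
def Five (U : Finset ℤ) (x1 x2 x3 x4 x5 : ℤ) : Prop :=
  x1 ∈ U ∧ x2 ∈ U ∧ x3 ∈ U ∧ x4 ∈ U ∧ x5 ∈ U ∧ x1 < x2 ∧ x2 < x3 ∧ x3 < x4 ∧ x4 < x5 ∧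
    (∀ a ∈ U, x1 ≤ a) ∧ (U.filter (fun a => a < x5)).card ≤ 4

theorem exists_five {U : Finset ℤ} (hU : 5 ≤ U.card) :
    ∃ x1 x2 x3 x4 x5, Five U x1 x2 x3 x4 x5 := by
  classical
  set e := U.orderEmbOfFin rfl with he
  have hmem : ∀ i, e i ∈ U := fun i => Finset.orderEmbOfFin_mem U rfl i
  have hlt : ∀ i j : Fin U.card, i < j → e i < e j := fun i j hij => e.strictMono hij
  have hsurj : ∀ a ∈ U, ∃ i, e i = a := by
    intro a ha
    have : a ∈ Set.range e := by
      rw [he, Finset.range_orderEmbOfFin]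
      exact ha
    exact this
  refine ⟨e ⟨0, by omega⟩, e ⟨1, by omega⟩, e ⟨2, by omega⟩, e ⟨3, by omega⟩, e ⟨4, by omega⟩,
    hmem _, hmem _, hmem _, hmem _, hmem _, hlt _ _ ?_, hlt _ _ ?_, hlt _ _ ?_, hlt _ _ ?_,
    ?_, ?_⟩
  · simp [Fin.lt_def]
  · simp [Fin.lt_def]
  · simp [Fin.lt_def]
  · simp [Fin.lt_def]
  · intro a ha
    obtain ⟨i, rfl⟩ := hsurj a ha
    exact e.monotone (by simp [Fin.le_def])
  · have hsub : U.filter (fun a => a < e ⟨4, by omega⟩) ⊆
        (Finset.univ : Finset (Fin 4)).image (fun i => e ⟨i.1, by omega⟩) := by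
      intro a ha
      rw [Finset.mem_filter] at ha
      obtain ⟨i, rfl⟩ := hsurj a ha.1
      have hi : i < ⟨4, by omega⟩ := e.lt_iff_lt.mp ha.2
      rw [Fin.lt_def] at hi
      simp only [Finset.mem_image, Finset.mem_univ, true_and]
      exact ⟨⟨i.1, hi⟩, rfl⟩
    calc _ ≤ _ := Finset.card_le_card hsub
      _ ≤ _ := Finset.card_image_le
      _ = 4 := by simp

theorem triple_of_five {N : ℤ} {A B D S : Finset ℤ} (h : Conf N A B D S) (hN : 1000 ≤ N)
    {x1 x2 x3 x4 x5 y1 y2 y3 y4 y5 z1 z2 z3 z4 z5 : ℤ} (hx : Five A x1 x2 x3 x4 x5)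
    (hy : Five B y1 y2 y3 y4 y5) (hz : Five (-B) z1 z2 z3 z4 z5) (h1 : x5 - x1 ≤ y5 - y1)
    (h2 : x5 - x1 ≤ z5 - z1) : LTriple A 200 4 := by
  classical
  obtain ⟨a1, a2, a3, a4, a5, a12, a23, a34, a45, _, ad⟩ := hx
  obtain ⟨b1, _, _, _, _, _, _, _, _, bmin, bd⟩ := hy
  obtain ⟨c1, _, _, _, _, _, _, _, _, cmin, cd⟩ := hz
  rw [Finset.mem_neg'] at c1
  refine triple_left h hN a1 a2 a3 a4 a5 a12 a23 a34 a45 ad b1 c1 ?_ ?_ ?_
  · intro b hb
    refine ⟨bmin b hb, ?_⟩
    have := cmin (-b) (by rw [Finset.mem_neg', neg_neg]; exact hb)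
    linarith
  · refine le_trans (Finset.card_le_card ?_) bd
    intro a ha
    rw [Finset.mem_filter] at ha ⊢
    exact ⟨ha.1, by linarith [ha.2]⟩
  · have : (B.filter (fun b => -z1 - (x5 - x1) < b)).card ≤
        ((-B).filter (fun a => a < z5)).card := by
      apply Finset.card_le_card_of_injOn (fun b => -b)
      · intro b hb
        rw [Finset.mem_coe, Finset.mem_filter] at hb
        rw [Finset.mem_coe, Finset.mem_filter, Finset.mem_neg', neg_neg]
        exact ⟨hb.1, by linarith [hb.2]⟩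
      · intro b _ b' _ hbb
        exact neg_injective hbb
    exact this.trans cd

theorem exists_triple {N : ℤ} {A B D S : Finset ℤ} (h : Conf N A B D S) (hN : 1000 ≤ N) :
    LTriple A 200 4 ∨ LTriple (-A) 200 4 ∨ LTriple B 200 4 ∨ LTriple (-B) 200 4 := by
  classical
  have hcA := h.cA
  have hcB := h.cB
  have cA : 5 ≤ A.card := by omega
  have cB : 5 ≤ B.card := by omega
  obtain ⟨p1, p2, p3, p4, p5, hp⟩ := exists_five cA
  obtain ⟨q1, q2, q3, q4, q5, hq⟩ := exists_five (U := -A) (by rw [Finset.card_neg]; exact cA)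
  obtain ⟨r1, r2, r3, r4, r5, hr⟩ := exists_five cB
  obtain ⟨s1, s2, s3, s4, s5, hs⟩ := exists_five (U := -B) (by rw [Finset.card_neg]; exact cB)
  by_cases c1 : p5 - p1 ≤ r5 - r1 ∧ p5 - p1 ≤ s5 - s1
  · exact Or.inl (triple_of_five h hN hp hr hs c1.1 c1.2)
  by_cases c2 : q5 - q1 ≤ r5 - r1 ∧ q5 - q1 ≤ s5 - s1
  · exact Or.inr (Or.inl (triple_of_five h.reflect hN hq hr hs c2.1 c2.2))
  by_cases c3 : r5 - r1 ≤ p5 - p1 ∧ r5 - r1 ≤ q5 - q1
  · exact Or.inr (Or.inr (Or.inl (triple_of_five h.transpose hN hr hp hq c3.1 c3.2)))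
  · refine Or.inr (Or.inr (Or.inr (triple_of_five h.transpose.reflect hN hs hp hq ?_ ?_)))
    · by_contra hc
      push Not at hc
      rcases not_and_or.mp c1 with d1 | d1 <;> rcases not_and_or.mp c2 with d2 | d2 <;>
        rcases not_and_or.mp c3 with d3 | d3 <;> push Not at d1 d2 d3 <;> linarith
    · by_contra hc
      push Not at hc
      rcases not_and_or.mp c1 with d1 | d1 <;> rcases not_and_or.mp c2 with d2 | d2 <;>
        rcases not_and_or.mp c3 with d3 | d3 <;> push Not at d1 d2 d3 <;> linarith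

end Pool.Agent.MP_f71fe7
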